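import Pool.Agent.TH474.RS.Tau

set_option autoImplicit false
set_option linter.all false

/-!
The colouring of `D ⊔ B`.
-/

namespace Pool.Agent.TH474.RS

open Finset Classical

namespace Core

variable {n : ℕ} (P : SimpleGraph (Fin n))

lemma e2_singleton (t : Fin n) : e2 P {t} = 0 := by
  unfold e2
  rw [Finset.card_eq_zero, Finset.eq_empty_iff_forall_notMem]
  rintro ⟨a, b⟩ hab
  rw [Finset.mem_filter, Finset.mem_product, Finset.mem_singleton, Finset.mem_singleton] at hab
  obtain ⟨⟨h1, h2⟩, h3⟩ := hab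
  simp only at h1 h2 h3
  subst h1; subst h2
  exact h3.ne rfl

lemma cr_singleton (t : Fin n) (U : Finset (Fin n)) :
    Props.cr P {t} U = (U.filter (fun u => P.Adj t u)).card := by
  rw [Props.cr_eq_sum, Finset.sum_singleton]

lemma minimal {δ : ℕ} (hδ : 1 ≤ δ) (U : Finset (Fin n)) (hU : U.Nonempty)
    (h : 2 * δ * U.card ≤ e2 P U) :
    ∃ U' ⊆ U, U'.Nonempty ∧ (∀ t ∈ U', δ ≤ (U'.filter (fun u => P.Adj t u)).card) ∧
      (∀ W ⊆ U', W.Nonempty → W ≠ U' → ∃ t ∈ W, ∃ u ∈ U', u ∉ W ∧ P.Adj t u) := by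
  obtain ⟨U', hU', hmin⟩ := Finset.exists_min_image
    (U.powerset.filter (fun A => A.Nonempty ∧ 2 * δ * A.card ≤ e2 P A)) Finset.card
    ⟨U, Finset.mem_filter.mpr ⟨Finset.mem_powerset.mpr (Finset.Subset.refl _), hU, h⟩⟩
  rw [Finset.mem_filter, Finset.mem_powerset] at hU'
  obtain ⟨hsub, hne, hE⟩ := hU'
  have hsmall : ∀ A ⊆ U', A.Nonempty → A ≠ U' → e2 P A < 2 * δ * A.card := by
    intro A hA hAn hAne
    by_contra hcon
    rw [not_lt] at hcon
    have h1 := hmin A (Finset.mem_filter.mpr ⟨Finset.mem_powerset.mpr (hA.trans hsub), hAn, hcon⟩)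
    exact hAne (Finset.eq_of_subset_of_card_le hA h1)
  refine ⟨U', hsub, hne, ?_, ?_⟩
  · intro t ht
    by_contra hcon
    rw [not_le] at hcon
    have hdis : Disjoint (U'.erase t) {t} := by
      rw [Finset.disjoint_singleton_right]
      exact Finset.notMem_erase t U'
    have hun : U'.erase t ∪ {t} = U' := by
      rw [Finset.union_comm, ← Finset.insert_eq, Finset.insert_erase ht]
    have h1 := Props.e2_union P hdis
    rw [hun, cr_singleton, e2_singleton] at h1
    have h2 : ((U'.erase t).filter (fun u => P.Adj t u)).card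
        ≤ (U'.filter (fun u => P.Adj t u)).card :=
      Finset.card_le_card (Finset.filter_subset_filter _ (Finset.erase_subset _ _))
    have h3 : (U'.erase t).card + 1 = U'.card := Finset.card_erase_add_one ht
    rcases Finset.eq_empty_or_nonempty (U'.erase t) with he | he
    · rw [he] at h1 h3
      rw [Finset.card_empty] at h3
      have h4 : e2 P (∅ : Finset (Fin n)) = 0 := by
        unfold e2; simp
      rw [h4] at h1
      have h5 : ((∅ : Finset (Fin n)).filter (fun u => P.Adj t u)).card = 0 := by simp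
      rw [h5] at h1
      have h6 : 2 * δ * 1 ≤ e2 P U' := by
        rw [← zero_add 1, h3]; exact hE
      omega
    · have h4 := hsmall (U'.erase t) (Finset.erase_subset _ _) he (by
        intro heq
        rw [heq] at h3
        omega)
      have h5 : 2 * δ * U'.card = 2 * δ * (U'.erase t).card + 2 * δ := by
        rw [← h3]; ring
      omega
  · intro W hW hWn hWne
    by_contra hcon
    push Not at hcon
    have hdis : Disjoint W (U' \ W) := Finset.disjoint_sdiff
    have h1 := Props.e2_union P hdis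
    rw [Finset.union_sdiff_of_subset hW] at h1
    have h2 : Props.cr P (U' \ W) W = 0 := by
      unfold Props.cr
      rw [Finset.card_eq_zero, Finset.eq_empty_iff_forall_notMem]
      rintro ⟨a, c⟩ hac
      rw [Finset.mem_filter, Finset.mem_product, Finset.mem_sdiff] at hac
      exact hcon c hac.1.2 a hac.1.1.1 hac.1.1.2 hac.2.symm
    rw [h2] at h1
    have h3 := hsmall W hW hWn hWne
    have h4 : (U' \ W).Nonempty := by
      rw [Finset.sdiff_nonempty]
      exact fun hsub => hWne (Finset.Subset.antisymm hW hsub)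
    have h5 := hsmall (U' \ W) Finset.sdiff_subset h4 (by
      intro heq
      obtain ⟨w, hw⟩ := hWn
      have h6 : w ∈ U' \ W := by rw [heq]; exact hW hw
      exact (Finset.mem_sdiff.mp h6).2 hw)
    have h6 : (U' \ W).card + W.card = U'.card := Finset.card_sdiff_add_card_eq_card hW
    have h7 : 2 * δ * U'.card = 2 * δ * (U' \ W).card + 2 * δ * W.card := by
      rw [← h6]; ring
    omega

variable {V : Type} [Fintype V] (D B : SimpleGraph V)

/-- the red graph -/
def red (τ : V → Fin n) : SimpleGraph V where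
  Adj x y := (D.Adj x y ∧ ¬ near P (τ x) (τ y)) ∨
    (¬ D.Adj x y ∧ B.Adj x y ∧ (τ x = τ y ∨ P.Adj (τ x) (τ y)))
  symm := ⟨by
    rintro x y (⟨h1, h2⟩ | ⟨h1, h2, h3⟩)
    · exact Or.inl ⟨h1.symm, fun h => h2 (near_symm h)⟩
    · exact Or.inr ⟨fun h => h1 h.symm, h2.symm, h3.imp Eq.symm SimpleGraph.Adj.symm⟩⟩
  loopless := ⟨by
    rintro x (⟨h1, _⟩ | ⟨_, h1, _⟩)
    · exact h1.ne rfl
    · exact h1.ne rfl⟩

lemma red_le (τ : V → Fin n) : red P D B τ ≤ D ⊔ B := by
  intro x y h
  rcases h with h | h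
  · exact Or.inl h.1
  · exact Or.inr h.2.1

theorem core {q h K b γ v0 k M : ℕ} (hq : 8 * b + 7 ≤ q) (hb : 1 ≤ b)
    (hv : (b + 1) * ((2 * b - 1) * (b + 1) + 2) ≤ v0) (hP : Props.Sparse P b v0)
    (hγ : ∀ v, (Enc.cn D v).card ≤ γ) (hγ1 : 1 ≤ γ) (hh : h = v0 + 1)
    (hn : 64 * γ ≤ n) (hnb : n ≤ 4 ^ b) (hK : K ≤ 2 ^ b) (hK1 : 1 ≤ K)
    (hk : 1 ≤ k) (hsk : 4 * (32 * M) ≤ 5 * k) (hbk : b * (32 * M + 2) + 3 ≤ k)
    (hdg : ∀ t, n ≤ 8 * M * dg P t)
    (hT : ∀ T : Finset (Fin n), T.card = K →
      2 * (2 * (3 * q) * (h + 3 * q)) * K ≤ e2 P T)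
    (hB : B.CliqueFree k) :
    ∃ R : SimpleGraph V, R ≤ D ⊔ B ∧ R.CliqueFree k ∧ ((D ⊔ B) \ R).CliqueFree K := by
  have hn1 : 1 ≤ n := by omega
  have hv5 : 5 ≤ v0 := by
    have h1 : 2 * (1 * 2 + 2) ≤ (b + 1) * ((2 * b - 1) * (b + 1) + 2) :=
      Nat.mul_le_mul (by omega)
        (Nat.add_le_add_right (Nat.mul_le_mul (by omega) (by omega)) 2)
    omega
  obtain ⟨τ, h1, h2, h3⟩ := Tau.exists_tau D P (s := 32 * M) hq hb hv hP hγ hγ1 hh hn hnb hK hk
    hsk hbk
  refine ⟨red P D B τ, red_le P D B τ, ?_, ?_⟩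
  · intro X hX
    by_cases hD : ∃ v ∈ X, ∃ w ∈ X, D.Adj v w
    · obtain ⟨v, hvX, w, hwX, hvw⟩ := hD
      have hne : τ v ≠ τ w := h1 v w hvw
      have hnn : ¬ near P (τ v) (τ w) := by
        have := hX.1 (Finset.mem_coe.mpr hvX) (Finset.mem_coe.mpr hwX) hvw.ne
        rcases this with h | h
        · exact h.2
        · exact absurd hvw h.1
      have hcov : Tau.Cov D X := by
        refine ⟨v, w, hvw, ?_⟩
        intro x hx
        by_contra hcon
        rw [not_or] at hcon
        have hxv : x ≠ v := by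
          rintro rfl
          exact hcon.2 hvw.symm
        have hxw : x ≠ w := by
          rintro rfl
          exact hcon.1 hvw
        have e1 : τ v = τ x ∨ P.Adj (τ v) (τ x) := by
          have := hX.1 (Finset.mem_coe.mpr hvX) (Finset.mem_coe.mpr hx) hxv.symm
          rcases this with h | h
          · exact absurd h.1 hcon.1
          · exact h.2.2
        have e2' : τ w = τ x ∨ P.Adj (τ w) (τ x) := by
          have := hX.1 (Finset.mem_coe.mpr hwX) (Finset.mem_coe.mpr hx) hxw.symm
          rcases this with h | h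
          · exact absurd h.1 hcon.2
          · exact h.2.2
        apply hnn
        refine ⟨hne, ?_⟩
        rcases e1 with e1 | e1 <;> rcases e2' with e2' | e2'
        · exact absurd (e1.trans e2'.symm) hne
        · left; rw [e1]; exact e2'.symm
        · left; rw [e2']; exact e1
        · right; exact ⟨τ x, e1, e2'.symm⟩
      have h4 := h2 X hX.2 hcov
      have h5 : (X.image τ).card ≤ 32 * M := by
        refine Props.spread_le P hb hn1 hv5 hP hdg (X.image τ) ?_
        intro t ht u hu hnear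
        rw [Finset.mem_image] at ht hu
        obtain ⟨x, hx, rfl⟩ := ht
        obtain ⟨y, hy, rfl⟩ := hu
        have hxy : x ≠ y := by
          rintro rfl
          exact hnear.1 rfl
        have := hX.1 (Finset.mem_coe.mpr hx) (Finset.mem_coe.mpr hy) hxy
        rcases this with h | h
        · exact absurd hnear h.2
        · rcases h.2.2 with h | h
          · exact absurd h hnear.1
          · exact h
      omega
    · push Not at hD
      refine hB X ⟨?_, hX.2⟩
      intro x hx y hy hxy
      have := hX.1 hx hy hxy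
      rcases this with h | h
      · exact absurd h.1 (hD x (Finset.mem_coe.mp hx) y (Finset.mem_coe.mp hy))
      · exact h.2.1
  · intro X hX
    have hblue : ∀ x ∈ X, ∀ y ∈ X, x ≠ y →
        (D.Adj x y ∧ near P (τ x) (τ y)) ∨ (τ x ≠ τ y ∧ ¬ P.Adj (τ x) (τ y)) := by
      intro x hx y hy hxy
      have := hX.1 (Finset.mem_coe.mpr hx) (Finset.mem_coe.mpr hy) hxy
      rw [SimpleGraph.sdiff_adj, SimpleGraph.sup_adj] at this
      obtain ⟨hDB, hnr⟩ := this
      by_cases hd : D.Adj x y
      · left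
        refine ⟨hd, ?_⟩
        by_contra hcon
        exact hnr (Or.inl ⟨hd, hcon⟩)
      · right
        have hBxy : B.Adj x y := by
          rcases hDB with h | h
          · exact absurd h hd
          · exact h
        constructor
        · intro he
          exact hnr (Or.inr ⟨hd, hBxy, Or.inl he⟩)
        · intro he
          exact hnr (Or.inr ⟨hd, hBxy, Or.inr he⟩)
    have hinj : ∀ x ∈ X, ∀ y ∈ X, τ x = τ y → x = y := by
      intro x hx y hy he
      by_contra hne
      rcases hblue x hx y hy hne with h | h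
      · exact h.2.1 he
      · exact h.1 he
    have hUc : (X.image τ).card = K := by
      rw [← hX.2]
      exact Finset.card_image_of_injOn (fun x hx y hy he => hinj x hx y hy he)
    have hE := hT (X.image τ) hUc
    set δ := 2 * (3 * q) * (h + 3 * q) with hδ
    have hδ1 : 1 ≤ δ := by
      have : 1 ≤ q := by omega
      rw [hδ]
      nlinarith
    obtain ⟨U', hU'sub, hU'ne, hdeg, huns⟩ := minimal P hδ1 (X.image τ)
      (Finset.card_pos.mp (by omega)) (by rw [hUc]; exact hE)
    set X' := X.filter (fun x => τ x ∈ U') with hX'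
    have hX'X : X' ⊆ X := Finset.filter_subset _ _
    have hmem : ∀ t ∈ U', ∃ x ∈ X', τ x = t := by
      intro t ht
      have := hU'sub ht
      rw [Finset.mem_image] at this
      obtain ⟨x, hx, rfl⟩ := this
      exact ⟨x, Finset.mem_filter.mpr ⟨hx, ht⟩, rfl⟩
    have hX'ne : X'.Nonempty := by
      obtain ⟨t, ht⟩ := hU'ne
      obtain ⟨x, hx, _⟩ := hmem t ht
      exact ⟨x, hx⟩
    refine h3 X' hX'ne ?_
    have hg : ∀ p ∈ Tau.gph τ X', p.1 ∈ X ∧ τ p.1 = p.2 ∧ p.2 ∈ U' := by
      intro p hp
      rw [Tau.mem_gph] at hp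
      refine ⟨hX'X hp.1, hp.2, ?_⟩
      rw [← hp.2]
      exact (Finset.mem_filter.mp hp.1).2
    have hginj : ∀ p ∈ Tau.gph τ X', ∀ p' ∈ Tau.gph τ X', p.2 = p'.2 → p = p' := by
      intro p hp p' hp' he
      have h4 := hg p hp
      have h5 := hg p' hp'
      have h6 : p.1 = p'.1 := hinj _ h4.1 _ h5.1 (by rw [h4.2.1, h5.2.1, he])
      exact Prod.ext h6 he
    have hgmem : ∀ t ∈ U', ∃ p ∈ Tau.gph τ X', p.2 = t := by
      intro t ht
      obtain ⟨x, hx, he⟩ := hmem t ht
      exact ⟨(x, t), Tau.mem_gph.mpr ⟨hx, he⟩, rfl⟩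
    refine ⟨?_, hginj, ?_, ?_, ?_, ?_, ?_⟩
    · intro p hp p' hp' he
      have h4 := hg p hp
      have h5 := hg p' hp'
      exact Prod.ext he (by rw [← h4.2.1, ← h5.2.1, he])
    · rw [Tau.gph_card, ← hX.2]
      exact Finset.card_le_card hX'X
    · intro p hp p' hp' hadj
      have h4 := hg p hp
      have h5 := hg p' hp'
      rw [← h4.2.1, ← h5.2.1]
      have := hX.1 (Finset.mem_coe.mpr h4.1) (Finset.mem_coe.mpr h5.1) hadj.ne
      rw [SimpleGraph.sdiff_adj] at this
      by_contra hcon
      exact this.2 (Or.inl ⟨hadj, hcon⟩)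
    · intro p hp p' hp' hadj
      have h4 := hg p hp
      have h5 := hg p' hp'
      have hne : p.1 ≠ p'.1 := by
        intro he
        have : p.2 = p'.2 := by rw [← h4.2.1, ← h5.2.1, he]
        exact hadj.ne this
      rcases hblue _ h4.1 _ h5.1 hne with h6 | h6
      · exact h6.1
      · rw [h4.2.1, h5.2.1] at h6
        exact absurd hadj h6.2
    · intro p hp
      have h4 := hg p hp
      refine (hdeg p.2 h4.2.2).trans ?_
      have h5 : U'.filter (fun u => P.Adj p.2 u)
          ⊆ ((Tau.gph τ X').filter (fun p' => P.Adj p.2 p'.2)).image Prod.snd := by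
        intro u hu
        rw [Finset.mem_filter] at hu
        obtain ⟨p', hp', he⟩ := hgmem u hu.1
        rw [Finset.mem_image]
        exact ⟨p', Finset.mem_filter.mpr ⟨hp', by rw [he]; exact hu.2⟩, he⟩
      exact (Finset.card_le_card h5).trans Finset.card_image_le
    · intro A hA hAn hAne
      obtain ⟨t, ht, u, hu, huW, hadj⟩ := huns (A.image Prod.snd) (by
        intro t ht
        rw [Finset.mem_image] at ht
        obtain ⟨p, hp, rfl⟩ := ht
        exact (hg p (hA hp)).2.2) (hAn.image _) (by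
        intro he
        apply hAne
        refine Finset.Subset.antisymm hA ?_
        intro p hp
        have h4 := hg p hp
        have h5 : p.2 ∈ A.image Prod.snd := by rw [he]; exact h4.2.2
        rw [Finset.mem_image] at h5
        obtain ⟨p', hp', he'⟩ := h5
        rw [← hginj p' (hA hp') p hp he']
        exact hp')
      rw [Finset.mem_image] at ht
      obtain ⟨p, hp, rfl⟩ := ht
      obtain ⟨p', hp', rfl⟩ := hgmem u hu
      refine ⟨p, hp, p', hp', ?_, hadj⟩
      intro hp'A
      exact huW (Finset.mem_image_of_mem _ hp'A)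

end Core

end Pool.Agent.TH474.RS
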