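import Pool.Agent.TH474.RS.Select

set_option autoImplicit false
set_option linter.all false

/-!
Encoding of good sets of (vertex, type) pairs, and the weighted count.
-/

namespace Pool.Agent.TH474.RS

open Finset Classical

namespace Enc

variable {V : Type} [Fintype V] {n : ℕ} (D : SimpleGraph V) (P : SimpleGraph (Fin n))

structure Good (δ K : ℕ) (Z : Finset (V × Fin n)) : Prop where
  fn : ∀ p ∈ Z, ∀ p' ∈ Z, p.1 = p'.1 → p = p'
  inj : ∀ p ∈ Z, ∀ p' ∈ Z, p.2 = p'.2 → p = p'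
  card : Z.card ≤ K
  nr : ∀ p ∈ Z, ∀ p' ∈ Z, D.Adj p.1 p'.1 → near P p.2 p'.2
  adj : ∀ p ∈ Z, ∀ p' ∈ Z, P.Adj p.2 p'.2 → D.Adj p.1 p'.1
  deg : ∀ p ∈ Z, δ ≤ (Z.filter (fun p' => P.Adj p.2 p'.2)).card
  unsplit : ∀ A ⊆ Z, A.Nonempty → A ≠ Z → ∃ p ∈ A, ∃ p' ∈ Z, p' ∉ A ∧ P.Adj p.2 p'.2

noncomputable def cn (v : V) : Finset V := univ.filter (fun w => w = v ∨ D.Adj v w)

lemma mem_cn {v w : V} : w ∈ cn D v ↔ (w = v ∨ D.Adj v w) := by
  rw [cn, Finset.mem_filter]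
  exact ⟨fun h => h.2, fun h => ⟨Finset.mem_univ _, h⟩⟩

noncomputable def ball3 (v : V) : Finset V :=
  (cn D v).biUnion (fun a => (cn D a).biUnion (fun b => cn D b))

lemma mem_ball3 {v a b w : V} (h1 : v = a ∨ D.Adj v a) (h2 : a = b ∨ D.Adj a b)
    (h3 : b = w ∨ D.Adj b w) : w ∈ ball3 D v := by
  rw [ball3, Finset.mem_biUnion]
  refine ⟨a, (mem_cn D).mpr (h1.imp Eq.symm id), ?_⟩
  rw [Finset.mem_biUnion]
  exact ⟨b, (mem_cn D).mpr (h2.imp Eq.symm id), (mem_cn D).mpr (h3.imp Eq.symm id)⟩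

lemma card_ball3 {γ : ℕ} (hγ : ∀ v, (cn D v).card ≤ γ) (v : V) : (ball3 D v).card ≤ γ ^ 3 := by
  have h1 : ∀ a : V, ((cn D a).biUnion (fun b => cn D b)).card ≤ γ * γ := fun a =>
    (Finset.card_biUnion_le_card_mul _ _ γ (fun b _ => hγ b)).trans
      (Nat.mul_le_mul_right _ (hγ a))
  calc (ball3 D v).card ≤ (cn D v).card * (γ * γ) :=
        Finset.card_biUnion_le_card_mul _ _ _ (fun a _ => h1 a)
    _ ≤ γ * (γ * γ) := Nat.mul_le_mul_right _ (hγ v)
    _ = γ ^ 3 := by ring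

variable {D P}

lemma step {δ K : ℕ} {Z : Finset (V × Fin n)} (hZ : Good D P δ K Z) {S : Finset (V × Fin n)}
    (hSZ : S ⊆ Z) (hdom : ∀ p ∈ Z, p ∉ S → 1 ≤ (S.filter (fun p' => P.Adj p.2 p'.2)).card)
    {A : Finset (V × Fin n)} (hAS : A ⊆ S) (hA : A.Nonempty) (hne : A ≠ S) :
    ∃ p ∈ A, ∃ p' ∈ S, p' ∉ A ∧ p'.1 ∈ ball3 D p.1 := by
  set A' := Z.filter (fun p => p ∈ A ∨ (p ∉ S ∧ ∃ a ∈ A, P.Adj a.2 p.2)) with hA'
  have h1 : A ⊆ A' := by
    intro p hp
    rw [hA', Finset.mem_filter]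
    exact ⟨hSZ (hAS hp), Or.inl hp⟩
  have h2 : A' ≠ Z := by
    intro h
    apply hne
    refine Finset.Subset.antisymm hAS ?_
    intro s hs
    have h3 : s ∈ A' := by rw [h]; exact hSZ hs
    rw [hA', Finset.mem_filter] at h3
    rcases h3.2 with h4 | h4
    · exact h4
    · exact absurd hs h4.1
  obtain ⟨p, hp, p', hp', hpA', hadj⟩ :=
    hZ.unsplit A' (Finset.filter_subset _ _) (hA.mono h1) h2
  rw [hA', Finset.mem_filter] at hp
  have hp'A : p' ∉ A := fun h => hpA' (h1 h)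
  have hpp := hZ.adj p hp.1 p' hp' hadj
  rcases hp.2 with hpA | ⟨hpS, a, haA, haadj⟩
  · have hp'S : p' ∈ S := by
      by_contra hcon
      apply hpA'
      rw [hA', Finset.mem_filter]
      exact ⟨hp', Or.inr ⟨hcon, p, hpA, hadj⟩⟩
    exact ⟨p, hpA, p', hp'S, hp'A, mem_ball3 D (Or.inr hpp) (Or.inl rfl) (Or.inl rfl)⟩
  · have hap := hZ.adj a (hSZ (hAS haA)) p hp.1 haadj
    by_cases hp'S : p' ∈ S
    · exact ⟨a, haA, p', hp'S, hp'A, mem_ball3 D (Or.inr hap) (Or.inr hpp) (Or.inl rfl)⟩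
    · obtain ⟨s, hs⟩ := Finset.card_pos.mp (hdom p' hp' hp'S)
      rw [Finset.mem_filter] at hs
      have hsA : s ∉ A := by
        intro hsA
        apply hpA'
        rw [hA', Finset.mem_filter]
        exact ⟨hp', Or.inr ⟨hp'S, s, hsA, hs.2.symm⟩⟩
      have hps := hZ.adj p' hp' s (hSZ hs.1) hs.2
      exact ⟨a, haA, s, hs.1, hsA, mem_ball3 D (Or.inr hap) (Or.inr hpp) (Or.inr hps)⟩

variable (D)

noncomputable def fam (x : V) : ℕ → Finset (Finset (V × Fin n))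
  | 0 => univ.image (fun t : Fin n => ({(x, t)} : Finset (V × Fin n)))
  | (j + 1) => (fam x j).biUnion (fun Z₀ =>
      ((Z₀.biUnion (fun p => ball3 D p.1)) ×ˢ (univ : Finset (Fin n))).image
        (fun p => insert p Z₀))

lemma fam_card_mem (x : V) : ∀ (j : ℕ) (Z : Finset (V × Fin n)), Z ∈ fam D x j →
    Z.card ≤ j + 1 := by
  intro j
  induction j with
  | zero =>
    intro Z hZ
    rw [fam, Finset.mem_image] at hZ
    obtain ⟨t, _, rfl⟩ := hZ
    simp
  | succ j ih =>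
    intro Z hZ
    rw [fam, Finset.mem_biUnion] at hZ
    obtain ⟨Z₀, hZ₀, hZ⟩ := hZ
    rw [Finset.mem_image] at hZ
    obtain ⟨p, _, rfl⟩ := hZ
    have := ih Z₀ hZ₀
    have h2 := Finset.card_insert_le p Z₀
    omega

lemma fam_card {γ K : ℕ} (hγ : ∀ v, (cn D v).card ≤ γ) (hγ1 : 1 ≤ γ) (x : V) :
    ∀ j : ℕ, j < K → (fam (n := n) D x j).card ≤ (K * γ ^ 3 * n) ^ (j + 1) := by
  intro j
  induction j with
  | zero =>
    intro hK
    rw [fam, zero_add, pow_one]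
    refine Finset.card_image_le.trans ?_
    rw [Finset.card_univ, Fintype.card_fin]
    have h1 : 1 ≤ K * γ ^ 3 := Nat.mul_pos (by omega) (Nat.pow_pos (by omega))
    nlinarith
  | succ j ih =>
    intro hK
    have h1 := ih (by omega)
    rw [fam]
    have h2 : ∀ Z₀ ∈ fam (n := n) D x j,
        (((Z₀.biUnion (fun p => ball3 D p.1)) ×ˢ (univ : Finset (Fin n))).image
        (fun p => insert p Z₀)).card ≤ K * γ ^ 3 * n := by
      intro Z₀ hZ₀
      refine Finset.card_image_le.trans ?_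
      rw [Finset.card_product, Finset.card_univ, Fintype.card_fin]
      refine Nat.mul_le_mul_right _ ?_
      have h3 := fam_card_mem D x j Z₀ hZ₀
      calc _ ≤ Z₀.card * γ ^ 3 :=
            Finset.card_biUnion_le_card_mul _ _ _ (fun p _ => card_ball3 D hγ p.1)
        _ ≤ K * γ ^ 3 := Nat.mul_le_mul_right _ (by omega)
    calc _ ≤ (fam (n := n) D x j).card * (K * γ ^ 3 * n) :=
          Finset.card_biUnion_le_card_mul _ _ _ h2
      _ ≤ (K * γ ^ 3 * n) ^ (j + 1) * (K * γ ^ 3 * n) := Nat.mul_le_mul_right _ h1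
      _ = _ := by rw [← pow_succ]

lemma mem_fam {x : V} {t₀ : Fin n} {S : Finset (V × Fin n)} (hx : (x, t₀) ∈ S)
    (hstep : ∀ A ⊆ S, A.Nonempty → A ≠ S → ∃ p ∈ A, ∃ p' ∈ S, p' ∉ A ∧ p'.1 ∈ ball3 D p.1) :
    S ∈ fam D x (S.card - 1) := by
  have key : ∀ j : ℕ, j < S.card → ∃ A ⊆ S, A ∈ fam D x j ∧ A.card = j + 1 := by
    intro j
    induction j with
    | zero =>
      intro _
      refine ⟨{(x, t₀)}, Finset.singleton_subset_iff.mpr hx, ?_, by simp⟩
      rw [fam, Finset.mem_image]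
      exact ⟨t₀, Finset.mem_univ _, rfl⟩
    | succ j ih =>
      intro hj
      obtain ⟨A, hAS, hAf, hAc⟩ := ih (by omega)
      have hne : A ≠ S := by
        rintro rfl
        omega
      obtain ⟨p, hp, p', hp', hp'A, hb⟩ := hstep A hAS
        (Finset.card_pos.mp (by omega)) hne
      refine ⟨insert p' A, Finset.insert_subset hp' hAS, ?_, ?_⟩
      · rw [fam, Finset.mem_biUnion]
        refine ⟨A, hAf, ?_⟩
        rw [Finset.mem_image]
        refine ⟨p', ?_, rfl⟩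
        rw [Finset.mem_product, Finset.mem_biUnion]
        exact ⟨⟨p, hp, hb⟩, Finset.mem_univ _⟩
      · rw [Finset.card_insert_of_notMem hp'A, hAc]
  have hpos : 0 < S.card := Finset.card_pos.mpr ⟨_, hx⟩
  obtain ⟨A, hAS, hAf, hAc⟩ := key (S.card - 1) (by omega)
  have : A = S := Finset.eq_of_subset_of_card_le hAS (by omega)
  rw [← this] at hAf ⊢
  exact hAf

noncomputable def Ty (S : Finset (V × Fin n)) (y : V) : Finset (Fin n) :=
  (S.filter (fun p => D.Adj y p.1)).image Prod.snd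

variable (P)

noncomputable def adm (h : ℕ) (S : Finset (V × Fin n)) : Finset (V × Fin n) :=
  (S.biUnion (fun p => cn D p.1)).biUnion (fun y =>
    (univ.filter (fun t : Fin n => h ≤ ((Ty D S y).filter (fun u => P.Adj t u)).card ∧
      ∀ u ∈ Ty D S y, near P t u)).image (fun t => (y, t)))

lemma card_adm {γ b v0 : ℕ} (hb : 1 ≤ b) (hv : (b + 1) * ((2 * b - 1) * (b + 1) + 2) ≤ v0)
    (hP : Props.Sparse P b v0) (hγ : ∀ v, (cn D v).card ≤ γ) (S : Finset (V × Fin n)) :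
    (adm D P (v0 + 1) S).card ≤ S.card * (γ * (b + 3)) := by
  rw [adm, ← mul_assoc]
  have h1 : (S.biUnion (fun p => cn D p.1)).card ≤ S.card * γ :=
    Finset.card_biUnion_le_card_mul _ _ _ (fun p _ => hγ p.1)
  refine (Finset.card_biUnion_le_card_mul _ _ (b + 3) (fun y _ => ?_)).trans
    (Nat.mul_le_mul_right _ h1)
  refine Finset.card_image_le.trans ?_
  refine Props.few_types P hb hv hP (Ty D S y) _ ?_
  intro t ht
  exact (Finset.mem_filter.mp ht).2

variable {P}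

lemma sub_adm {δ K h : ℕ} (hh : 1 ≤ h) {Z : Finset (V × Fin n)} (hZ : Good D P δ K Z)
    {S : Finset (V × Fin n)} (hSZ : S ⊆ Z)
    (hdom : ∀ p ∈ Z, p ∉ S → h ≤ (S.filter (fun p' => P.Adj p.2 p'.2)).card) :
    Z \ S ⊆ adm D P h S := by
  intro p hp
  rw [Finset.mem_sdiff] at hp
  have h1 := hdom p hp.1 hp.2
  rw [adm, Finset.mem_biUnion]
  refine ⟨p.1, ?_, ?_⟩
  · obtain ⟨s, hs⟩ := Finset.card_pos.mp (lt_of_lt_of_le hh h1)
    rw [Finset.mem_filter] at hs
    rw [Finset.mem_biUnion]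
    refine ⟨s, hs.1, ?_⟩
    rw [mem_cn]
    exact Or.inr (hZ.adj p hp.1 s (hSZ hs.1) hs.2).symm
  · rw [Finset.mem_image]
    refine ⟨p.2, ?_, rfl⟩
    rw [Finset.mem_filter]
    refine ⟨Finset.mem_univ _, ?_, ?_⟩
    · refine h1.trans ?_
      refine Finset.card_le_card_of_injOn Prod.snd ?_ ?_
      · intro s hs
        rw [Finset.mem_coe, Finset.mem_filter] at hs
        rw [Finset.mem_coe, Finset.mem_filter, Ty, Finset.mem_image]
        refine ⟨⟨s, ?_, rfl⟩, hs.2⟩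
        rw [Finset.mem_filter]
        exact ⟨hs.1, hZ.adj p hp.1 s (hSZ hs.1) hs.2⟩
      · intro s hs s' hs' hss
        rw [Finset.mem_coe, Finset.mem_filter] at hs hs'
        exact hZ.inj s (hSZ hs.1) s' (hSZ hs'.1) hss
    · intro u hu
      rw [Ty, Finset.mem_image] at hu
      obtain ⟨s, hs, rfl⟩ := hu
      rw [Finset.mem_filter] at hs
      exact hZ.nr p hp.1 s (hSZ hs.1) hs.2

/-- the encoding of a good set -/
lemma encode {q h K : ℕ} (hq : 1 ≤ q) (hh : 1 ≤ h) {Z : Finset (V × Fin n)}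
    (hZ : Good D P (2 * (3 * q) * (h + 3 * q)) K Z) {x : V} (hx : x ∈ Z.image Prod.fst) :
    ∃ S ⊆ Z, 1 ≤ S.card ∧ S.card ≤ K ∧ S ∈ fam D x (S.card - 1) ∧ q * S.card ≤ Z.card ∧
      Z \ S ⊆ adm D P h S := by
  rw [Finset.mem_image] at hx
  obtain ⟨p₀, hp₀, rfl⟩ := hx
  obtain ⟨S, hSZ, hpS, hc, hd⟩ := Sel.select' Z (fun p p' => P.Adj p.2 p'.2) q h hq hZ.deg p₀ hp₀
  refine ⟨S, hSZ, Finset.card_pos.mpr ⟨_, hpS⟩, (Finset.card_le_card hSZ).trans hZ.card, ?_, hc,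
    sub_adm D hh hZ hSZ hd⟩
  refine mem_fam D (t₀ := p₀.2) hpS ?_
  intro A hA hAn hAne
  exact step hZ hSZ (fun p hp hpS => hh.trans (hd p hp hpS)) hA hAn hAne

lemma geom (K : ℕ) : ∑ j ∈ range K, (1 / 32 : ℝ) ^ (j + 1) ≤ 1 / 31 := by
  have h : ∑ j ∈ range K, (1 / 32 : ℝ) ^ (j + 1) + (1 / 32 : ℝ) ^ K * (1 / 31) = 1 / 31 := by
    induction K with
    | zero => simp
    | succ K ih =>
      rw [Finset.sum_range_succ]
      have : (1 / 32 : ℝ) ^ (K + 1) = (1 / 32) ^ K * (1 / 32) := pow_succ _ _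
      rw [this]
      linarith
  have h2 : (0 : ℝ) ≤ (1 / 32 : ℝ) ^ K * (1 / 31) := by positivity
  linarith

/-- the weighted count of the good sets through `x` -/
lemma weight {q h K b γ v0 : ℕ} (hq : 8 * b + 7 ≤ q) (hb : 1 ≤ b)
    (hv : (b + 1) * ((2 * b - 1) * (b + 1) + 2) ≤ v0) (hP : Props.Sparse P b v0)
    (hγ : ∀ v, (cn D v).card ≤ γ) (hγ1 : 1 ≤ γ) (hh : h = v0 + 1)
    (hn : 64 * γ ≤ n) (hnb : n ≤ 4 ^ b) (hK : K ≤ 2 ^ b) (x : V) :
    ∑ Z ∈ univ.filter (fun Z : Finset (V × Fin n) =>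
        Good D P (2 * (3 * q) * (h + 3 * q)) K Z ∧ x ∈ Z.image Prod.fst),
      (2 / (n : ℝ)) ^ Z.card ≤ 1 / 31 := by
  have hn1 : 1 ≤ n := by omega
  have hn0 : (0 : ℝ) < n := by exact_mod_cast hn1
  set G := univ.filter (fun Z : Finset (V × Fin n) =>
        Good D P (2 * (3 * q) * (h + 3 * q)) K Z ∧ x ∈ Z.image Prod.fst) with hG
  have hex : ∀ Z : Finset (V × Fin n), ∃ S : Finset (V × Fin n), Z ∈ G →
      (S ⊆ Z ∧ 1 ≤ S.card ∧ S.card ≤ K ∧ S ∈ fam D x (S.card - 1) ∧ q * S.card ≤ Z.card ∧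
      Z \ S ⊆ adm D P h S) := by
    intro Z
    by_cases hZ : Z ∈ G
    · have h1 := hZ
      rw [hG, Finset.mem_filter] at h1
      obtain ⟨S, hS⟩ := encode D (by omega : 1 ≤ q) (by omega : 1 ≤ h) h1.2.1 h1.2.2
      exact ⟨S, fun _ => hS⟩
    · exact ⟨∅, fun h => absurd h hZ⟩
  choose S hS using hex
  set T : Finset (Σ _ : ℕ, Σ _ : Finset (V × Fin n), Finset (V × Fin n)) :=
    (range K).sigma (fun j => (fam D x j).sigma (fun Z₀ => (adm D P h Z₀).powerset)) with hT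
  set F : (Σ _ : ℕ, Σ _ : Finset (V × Fin n), Finset (V × Fin n)) → ℝ := fun z =>
    ((1 / 2 : ℝ) ^ q * (4 / n)) ^ (z.1 + 1) * (4 / n) ^ z.2.2.card with hF
  have hFnn : ∀ z, 0 ≤ F z := fun z => by
    rw [hF]; positivity
  set f : Finset (V × Fin n) → (Σ _ : ℕ, Σ _ : Finset (V × Fin n), Finset (V × Fin n)) :=
    fun Z => ⟨(S Z).card - 1, S Z, Z \ S Z⟩ with hf
  have hfinj : Set.InjOn f G := by
    intro Z hZ Z' hZ' hfe
    rw [hf] at hfe
    simp only [Sigma.mk.injEq, heq_eq_eq] at hfe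
    have h1 := (hS Z hZ).1
    have h2 := (hS Z' hZ').1
    calc Z = S Z ∪ Z \ S Z := (Finset.union_sdiff_of_subset h1).symm
      _ = S Z' ∪ Z' \ S Z' := by rw [hfe.2.1, ← hfe.2.2, hfe.2.1]
      _ = Z' := Finset.union_sdiff_of_subset h2
  have hfT : ∀ Z ∈ G, f Z ∈ T := by
    intro Z hZ
    obtain ⟨h1, h2, h3, h4, h5, h6⟩ := hS Z hZ
    rw [hT, Finset.mem_sigma, Finset.mem_sigma, Finset.mem_powerset]
    refine ⟨?_, h4, h6⟩
    rw [Finset.mem_range]
    show (S Z).card - 1 < K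
    omega
  have hle : ∀ Z ∈ G, (2 / (n : ℝ)) ^ Z.card ≤ F (f Z) := by
    intro Z hZ
    obtain ⟨h1, h2, h3, h4, h5, h6⟩ := hS Z hZ
    have e1 : (S Z).card - 1 + 1 = (S Z).card := by omega
    have e2 : Z.card = (S Z).card + (Z \ S Z).card := by
      have := Finset.card_sdiff_add_card_eq_card h1
      omega
    show (2 / (n : ℝ)) ^ Z.card
      ≤ ((1 / 2 : ℝ) ^ q * (4 / n)) ^ ((S Z).card - 1 + 1) * (4 / n) ^ (Z \ S Z).card
    rw [e1]
    have e3 : (2 / (n : ℝ)) = (1 / 2) * (4 / n) := by ring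
    rw [e3, mul_pow, mul_pow, ← pow_mul]
    calc (1 / 2 : ℝ) ^ Z.card * (4 / (n : ℝ)) ^ Z.card
        ≤ (1 / 2 : ℝ) ^ (q * (S Z).card) * (4 / (n : ℝ)) ^ Z.card := by
          refine mul_le_mul_of_nonneg_right ?_ (by positivity)
          exact pow_le_pow_of_le_one (by norm_num) (by norm_num) h5
      _ = _ := by
          conv_lhs => rw [e2, pow_add]
          ring
  calc ∑ Z ∈ G, (2 / (n : ℝ)) ^ Z.card ≤ ∑ Z ∈ G, F (f Z) := Finset.sum_le_sum hle
    _ = ∑ z ∈ G.image f, F z := (Finset.sum_image hfinj).symm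
    _ ≤ ∑ z ∈ T, F z := by
        refine Finset.sum_le_sum_of_subset_of_nonneg ?_ (fun z _ _ => hFnn z)
        intro z hz
        rw [Finset.mem_image] at hz
        obtain ⟨Z, hZ, rfl⟩ := hz
        exact hfT Z hZ
    _ = ∑ j ∈ range K, ∑ Z₀ ∈ fam D x j, ∑ Z₁ ∈ (adm D P h Z₀).powerset,
          ((1 / 2 : ℝ) ^ q * (4 / n)) ^ (j + 1) * (4 / n) ^ Z₁.card := by
        rw [hT, Finset.sum_sigma]
        refine Finset.sum_congr rfl (fun j _ => ?_)
        rw [Finset.sum_sigma]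
    _ ≤ ∑ j ∈ range K, ∑ Z₀ ∈ fam (n := n) D x j,
          (((1 / 2 : ℝ) ^ q * (4 / n)) * (1 + 4 / n) ^ (γ * (b + 3))) ^ (j + 1) := by
        refine Finset.sum_le_sum (fun j _ => Finset.sum_le_sum (fun Z₀ hZ₀ => ?_))
        rw [← Finset.mul_sum, mul_pow _ ((1 + 4 / (n : ℝ)) ^ (γ * (b + 3)))]
        refine mul_le_mul_of_nonneg_left ?_ (by positivity)
        have h1 := Finset.sum_pow_mul_eq_add_pow (4 / (n : ℝ)) (1 : ℝ) (adm D P h Z₀)
        simp only [one_pow, mul_one] at h1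
        rw [h1, ← pow_mul, add_comm]
        refine pow_le_pow_right₀ ?_ ?_
        · have : (0 : ℝ) ≤ 4 / n := by positivity
          linarith
        · have h2 := fam_card_mem D x j Z₀ hZ₀
          have h3 := card_adm D P hb hv hP hγ Z₀
          rw [hh]
          calc _ ≤ Z₀.card * (γ * (b + 3)) := h3
            _ ≤ (j + 1) * (γ * (b + 3)) := Nat.mul_le_mul_right _ h2
            _ = _ := mul_comm _ _
    _ ≤ ∑ j ∈ range K, (1 / 32 : ℝ) ^ (j + 1) := by
        refine Finset.sum_le_sum (fun j hj => ?_)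
        rw [Finset.sum_const, nsmul_eq_mul]
        have h1 := fam_card (n := n) D hγ hγ1 x j (Finset.mem_range.mp hj)
        have h2 : ((fam (n := n) D x j).card : ℝ) ≤ ((K : ℝ) * γ ^ 3 * n) ^ (j + 1) := by
          exact_mod_cast h1
        refine (mul_le_mul_of_nonneg_right h2 (by positivity)).trans ?_
        rw [← mul_pow]
        refine pow_le_pow_left₀ (by positivity) ?_ _
        have h3 : (1 + 4 / (n : ℝ)) ^ (γ * (b + 3)) ≤ 2 ^ b := by
          have h4 : 1 + 4 / (n : ℝ) ≤ Real.exp (4 / n) := by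
            linarith [Real.add_one_le_exp (4 / (n : ℝ))]
          have h5 : (1 + 4 / (n : ℝ)) ^ (γ * (b + 3)) ≤ Real.exp (4 / n) ^ (γ * (b + 3)) :=
            pow_le_pow_left₀ (by positivity) h4 _
          rw [← Real.exp_nat_mul] at h5
          have h6 : ((γ * (b + 3) : ℕ) : ℝ) * (4 / n) ≤ (b : ℝ) * (1 / 4) := by
            have h7 : (64 : ℝ) * γ ≤ n := by exact_mod_cast hn
            have h8 : (1 : ℝ) ≤ b := by exact_mod_cast hb
            rw [mul_div_assoc', div_le_iff₀ hn0]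
            push_cast
            have h9 : (γ : ℝ) * (b + 3) * 4 ≤ γ * (4 * b) * 4 := by
              have : (0 : ℝ) ≤ γ := Nat.cast_nonneg _
              have h10 : (b : ℝ) + 3 ≤ 4 * b := by linarith
              have := mul_le_mul_of_nonneg_left h10 this
              linarith
            have h11 : (b : ℝ) * (64 * γ) ≤ b * n := mul_le_mul_of_nonneg_left h7 (by linarith)
            nlinarith
          have h12 : Real.exp ((b : ℝ) * (1 / 4)) ≤ 2 ^ b := by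
            rw [Real.exp_nat_mul]
            refine pow_le_pow_left₀ (Real.exp_pos _).le ?_ b
            have h13 : Real.exp (1 / 4) ≤ Real.exp (1 / 2) :=
              Real.exp_le_exp.mpr (by norm_num)
            have h14 : Real.exp (1 / 2) * Real.exp (1 / 2) = Real.exp 1 := by
              rw [← Real.exp_add]; norm_num
            nlinarith [Real.exp_pos (1 / 2 : ℝ), Real.exp_one_lt_d9]
          exact h5.trans ((Real.exp_le_exp.mpr h6).trans h12)
        have h15 : (K : ℝ) ≤ 2 ^ b := by exact_mod_cast hK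
        have h16 : (γ : ℝ) ^ 3 ≤ (2 : ℝ) ^ (6 * b) := by
          have h17 : γ ≤ 4 ^ b := by omega
          have h18 : (γ : ℝ) ≤ 4 ^ b := by exact_mod_cast h17
          calc (γ : ℝ) ^ 3 ≤ ((4 : ℝ) ^ b) ^ 3 := pow_le_pow_left₀ (by positivity) h18 3
            _ = _ := by
                rw [show (4 : ℝ) = 2 ^ 2 by norm_num, ← pow_mul, ← pow_mul]
                congr 1; ring
        have h19 : (1 / 2 : ℝ) ^ q ≤ (1 / 2) ^ (8 * b + 7) :=
          pow_le_pow_of_le_one (by norm_num) (by norm_num) hq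
        have e1 : (K : ℝ) * γ ^ 3 * n * ((1 / 2 : ℝ) ^ q * (4 / n) *
            (1 + 4 / (n : ℝ)) ^ (γ * (b + 3)))
            = 4 * (K * (γ ^ 3 * ((1 + 4 / (n : ℝ)) ^ (γ * (b + 3)) * (1 / 2 : ℝ) ^ q))) := by
          field_simp
        rw [e1]
        calc 4 * (K * ((γ : ℝ) ^ 3 * ((1 + 4 / (n : ℝ)) ^ (γ * (b + 3)) * (1 / 2 : ℝ) ^ q)))
            ≤ 4 * (2 ^ b * (2 ^ (6 * b) * (2 ^ b * (1 / 2) ^ (8 * b + 7)))) := by
              gcongr
          _ = 4 * ((2 : ℝ) ^ (8 * b) * (1 / 2) ^ (8 * b + 7)) := by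
              have : (2 : ℝ) ^ (8 * b) = 2 ^ b * (2 ^ (6 * b) * 2 ^ b) := by
                rw [← pow_add, ← pow_add]; congr 1; ring
              rw [this]; ring
          _ = 1 / 32 := by
              rw [pow_add, ← mul_assoc (2 ^ (8 * b)), ← mul_pow]
              norm_num
    _ ≤ 1 / 31 := geom K

end Enc

end Pool.Agent.TH474.RS
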