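import Mathlib

set_option autoImplicit false
set_option linter.all false

/-!
The weighted local lemma for the uniform measure on a finite product: if every coordinate `t`
satisfies `∑_{i : t ∈ S i} 2^{|S i|} P(B i) ≤ 1/2` then some point avoids all the `B i`.
-/

namespace Pool.Agent.TH474.RS

open Finset Classical

namespace LLL

variable {T C ι : Type} [Fintype T] [Fintype C]

/-- the event `P` is determined by the coordinates in `S` -/
def DependsOn (P : (T → C) → Prop) (S : Finset T) : Prop :=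
  ∀ ω ω' : T → C, (∀ t ∈ S, ω t = ω' t) → (P ω → P ω')

/-- the event as a finite set -/
noncomputable def ev (P : (T → C) → Prop) : Finset (T → C) := Finset.univ.filter P

lemma mem_ev {P : (T → C) → Prop} {ω : T → C} : ω ∈ ev P ↔ P ω := by
  rw [ev, Finset.mem_filter]
  exact ⟨fun h => h.2, fun h => ⟨Finset.mem_univ _, h⟩⟩

/-- number of outcomes in the event -/
noncomputable def cnt (P : (T → C) → Prop) : ℕ := (ev P).card

lemma cnt_mono {P Q : (T → C) → Prop} (h : ∀ ω, P ω → Q ω) : cnt P ≤ cnt Q := by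
  refine Finset.card_le_card ?_
  intro ω hω
  rw [mem_ev] at hω ⊢
  exact h ω hω

/-- swap the coordinates outside `S` -/
noncomputable def swap (S : Finset T) : (T → C) × (T → C) ≃ (T → C) × (T → C) where
  toFun w := (fun t => if t ∈ S then w.1 t else w.2 t, fun t => if t ∈ S then w.2 t else w.1 t)
  invFun w := (fun t => if t ∈ S then w.1 t else w.2 t, fun t => if t ∈ S then w.2 t else w.1 t)
  left_inv w := by
    refine Prod.ext ?_ ?_ <;> funext t <;> by_cases h : t ∈ S <;> simp [h]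
  right_inv w := by
    refine Prod.ext ?_ ?_ <;> funext t <;> by_cases h : t ∈ S <;> simp [h]

lemma indep (P Q : (T → C) → Prop) (S : Finset T) (hP : DependsOn P S)
    (hQ : ∀ ω ω' : T → C, (∀ t, t ∉ S → ω t = ω' t) → (Q ω → Q ω')) :
    cnt (fun ω => P ω ∧ Q ω) * Fintype.card (T → C) = cnt P * cnt Q := by
  have h1 : cnt (fun ω => P ω ∧ Q ω) * Fintype.card (T → C)
      = ((ev (fun ω : T → C => P ω ∧ Q ω)) ×ˢ
        (Finset.univ : Finset (T → C))).card := by
    rw [Finset.card_product, Finset.card_univ]; rfl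
  have h2 : cnt P * cnt Q = ((ev P) ×ˢ (ev Q)).card := by
    rw [Finset.card_product]; rfl
  rw [h1, h2]
  refine Finset.card_equiv (swap S) ?_
  intro w
  simp only [Finset.mem_product, mem_ev, Finset.mem_univ, and_true, swap,
    Equiv.coe_fn_mk]
  constructor
  · rintro ⟨hp, hq⟩
    exact ⟨hP w.1 _ (fun t ht => by simp [ht]) hp, hQ w.1 _ (fun t ht => by simp [ht]) hq⟩
  · rintro ⟨hp, hq⟩
    exact ⟨hP _ w.1 (fun t ht => by simp [ht]) hp, hQ _ w.1 (fun t ht => by simp [ht]) hq⟩

/-- all events indexed by `J` fail -/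
noncomputable def G (B : ι → (T → C) → Prop) (J : Finset ι) : ℕ :=
  cnt (fun ω => ∀ j ∈ J, ¬ B j ω)

lemma split (B : ι → (T → C) → Prop) (J : Finset ι) (i : ι) :
    G B J ≤ G B (insert i J) + cnt (fun ω => B i ω ∧ ∀ j ∈ J, ¬ B j ω) := by
  refine le_trans (Finset.card_le_card ?_) (Finset.card_union_le _ _)
  intro ω hω
  rw [mem_ev] at hω
  rw [Finset.mem_union, mem_ev, mem_ev]
  by_cases hb : B i ω
  · right; exact ⟨hb, hω⟩
  · left
    intro j hj
    rcases Finset.mem_insert.mp hj with rfl | h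
    · exact hb
    · exact hω j h

lemma four_rpow (x : ℝ) (h0 : 0 ≤ x) (h1 : x ≤ 1 / 2) : (4 : ℝ) ^ (-x) ≤ 1 - x := by
  -- convexity of `4^(-x)` between 0 and 1/2
  have hc := convexOn_exp
  have e1 : (4 : ℝ) ^ (-x) = Real.exp (-(Real.log 4 * x)) := by
    rw [Real.rpow_def_of_pos (by norm_num)]; ring_nf
  have h2 := hc.2 (Set.mem_univ (0 : ℝ)) (Set.mem_univ (-(Real.log 4 / 2)))
    (by linarith : (0 : ℝ) ≤ 1 - 2 * x) (by linarith : (0 : ℝ) ≤ 2 * x) (by ring)
  simp only [smul_eq_mul, mul_zero, zero_add, Real.exp_zero, mul_one] at h2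
  have e2 : 2 * x * -(Real.log 4 / 2) = -(Real.log 4 * x) := by ring
  have e3 : Real.exp (-(Real.log 4 / 2)) = 1 / 2 := by
    have : Real.log 4 = 2 * Real.log 2 := by
      rw [show (4 : ℝ) = 2 ^ 2 by norm_num, Real.log_pow]; norm_num
    rw [this, show -(2 * Real.log 2 / 2) = - Real.log 2 by ring, Real.exp_neg,
      Real.exp_log (by norm_num)]
    norm_num
  rw [e2, e3] at h2
  rw [e1]
  linarith

lemma key (I : Finset ι) (B : ι → (T → C) → Prop) (S : ι → Finset T)
    (hB : ∀ i ∈ I, DependsOn (B i) (S i)) (x : ι → ℝ)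
    (hx0 : ∀ i ∈ I, 0 ≤ x i) (hx1 : ∀ i ∈ I, x i ≤ 1 / 2)
    (hp : ∀ i ∈ I, (cnt (B i) : ℝ) * 2 ^ (S i).card ≤ x i * Fintype.card (T → C))
    (hs : ∀ t : T, ∑ i ∈ I.filter (fun i => t ∈ S i), x i ≤ 1 / 2)
    (hne : 0 < Fintype.card (T → C)) :
    ∀ (n : ℕ) (J : Finset ι), J.card = n → J ⊆ I → ∀ i ∈ I,
      (cnt (fun ω => B i ω ∧ ∀ j ∈ J, ¬ B j ω) : ℝ) ≤ x i * (G B J : ℝ) := by
  intro n
  induction n using Nat.strong_induction_on with
  | _ n ih =>
    intro J hJn hJI i hi
    set J1 := J.filter (fun j => ¬ Disjoint (S i) (S j)) with hJ1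
    set J2 := J.filter (fun j => Disjoint (S i) (S j)) with hJ2
    have hJ2J : J2 ⊆ J := Finset.filter_subset _ _
    have hJ1J : J1 ⊆ J := Finset.filter_subset _ _
    have hN : (0 : ℝ) < (Fintype.card (T → C) : ℝ) := by exact_mod_cast hne
    -- numerator bound
    have hnum : (cnt (fun ω => B i ω ∧ ∀ j ∈ J, ¬ B j ω) : ℝ) * 2 ^ (S i).card
        ≤ x i * (G B J2 : ℝ) := by
      have e1 : cnt (fun ω => B i ω ∧ ∀ j ∈ J, ¬ B j ω)
          ≤ cnt (fun ω => B i ω ∧ ∀ j ∈ J2, ¬ B j ω) :=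
        cnt_mono (fun ω h => ⟨h.1, fun j hj => h.2 j (hJ2J hj)⟩)
      have e2 : cnt (fun ω => B i ω ∧ ∀ j ∈ J2, ¬ B j ω) * Fintype.card (T → C)
          = cnt (B i) * G B J2 := by
        refine indep (B i) (fun ω => ∀ j ∈ J2, ¬ B j ω) (S i) (hB i hi) ?_
        intro ω ω' hω hall j hj hbad
        refine hall j hj (hB j (hJI (hJ2J hj)) ω' ω ?_ hbad)
        intro t ht
        have hdis : Disjoint (S i) (S j) := (Finset.mem_filter.mp hj).2
        exact (hω t (fun hti => (Finset.disjoint_left.mp hdis hti ht))).symm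
      have e3 : (cnt (fun ω => B i ω ∧ ∀ j ∈ J2, ¬ B j ω) : ℝ) * (Fintype.card (T → C) : ℝ)
          = (cnt (B i) : ℝ) * (G B J2 : ℝ) := by exact_mod_cast e2
      have hG2 : (0 : ℝ) ≤ (G B J2 : ℝ) := Nat.cast_nonneg _
      have e4 := mul_le_mul_of_nonneg_right (hp i hi) hG2
      have e5 : (cnt (fun ω => B i ω ∧ ∀ j ∈ J2, ¬ B j ω) : ℝ) * 2 ^ (S i).card
          ≤ x i * (G B J2 : ℝ) := by
        refine le_of_mul_le_mul_right ?_ hN
        calc _ = (2 : ℝ) ^ (S i).card * ((cnt (fun ω => B i ω ∧ ∀ j ∈ J2, ¬ B j ω) : ℝ)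
              * (Fintype.card (T → C) : ℝ)) := by ring
          _ = (cnt (B i) : ℝ) * 2 ^ (S i).card * (G B J2 : ℝ) := by rw [e3]; ring
          _ ≤ _ := e4
          _ = _ := by ring
      refine le_trans ?_ e5
      exact mul_le_mul_of_nonneg_right (by exact_mod_cast e1) (by positivity)
    -- denominator
    have hden : ∀ K : Finset ι, K ⊆ J1 → K ∪ J2 ⊆ J →
        (4 : ℝ) ^ (-∑ j ∈ K, x j) * (G B J2 : ℝ) ≤ (G B (K ∪ J2) : ℝ) := by
      intro K
      induction K using Finset.induction_on with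
      | empty => intro _ _; simp
      | insert a K haK ihK =>
        intro hsub hsubJ
        have hsub' : K ⊆ J1 := (Finset.subset_insert a K).trans hsub
        have haJ1 : a ∈ J1 := hsub (Finset.mem_insert_self a K)
        have hsubJ' : K ∪ J2 ⊆ J := by
          refine (Finset.union_subset_union_left (Finset.subset_insert a K)).trans hsubJ
        have h1 := ihK hsub' hsubJ'
        have haI : a ∈ I := hJI (hJ1J haJ1)
        have hanot : a ∉ K ∪ J2 := by
          rw [Finset.mem_union]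
          rintro (h | h)
          · exact haK h
          · exact (Finset.mem_filter.mp haJ1).2 (Finset.mem_filter.mp h).2
        have hcard : (K ∪ J2).card < n := by
          rw [← hJn]
          refine Finset.card_lt_card ⟨hsubJ', fun hh => hanot (hh (hJ1J haJ1))⟩
        have h2 := ih _ hcard (K ∪ J2) rfl (hsubJ'.trans hJI) a haI
        have h3 := split B (K ∪ J2) a
        have h3' : (G B (K ∪ J2) : ℝ) ≤ (G B (insert a (K ∪ J2)) : ℝ) +
          (cnt (fun ω => B a ω ∧ ∀ j ∈ (K ∪ J2), ¬ B j ω) : ℝ) := by exact_mod_cast h3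
        have h4 := four_rpow (x a) (hx0 a haI) (hx1 a haI)
        rw [Finset.sum_insert haK, neg_add, Real.rpow_add (by norm_num), Finset.insert_union]
        have hG : (0 : ℝ) ≤ (G B (K ∪ J2) : ℝ) := Nat.cast_nonneg _
        calc (4 : ℝ) ^ (-x a) * 4 ^ (-∑ j ∈ K, x j) * (G B J2 : ℝ)
            = (4 : ℝ) ^ (-x a) * (4 ^ (-∑ j ∈ K, x j) * (G B J2 : ℝ)) := by ring
          _ ≤ (4 : ℝ) ^ (-x a) * (G B (K ∪ J2) : ℝ) :=
              mul_le_mul_of_nonneg_left h1 (by positivity)
          _ ≤ (1 - x a) * (G B (K ∪ J2) : ℝ) := mul_le_mul_of_nonneg_right h4 hG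
          _ ≤ _ := by linarith
    have hJJ : J1 ∪ J2 = J := by
      rw [hJ1, hJ2, Finset.union_comm, Finset.filter_union_filter_not_eq]
    have h5 := hden J1 (Finset.Subset.refl _) (by rw [hJJ])
    rw [hJJ] at h5
    have h6 : ∑ j ∈ J1, x j ≤ (S i).card * (1 / 2 : ℝ) := by
      have hx1' : ∀ j ∈ J1, x j ≤ ∑ t ∈ S i, if t ∈ S j then x j else 0 := by
        intro j hj
        have h := (Finset.mem_filter.mp hj)
        rw [Finset.not_disjoint_iff] at h
        obtain ⟨hjJ, t, ht1, ht2⟩ := h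
        have hxj := hx0 j (hJI hjJ)
        calc x j = if t ∈ S j then x j else 0 := by rw [if_pos ht2]
          _ ≤ _ := Finset.single_le_sum (f := fun t => if t ∈ S j then x j else 0)
            (fun t _ => by split_ifs <;> linarith) ht1
      calc ∑ j ∈ J1, x j ≤ ∑ j ∈ J1, ∑ t ∈ S i, (if t ∈ S j then x j else 0) :=
            Finset.sum_le_sum hx1'
        _ = ∑ t ∈ S i, ∑ j ∈ J1, (if t ∈ S j then x j else 0) := Finset.sum_comm
        _ ≤ ∑ t ∈ S i, ∑ j ∈ I.filter (fun i => t ∈ S i), x j := by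
            refine Finset.sum_le_sum (fun t _ => ?_)
            rw [← Finset.sum_filter]
            refine Finset.sum_le_sum_of_subset_of_nonneg ?_ ?_
            · exact Finset.filter_subset_filter _ (hJ1J.trans hJI)
            · intro j hj _
              exact hx0 j (Finset.mem_filter.mp hj).1
        _ ≤ ∑ t ∈ S i, (1 / 2 : ℝ) := Finset.sum_le_sum (fun t _ => hs t)
        _ = _ := by rw [Finset.sum_const, nsmul_eq_mul]
    have h7 : (G B J2 : ℝ) ≤ 2 ^ (S i).card * (G B J : ℝ) := by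
      have h8 : (2 : ℝ) ^ (-((S i).card : ℝ)) ≤ (4 : ℝ) ^ (-∑ j ∈ J1, x j) := by
        have e : (2 : ℝ) ^ (-((S i).card : ℝ)) = (4 : ℝ) ^ (-((S i).card * (1 / 2 : ℝ))) := by
          rw [show (4 : ℝ) = 2 ^ (2 : ℝ) by norm_num, ← Real.rpow_mul (by norm_num)]
          congr 1; ring
        rw [e]
        exact Real.rpow_le_rpow_of_exponent_le (by norm_num) (by linarith)
      have h9 := le_trans (mul_le_mul_of_nonneg_right h8 (Nat.cast_nonneg (G B J2))) h5
      rw [Real.rpow_neg (by norm_num), Real.rpow_natCast] at h9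
      have h10 : (0 : ℝ) < 2 ^ (S i).card := by positivity
      rw [inv_mul_le_iff₀ h10] at h9
      exact h9
    have h10 : (0 : ℝ) < 2 ^ (S i).card := by positivity
    refine le_of_mul_le_mul_right ?_ h10
    calc _ ≤ x i * (G B J2 : ℝ) := hnum
      _ ≤ x i * (2 ^ (S i).card * (G B J : ℝ)) := mul_le_mul_of_nonneg_left h7 (hx0 i hi)
      _ = _ := by ring

/-- Weighted local lemma. -/
theorem lll (I : Finset ι) (B : ι → (T → C) → Prop) (S : ι → Finset T)
    (hB : ∀ i ∈ I, DependsOn (B i) (S i)) (x : ι → ℝ)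
    (hx0 : ∀ i ∈ I, 0 ≤ x i) (hx1 : ∀ i ∈ I, x i ≤ 1 / 2)
    (hp : ∀ i ∈ I, (cnt (B i) : ℝ) * 2 ^ (S i).card ≤ x i * Fintype.card (T → C))
    (hs : ∀ t : T, ∑ i ∈ I.filter (fun i => t ∈ S i), x i ≤ 1 / 2)
    (hne : 0 < Fintype.card (T → C)) : ∃ ω : T → C, ∀ i ∈ I, ¬ B i ω := by
  have hpos : ∀ J : Finset ι, J ⊆ I → 0 < G B J := by
    intro J
    induction J using Finset.induction_on with
    | empty =>
      intro _
      have : G B (∅ : Finset ι) = Fintype.card (T → C) := by
        have h0 : ev (fun ω : T → C => ∀ j ∈ (∅ : Finset ι), ¬ B j ω) = Finset.univ := by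
          ext ω
          rw [mem_ev]
          simp
        rw [G, cnt, h0, Finset.card_univ]
      rw [this]; exact hne
    | insert i J hiJ ih =>
      intro hsub
      have hJ := ih ((Finset.subset_insert i J).trans hsub)
      have hi : i ∈ I := hsub (Finset.mem_insert_self i J)
      have hk := key I B S hB x hx0 hx1 hp hs hne J.card J rfl
        ((Finset.subset_insert i J).trans hsub) i hi
      have hsplit' : (G B J : ℝ) ≤ (G B (insert i J) : ℝ) +
          (cnt (fun ω => B i ω ∧ ∀ j ∈ J, ¬ B j ω) : ℝ) := by exact_mod_cast split B J i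
      have hJ' : (0 : ℝ) < (G B J : ℝ) := by exact_mod_cast hJ
      have := hx1 i hi
      have : (0 : ℝ) < (G B (insert i J) : ℝ) := by nlinarith
      exact_mod_cast this
  have hI := hpos I (Finset.Subset.refl _)
  obtain ⟨ω, hω⟩ := Finset.card_pos.mp hI
  exact ⟨ω, mem_ev.mp hω⟩

end LLL

end Pool.Agent.TH474.RS
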