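import Pool.Agent.TH474.RS.Props
import Pool.Agent.TH474.RS.LLL

set_option autoImplicit false
set_option linter.all false

/-!
Counting functions `τ : V → Fin n` with restricted values.
-/

namespace Pool.Agent.TH474.RS

open Finset Classical

namespace Cnt

lemma cnt_le_sum {T C β : Type} [Fintype T] [Fintype C] {P : (T → C) → Prop} (J : Finset β)
    (Q : β → (T → C) → Prop) (h : ∀ ω, P ω → ∃ i ∈ J, Q i ω) :
    LLL.cnt P ≤ ∑ i ∈ J, LLL.cnt (Q i) := by
  have h1 : LLL.ev P ⊆ J.biUnion (fun i => LLL.ev (Q i)) := by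
    intro ω hω
    rw [LLL.mem_ev] at hω
    obtain ⟨i, hi, hq⟩ := h ω hω
    rw [Finset.mem_biUnion]
    exact ⟨i, hi, LLL.mem_ev.mpr hq⟩
  exact (Finset.card_le_card h1).trans Finset.card_biUnion_le

variable {V : Type} [Fintype V] {n : ℕ}

lemma card_restrict (X : Finset V) (F : V → Finset (Fin n)) (c : ℕ)
    (hF : ∀ v ∈ X, (F v).card ≤ c) :
    LLL.cnt (fun τ : V → Fin n => ∀ v ∈ X, τ v ∈ F v) * n ^ X.card
      ≤ c ^ X.card * n ^ Fintype.card V := by
  have h1 : LLL.ev (fun τ : V → Fin n => ∀ v ∈ X, τ v ∈ F v)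
      = Fintype.piFinset (fun v => if v ∈ X then F v else univ) := by
    ext τ
    rw [LLL.mem_ev, Fintype.mem_piFinset]
    constructor
    · intro h v
      by_cases hv : v ∈ X
      · simp [hv, h v hv]
      · simp [hv]
    · intro h v hv
      have := h v
      simpa [hv] using this
  rw [LLL.cnt, h1, Fintype.card_piFinset]
  have h2 : ∏ v, (if v ∈ X then F v else univ).card = (∏ v ∈ X, (F v).card) * n ^ Xᶜ.card := by
    rw [← Finset.prod_mul_prod_compl X]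
    congr 1
    · exact Finset.prod_congr rfl (fun v hv => by rw [if_pos hv])
    · rw [← Finset.prod_const]
      exact Finset.prod_congr rfl (fun v hv => by
        rw [if_neg (Finset.mem_compl.mp hv)]; simp)
  rw [h2]
  have h3 : n ^ Xᶜ.card * n ^ X.card = n ^ Fintype.card V := by
    rw [← pow_add, Finset.card_compl_add_card]
  calc (∏ v ∈ X, (F v).card) * n ^ Xᶜ.card * n ^ X.card
      = (∏ v ∈ X, (F v).card) * n ^ Fintype.card V := by rw [mul_assoc, h3]
    _ ≤ _ := Nat.mul_le_mul_right _ (Finset.prod_le_pow_card X _ c hF)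

/-- functions agreeing with a functional relation `Z` -/
lemma cnt_agree (Z : Finset (V × Fin n)) (hZ : ∀ p ∈ Z, ∀ p' ∈ Z, p.1 = p'.1 → p = p') :
    LLL.cnt (fun τ : V → Fin n => ∀ p ∈ Z, τ p.1 = p.2) * n ^ Z.card ≤ n ^ Fintype.card V := by
  have h1 : (Z.image Prod.fst).card = Z.card :=
    Finset.card_image_of_injOn (fun p hp p' hp' h => hZ p hp p' hp' h)
  have h2 := card_restrict (Z.image Prod.fst)
    (fun v => univ.filter (fun t : Fin n => (v, t) ∈ Z)) 1 (by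
      intro v hv
      rw [Finset.card_le_one]
      intro a ha b hb
      rw [Finset.mem_filter] at ha hb
      have := hZ _ ha.2 _ hb.2 rfl
      exact (Prod.mk.inj this).2)
  rw [h1, one_pow, one_mul] at h2
  refine le_trans (Nat.mul_le_mul_right _ (LLL.cnt_mono ?_)) h2
  intro τ hτ v hv
  rw [Finset.mem_image] at hv
  obtain ⟨p, hp, rfl⟩ := hv
  rw [Finset.mem_filter]
  refine ⟨Finset.mem_univ _, ?_⟩
  rw [hτ p hp]
  exact hp

lemma cnt_eq (a b : V) (hab : a ≠ b) (hn : 1 ≤ n) :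
    LLL.cnt (fun τ : V → Fin n => τ a = τ b) * n ≤ n ^ Fintype.card V := by
  have h1 : LLL.cnt (fun τ : V → Fin n => τ a = τ b)
      ≤ ∑ t ∈ (univ : Finset (Fin n)), LLL.cnt (fun τ : V → Fin n =>
        ∀ v ∈ ({a, b} : Finset V), τ v ∈ ({t} : Finset (Fin n))) := by
    refine cnt_le_sum _ _ ?_
    intro τ hτ
    refine ⟨τ b, Finset.mem_univ _, ?_⟩
    intro v hv
    rw [Finset.mem_insert, Finset.mem_singleton] at hv
    rw [Finset.mem_singleton]
    rcases hv with rfl | rfl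
    · exact hτ
    · rfl
  have h2 : (∑ t ∈ (univ : Finset (Fin n)), LLL.cnt (fun τ : V → Fin n =>
        ∀ v ∈ ({a, b} : Finset V), τ v ∈ ({t} : Finset (Fin n)))) * n ^ 2
        ≤ n * n ^ Fintype.card V := by
    rw [Finset.sum_mul]
    calc _ ≤ ∑ t ∈ (univ : Finset (Fin n)), n ^ Fintype.card V := by
          refine Finset.sum_le_sum (fun t _ => ?_)
          have h3 := card_restrict ({a, b} : Finset V) (fun _ => ({t} : Finset (Fin n))) 1
            (by intro v _; simp)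
          rw [Finset.card_pair hab, one_pow, one_mul] at h3
          exact h3
      _ = _ := by rw [Finset.sum_const, Finset.card_univ, Fintype.card_fin, smul_eq_mul]
  have h3 := (Nat.mul_le_mul_right (n ^ 2) h1).trans h2
  have h4 : n * (LLL.cnt (fun τ : V → Fin n => τ a = τ b) * n) ≤ n * n ^ Fintype.card V := by
    calc _ = LLL.cnt (fun τ : V → Fin n => τ a = τ b) * n ^ 2 := by ring
      _ ≤ _ := h3
  exact Nat.le_of_mul_le_mul_left h4 hn

lemma exists_cover (U : Finset (Fin n)) (s : ℕ) (hn : 1 ≤ n) (hU : U.card ≤ s) :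
    ∃ f : Fin s → Fin n, U ⊆ univ.image f := by
  refine ⟨fun i => if h : (i : ℕ) < U.card then (U.equivFin.symm ⟨i, h⟩ : Fin n) else ⟨0, hn⟩, ?_⟩
  intro u hu
  rw [Finset.mem_image]
  refine ⟨⟨(U.equivFin ⟨u, hu⟩ : ℕ), lt_of_lt_of_le (U.equivFin ⟨u, hu⟩).2 hU⟩,
    Finset.mem_univ _, ?_⟩
  simp

lemma cnt_image (X : Finset V) (s : ℕ) (hn : 1 ≤ n) :
    LLL.cnt (fun τ : V → Fin n => (X.image τ).card ≤ s) * n ^ X.card
      ≤ n ^ s * (s ^ X.card * n ^ Fintype.card V) := by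
  have h1 : LLL.cnt (fun τ : V → Fin n => (X.image τ).card ≤ s)
      ≤ ∑ f ∈ (univ : Finset (Fin s → Fin n)), LLL.cnt (fun τ : V → Fin n =>
        ∀ v ∈ X, τ v ∈ univ.image f) := by
    refine cnt_le_sum _ _ ?_
    intro τ hτ
    obtain ⟨f, hf⟩ := exists_cover (X.image τ) s hn hτ
    exact ⟨f, Finset.mem_univ _, fun v hv => hf (Finset.mem_image_of_mem τ hv)⟩
  have h2 : (∑ f ∈ (univ : Finset (Fin s → Fin n)), LLL.cnt (fun τ : V → Fin n =>
        ∀ v ∈ X, τ v ∈ univ.image f)) * n ^ X.card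
        ≤ n ^ s * (s ^ X.card * n ^ Fintype.card V) := by
    rw [Finset.sum_mul]
    calc _ ≤ ∑ f ∈ (univ : Finset (Fin s → Fin n)), (s ^ X.card * n ^ Fintype.card V) := by
          refine Finset.sum_le_sum (fun f _ => ?_)
          exact card_restrict X (fun _ => univ.image f) s (by
            intro v _
            refine Finset.card_image_le.trans ?_
            simp)
      _ = _ := by
          rw [Finset.sum_const, Finset.card_univ, Fintype.card_fun, Fintype.card_fin,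
            Fintype.card_fin, smul_eq_mul]
  exact (Nat.mul_le_mul_right _ h1).trans h2

lemma choose_bound (a r : ℕ) : ((a.choose r : ℕ) : ℝ) * (r : ℝ) ^ r ≤ (3 * (a : ℝ)) ^ r := by
  have h1 : ((a.choose r : ℕ) : ℝ) ≤ (a : ℝ) ^ r / r.factorial := Nat.choose_le_pow_div r a
  have h2 : (r : ℝ) ^ r / r.factorial ≤ Real.exp r :=
    Real.pow_div_factorial_le_exp (r : ℝ) (Nat.cast_nonneg r) r
  have h3 : Real.exp r ≤ 3 ^ r := by
    have h4 : Real.exp (r : ℝ) = Real.exp 1 ^ r := by rw [← Real.exp_nat_mul]; ring_nf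
    rw [h4]
    exact pow_le_pow_left₀ (Real.exp_pos 1).le
      (by have := Real.exp_one_lt_d9; linarith) r
  have h5 : (0 : ℝ) ≤ (r : ℝ) ^ r := by positivity
  calc ((a.choose r : ℕ) : ℝ) * (r : ℝ) ^ r ≤ (a : ℝ) ^ r / r.factorial * (r : ℝ) ^ r :=
        mul_le_mul_of_nonneg_right h1 h5
    _ = (a : ℝ) ^ r * ((r : ℝ) ^ r / r.factorial) := by ring
    _ ≤ (a : ℝ) ^ r * 3 ^ r := mul_le_mul_of_nonneg_left (h2.trans h3) (by positivity)
    _ = _ := by rw [mul_pow]; ring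

/-- numerical bound for the second family of events -/
lemma e2_num (γ k s n b : ℕ) (hγ : 64 * γ ≤ n) (hn : 1 ≤ n) (hnb : n ≤ 4 ^ b) (hk : 1 ≤ k)
    (hsk : 4 * s ≤ 5 * k) (hbk : b * (s + 2) + 3 ≤ k) :
    (γ : ℝ) ^ 2 * ((2 * γ).choose k : ℕ) * (2 ^ k * ((n : ℝ) ^ s * (s : ℝ) ^ k / (n : ℝ) ^ k))
      ≤ 1 / 64 := by
  have hn0 : (0 : ℝ) < n := by exact_mod_cast hn
  have hk0 : (0 : ℝ) < k := by exact_mod_cast hk
  have h1 := choose_bound (2 * γ) k
  have h2 : (((2 * γ).choose k : ℕ) : ℝ) * (2 ^ k * ((s : ℝ) ^ k / (n : ℝ) ^ k))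
      ≤ (1 / 4) ^ k := by
    have h3 : (((2 * γ).choose k : ℕ) : ℝ) ≤ (3 * ((2 * γ : ℕ) : ℝ)) ^ k / (k : ℝ) ^ k := by
      rw [le_div_iff₀ (by positivity)]
      exact h1
    calc (((2 * γ).choose k : ℕ) : ℝ) * (2 ^ k * ((s : ℝ) ^ k / (n : ℝ) ^ k))
        ≤ (3 * ((2 * γ : ℕ) : ℝ)) ^ k / (k : ℝ) ^ k * (2 ^ k * ((s : ℝ) ^ k / (n : ℝ) ^ k)) :=
          mul_le_mul_of_nonneg_right h3 (by positivity)
      _ = (3 * ((2 * γ : ℕ) : ℝ) / k * (2 * (s / n))) ^ k := by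
          simp only [mul_pow, div_pow]
      _ ≤ (1 / 4) ^ k := by
          refine pow_le_pow_left₀ (by positivity) ?_ k
          have hγ' : (64 : ℝ) * γ ≤ n := by exact_mod_cast hγ
          have hs' : (4 : ℝ) * s ≤ 5 * k := by exact_mod_cast hsk
          push_cast
          have e : 3 * (2 * (γ : ℝ)) / k * (2 * (s / n)) = (12 * (γ * s)) / (k * n) := by
            field_simp; ring
          rw [e, div_le_iff₀ (by positivity)]
          have h4 : (64 * (γ : ℝ)) * (4 * s) ≤ n * (5 * k) :=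
            mul_le_mul hγ' hs' (by positivity) hn0.le
          nlinarith
  have h5 : (γ : ℝ) ^ 2 * (n : ℝ) ^ s ≤ (4 : ℝ) ^ (b * (s + 2)) := by
    have h6 : (γ : ℝ) ≤ n := by
      have : γ ≤ n := by omega
      exact_mod_cast this
    have h7 : (n : ℝ) ≤ 4 ^ b := by exact_mod_cast hnb
    calc (γ : ℝ) ^ 2 * (n : ℝ) ^ s ≤ (n : ℝ) ^ 2 * (n : ℝ) ^ s :=
          mul_le_mul_of_nonneg_right (pow_le_pow_left₀ (by positivity) h6 2) (by positivity)
      _ = (n : ℝ) ^ (s + 2) := by rw [← pow_add]; congr 1; ring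
      _ ≤ ((4 : ℝ) ^ b) ^ (s + 2) := pow_le_pow_left₀ hn0.le h7 _
      _ = _ := by rw [← pow_mul]
  have h8 : (γ : ℝ) ^ 2 * ((2 * γ).choose k : ℕ) * (2 ^ k * ((n : ℝ) ^ s * (s : ℝ) ^ k / (n : ℝ) ^ k))
      = ((γ : ℝ) ^ 2 * (n : ℝ) ^ s) *
        ((((2 * γ).choose k : ℕ) : ℝ) * (2 ^ k * ((s : ℝ) ^ k / (n : ℝ) ^ k))) := by ring
  rw [h8]
  calc ((γ : ℝ) ^ 2 * (n : ℝ) ^ s) *
        ((((2 * γ).choose k : ℕ) : ℝ) * (2 ^ k * ((s : ℝ) ^ k / (n : ℝ) ^ k)))
      ≤ (4 : ℝ) ^ (b * (s + 2)) * (1 / 4) ^ k :=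
        mul_le_mul h5 h2 (by positivity) (by positivity)
    _ ≤ (4 : ℝ) ^ (b * (s + 2)) * (1 / 4) ^ (b * (s + 2) + 3) := by
        refine mul_le_mul_of_nonneg_left ?_ (by positivity)
        exact pow_le_pow_of_le_one (by norm_num) (by norm_num) hbk
    _ = ((4 : ℝ) * (1 / 4)) ^ (b * (s + 2)) * (1 / 4) ^ 3 := by
        rw [pow_add, ← mul_assoc, ← mul_pow]
    _ = 1 / 64 := by norm_num

end Cnt

end Pool.Agent.TH474.RS
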