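import Pool.Agent.TH474.RS.Params

set_option autoImplicit false
set_option linter.all false

/-!
Numerical part of the final statement, and copies of `K_k + K_{1,g}`.
-/

namespace Pool.Agent.TH474.RS

open Finset Classical

namespace Fin

lemma pow17 (b : ℕ) (hb : 160 ≤ b) : (b + 1) ^ 17 ≤ 2 * b ^ 17 := by
  have h1 : 160 * (b + 1) ≤ 161 * b := by omega
  have h2 : (160 * (b + 1)) ^ 17 ≤ (161 * b) ^ 17 := Nat.pow_le_pow_left h1 17
  rw [mul_pow, mul_pow] at h2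
  have h3 : (161 : ℕ) ^ 17 ≤ 2 * 160 ^ 17 := by norm_num
  have h4 : 160 ^ 17 * (b + 1) ^ 17 ≤ 160 ^ 17 * (2 * b ^ 17) := by
    calc 160 ^ 17 * (b + 1) ^ 17 ≤ 161 ^ 17 * b ^ 17 := h2
      _ ≤ (2 * 160 ^ 17) * b ^ 17 := Nat.mul_le_mul_right _ h3
      _ = _ := by ring
  exact Nat.le_of_mul_le_mul_left h4 (by norm_num)

lemma exp_beats (b : ℕ) (hb : 160 ≤ b) : 2 ^ 27 * b ^ 17 ≤ 2 ^ b := by
  induction b, hb using Nat.le_induction with
  | base => norm_num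
  | succ b hb ih =>
    calc 2 ^ 27 * (b + 1) ^ 17 ≤ 2 ^ 27 * (2 * b ^ 17) := Nat.mul_le_mul_left _ (pow17 b hb)
      _ = 2 * (2 ^ 27 * b ^ 17) := by ring
      _ ≤ 2 * 2 ^ b := Nat.mul_le_mul_left _ ih
      _ = 2 ^ (b + 1) := by ring

/-- the parameters for a given `k` -/
lemma params (k g : ℕ) (hk : 2 ^ 160 ≤ k) (hg : 10 ^ 13 * g * Nat.clog 2 k ^ 20 ≤ k ^ 2) :
    ∃ b N : ℕ, 7 ≤ b ∧ 576 * b ^ 7 ≤ N ∧ 100000 * (N * b ^ 10) ≤ k ∧ k ≤ 2 ^ b ∧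
      64 * (g + 1) ≤ N ^ 2 ∧ 2 * k + 2 * g + 1 ≤ (k - 1) * (k - 1) := by
  obtain ⟨b, hbdef⟩ : ∃ b, b = Nat.clog 2 k := ⟨_, rfl⟩
  rw [← hbdef] at hg
  have hkb : k ≤ 2 ^ b := by rw [hbdef]; exact Nat.le_pow_clog (by norm_num) k
  have hb : 160 ≤ b := (Nat.pow_le_pow_iff_right (by norm_num : 1 < 2)).mp (hk.trans hkb)
  have h100 : 100 ≤ k := le_trans (by norm_num) hk
  have hk2 : 2 ^ (b - 1) < k := by
    have := Nat.pow_pred_clog_lt_self (by norm_num : 1 < 2) (show 1 < k by omega)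
    rw [hbdef]
    exact this
  have h1 := exp_beats b hb
  have h2 : 2 ^ b = 2 * 2 ^ (b - 1) := by
    rw [← pow_succ']; congr 1; omega
  have h3 : 2 ^ 26 * b ^ 17 ≤ k := by
    have e : 2 ^ 27 * b ^ 17 = 2 * (2 ^ 26 * b ^ 17) := by ring
    omega
  obtain ⟨N, hN⟩ : ∃ N, N = k / (100000 * b ^ 10) := ⟨_, rfl⟩
  have hpos : 0 < 100000 * b ^ 10 := by positivity
  have h4 : 576 * b ^ 7 ≤ N := by
    rw [hN, Nat.le_div_iff_mul_le hpos]
    calc 576 * b ^ 7 * (100000 * b ^ 10) = 57600000 * b ^ 17 := by ring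
      _ ≤ 2 ^ 26 * b ^ 17 := Nat.mul_le_mul_right _ (by norm_num)
      _ ≤ k := h3
  have h5 : 100000 * (N * b ^ 10) ≤ k := by
    have := Nat.div_mul_le_self k (100000 * b ^ 10)
    rw [← hN] at this
    calc 100000 * (N * b ^ 10) = N * (100000 * b ^ 10) := by ring
      _ ≤ k := this
  have hb7 : 1 ≤ b ^ 7 := Nat.pos_of_ne_zero (by positivity)
  have hN1 : 576 ≤ N := by omega
  have h6 : k ≤ 200000 * (b ^ 10 * N) := by
    have h7 : k < (N + 1) * (100000 * b ^ 10) := by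
      rw [hN]
      have := Nat.lt_div_mul_add (a := k) hpos
      calc k < k / (100000 * b ^ 10) * (100000 * b ^ 10) + 100000 * b ^ 10 := this
        _ = _ := by ring
    have h8 : (N + 1) * (100000 * b ^ 10) ≤ (2 * N) * (100000 * b ^ 10) :=
      Nat.mul_le_mul_right _ (by omega)
    calc k ≤ (2 * N) * (100000 * b ^ 10) := (h7.trans_le h8).le
      _ = _ := by ring
  have h7 : 250 * g ≤ N ^ 2 := by
    have h8 : b ^ 20 * (10 ^ 13 * g) ≤ b ^ 20 * (40000000000 * N ^ 2) := by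
      calc b ^ 20 * (10 ^ 13 * g) = 10 ^ 13 * g * b ^ 20 := by ring
        _ ≤ k ^ 2 := hg
        _ ≤ (200000 * (b ^ 10 * N)) ^ 2 := Nat.pow_le_pow_left h6 2
        _ = _ := by ring
    have h9 := Nat.le_of_mul_le_mul_left h8 (by positivity)
    norm_num at h9
    omega
  have hNN : 576 * 576 ≤ N ^ 2 := by
    rw [sq]; exact Nat.mul_le_mul hN1 hN1
  have h8 : 64 * (g + 1) ≤ N ^ 2 := by omega
  refine ⟨b, N, by omega, h4, h5, hkb, h8, ?_⟩
  have hb10 : 1 ≤ b ^ 10 := Nat.pos_of_ne_zero (by positivity)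
  have hNk : 2 * N ≤ k := by
    have : N ≤ N * b ^ 10 := Nat.le_mul_of_pos_right N (by omega)
    omega
  have h9 : 4 * N ^ 2 ≤ k ^ 2 := by
    calc 4 * N ^ 2 = (2 * N) ^ 2 := by ring
      _ ≤ k ^ 2 := Nat.pow_le_pow_left hNk 2
  obtain ⟨m, rfl⟩ : ∃ m, k = m + 1 := ⟨k - 1, by omega⟩
  rw [Nat.add_sub_cancel]
  nlinarith

end Fin

end Pool.Agent.TH474.RS
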