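import Mathlib

set_option autoImplicit false
set_option linter.all false

/-!
The number of zeros of a uniformly random function `ω : ι → Fin M` on a set `F`.
-/

namespace Pool.Agent.TH474.RS

open Finset

namespace Mom

variable {ι : Type} [Fintype ι] [DecidableEq ι] {M : ℕ} [NeZero M]

/-- number of zeros of `ω` on `F` -/
def Nz (F : Finset ι) (ω : ι → Fin M) : ℕ := (F.filter (fun i => ω i = 0)).card

lemma pow_Nz (F : Finset ι) (ω : ι → Fin M) (l : ℝ) :
    l ^ Nz F ω = ∏ i, (if i ∈ F then (if ω i = 0 then l else 1) else 1) := by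
  rw [Finset.prod_ite_mem, Finset.univ_inter, Finset.prod_ite, Finset.prod_const,
    Finset.prod_const_one, mul_one]
  rfl

lemma sum_one (l : ℝ) : ∑ a : Fin M, (if a = 0 then l else 1) = (M : ℝ) - 1 + l := by
  rw [Finset.sum_ite, Finset.sum_const, Finset.sum_const]
  have h1 : (univ.filter (fun a : Fin M => a = 0)).card = 1 := by
    rw [Finset.filter_eq' univ (0 : Fin M)]; simp
  have h2 : (univ.filter (fun a : Fin M => ¬ a = 0)).card = M - 1 := by
    have := Finset.card_filter_add_card_filter_not (s := (univ : Finset (Fin M)))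
      (fun a : Fin M => a = 0)
    rw [h1, Finset.card_univ, Fintype.card_fin] at this
    omega
  rw [h1, h2]
  have : 1 ≤ M := Nat.one_le_iff_ne_zero.mpr (NeZero.ne M)
  rw [one_nsmul, nsmul_eq_mul, mul_one, Nat.cast_sub this]
  push_cast; ring

lemma moment (F : Finset ι) (l : ℝ) :
    ∑ ω : ι → Fin M, l ^ Nz F ω
      = (Fintype.card (ι → Fin M) : ℝ) * (((M : ℝ) - 1 + l) / M) ^ F.card := by
  have hM : (M : ℝ) ≠ 0 := by exact_mod_cast NeZero.ne M
  have e1 : ∑ ω : ι → Fin M, l ^ Nz F ω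
      = ∏ i : ι, ∑ a : Fin M, (if i ∈ F then (if a = 0 then l else 1) else 1) := by
    rw [Finset.prod_univ_sum]
    rw [Fintype.piFinset_univ]
    exact Finset.sum_congr rfl (fun ω _ => pow_Nz F ω l)
  rw [e1]
  have e2 : ∀ i : ι, ∑ a : Fin M, (if i ∈ F then (if a = 0 then l else 1) else (1 : ℝ))
      = (M : ℝ) * (if i ∈ F then ((M : ℝ) - 1 + l) / M else 1) := by
    intro i
    by_cases h : i ∈ F
    · simp only [h, if_true]
      rw [sum_one, mul_div_cancel₀ _ hM]
    · simp [h]
  rw [Finset.prod_congr rfl (fun i _ => e2 i), Finset.prod_mul_distrib, Finset.prod_const,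
    Finset.prod_ite_mem, Finset.univ_inter, Finset.prod_const]
  rw [Fintype.card_fun, Fintype.card_fin]
  push_cast
  rfl

lemma upper (F : Finset ι) (e : ℕ) (l : ℝ) (hl : 1 ≤ l) :
    ((univ.filter (fun ω : ι → Fin M => e ≤ Nz F ω)).card : ℝ) * l ^ e
      ≤ (Fintype.card (ι → Fin M) : ℝ) * Real.exp (l * F.card / M) := by
  have hM0 : (0 : ℝ) < M := by exact_mod_cast Nat.pos_of_ne_zero (NeZero.ne M)
  calc ((univ.filter (fun ω : ι → Fin M => e ≤ Nz F ω)).card : ℝ) * l ^ e
      = ∑ ω ∈ univ.filter (fun ω : ι → Fin M => e ≤ Nz F ω), l ^ e := by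
        rw [Finset.sum_const, nsmul_eq_mul]
    _ ≤ ∑ ω ∈ univ.filter (fun ω : ι → Fin M => e ≤ Nz F ω), l ^ Nz F ω := by
        refine Finset.sum_le_sum (fun ω hω => ?_)
        exact pow_le_pow_right₀ hl (Finset.mem_filter.mp hω).2
    _ ≤ ∑ ω : ι → Fin M, l ^ Nz F ω :=
        Finset.sum_le_sum_of_subset_of_nonneg (Finset.filter_subset _ _)
          (fun ω _ _ => by positivity)
    _ = (Fintype.card (ι → Fin M) : ℝ) * (((M : ℝ) - 1 + l) / M) ^ F.card := moment F l
    _ ≤ (Fintype.card (ι → Fin M) : ℝ) * Real.exp (l * F.card / M) := by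
        refine mul_le_mul_of_nonneg_left ?_ (Nat.cast_nonneg _)
        have h1 : ((M : ℝ) - 1 + l) / M ≤ Real.exp (l / M) := by
          have h2 := Real.add_one_le_exp (l / M)
          have h3 : ((M : ℝ) - 1 + l) / M ≤ l / M + 1 := by
            rw [div_add_one hM0.ne']
            exact div_le_div_of_nonneg_right (by linarith) hM0.le
          linarith
        have h0 : (0 : ℝ) ≤ ((M : ℝ) - 1 + l) / M := by
          apply div_nonneg _ hM0.le
          linarith
        calc (((M : ℝ) - 1 + l) / M) ^ F.card ≤ (Real.exp (l / M)) ^ F.card :=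
              pow_le_pow_left₀ h0 h1 _
          _ = Real.exp (l * F.card / M) := by
              rw [← Real.exp_nat_mul]; congr 1; ring

lemma lower (F : Finset ι) (a : ℕ) :
    ((univ.filter (fun ω : ι → Fin M => Nz F ω < a)).card : ℝ)
      ≤ (Fintype.card (ι → Fin M) : ℝ) * (2 ^ a * Real.exp (-(F.card / (2 * M) : ℝ))) := by
  have hM0 : (0 : ℝ) < M := by exact_mod_cast Nat.pos_of_ne_zero (NeZero.ne M)
  have hM1 : (1 : ℝ) ≤ M := by exact_mod_cast Nat.one_le_iff_ne_zero.mpr (NeZero.ne M)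
  have h1 : ((univ.filter (fun ω : ι → Fin M => Nz F ω < a)).card : ℝ) * (1 / 2) ^ a
      ≤ (Fintype.card (ι → Fin M) : ℝ) * Real.exp (-(F.card / (2 * M) : ℝ)) := by
    calc ((univ.filter (fun ω : ι → Fin M => Nz F ω < a)).card : ℝ) * (1 / 2) ^ a
        = ∑ ω ∈ univ.filter (fun ω : ι → Fin M => Nz F ω < a), (1 / 2 : ℝ) ^ a := by
          rw [Finset.sum_const, nsmul_eq_mul]
      _ ≤ ∑ ω ∈ univ.filter (fun ω : ι → Fin M => Nz F ω < a), (1 / 2 : ℝ) ^ Nz F ω := by
          refine Finset.sum_le_sum (fun ω hω => ?_)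
          exact pow_le_pow_of_le_one (by norm_num) (by norm_num) (Finset.mem_filter.mp hω).2.le
      _ ≤ ∑ ω : ι → Fin M, (1 / 2 : ℝ) ^ Nz F ω :=
          Finset.sum_le_sum_of_subset_of_nonneg (Finset.filter_subset _ _)
            (fun ω _ _ => by positivity)
      _ = (Fintype.card (ι → Fin M) : ℝ) * (((M : ℝ) - 1 + 1 / 2) / M) ^ F.card := moment F _
      _ ≤ _ := by
          refine mul_le_mul_of_nonneg_left ?_ (Nat.cast_nonneg _)
          have h1 : ((M : ℝ) - 1 + 1 / 2) / M ≤ Real.exp (-(1 / (2 * M))) := by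
            have h2 := Real.add_one_le_exp (-(1 / (2 * M)) : ℝ)
            have h3 : ((M : ℝ) - 1 + 1 / 2) / M = -(1 / (2 * M)) + 1 := by
              field_simp; ring
            linarith
          have h0 : (0 : ℝ) ≤ ((M : ℝ) - 1 + 1 / 2) / M := by
            apply div_nonneg _ hM0.le
            linarith
          calc (((M : ℝ) - 1 + 1 / 2) / M) ^ F.card ≤ (Real.exp (-(1 / (2 * M)))) ^ F.card :=
                pow_le_pow_left₀ h0 h1 _
            _ = _ := by
                rw [← Real.exp_nat_mul]; congr 1; ring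
  have h2 : (0 : ℝ) < (1 / 2) ^ a := by positivity
  have h3 : (2 : ℝ) ^ a * (1 / 2) ^ a = 1 := by rw [← mul_pow]; norm_num
  refine le_of_mul_le_mul_right ?_ h2
  refine h1.trans (le_of_eq ?_)
  calc _ = (Fintype.card (ι → Fin M) : ℝ) * Real.exp (-(F.card / (2 * M) : ℝ))
        * ((2 : ℝ) ^ a * (1 / 2) ^ a) := by rw [h3, mul_one]
    _ = _ := by ring

end Mom

end Pool.Agent.TH474.RS
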