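import Mathlib

set_option autoImplicit false
set_option linter.all false

/-!
From a colouring without a clique plus a star to a colouring without a clique.
-/

namespace Pool.Agent.TH474.RS

open Finset Classical

namespace Red

variable {V : Type} [Fintype V]

/-- a copy of `K_k + K_{1,g}` -/
def HasCS (R : SimpleGraph V) (k g : ℕ) : Prop :=
  ∃ (s : Finset V) (v : V) (N : Finset V), R.IsNClique k s ∧ v ∉ s ∧ N.card = g ∧
    ∀ w ∈ N, w ∉ s ∧ R.Adj v w

lemma deg_lt {R : SimpleGraph V} {k g : ℕ} (h : ¬ HasCS R k g) {s : Finset V}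
    (hs : R.IsNClique k s) {v : V} (hv : v ∉ s) :
    (univ.filter (fun w => w ∉ s ∧ R.Adj v w)).card < g := by
  by_contra hcon
  rw [not_lt] at hcon
  obtain ⟨N, hN, hNc⟩ := Finset.exists_subset_card_eq hcon
  exact h ⟨s, v, N, hs, hv, hNc, fun w hw => (Finset.mem_filter.mp (hN hw)).2⟩

/-- greedy colouring -/
lemma greedy (H : SimpleGraph V) (N : ℕ)
    (hd : ∀ v, (univ.filter (fun w => H.Adj v w)).card < N) :
    ∃ c : V → Fin N, ∀ v w, H.Adj v w → c v ≠ c w := by
  rcases Nat.eq_zero_or_pos N with rfl | hN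
  · exact ⟨fun v => absurd (hd v) (Nat.not_lt_zero _), fun v => absurd (hd v) (Nat.not_lt_zero _)⟩
  have key : ∀ S : Finset V, ∃ c : V → Fin N, ∀ v ∈ S, ∀ w ∈ S, H.Adj v w → c v ≠ c w := by
    intro S
    induction S using Finset.induction_on with
    | empty => exact ⟨fun _ => ⟨0, hN⟩, by simp⟩
    | insert a S ha ih =>
      obtain ⟨c, hc⟩ := ih
      have h1 : ((univ.filter (fun w => H.Adj a w)).image c).card < N :=
        lt_of_le_of_lt Finset.card_image_le (hd a)
      obtain ⟨i, hi⟩ : ∃ i : Fin N, i ∉ (univ.filter (fun w => H.Adj a w)).image c := by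
        by_contra hcon
        push Not at hcon
        have h2 : (univ : Finset (Fin N)) ⊆ (univ.filter (fun w => H.Adj a w)).image c :=
          fun i _ => hcon i
        have h3 := Finset.card_le_card h2
        rw [Finset.card_univ, Fintype.card_fin] at h3
        omega
      have hi' : ∀ w, H.Adj a w → c w ≠ i := by
        intro w hw he
        apply hi
        rw [Finset.mem_image]
        exact ⟨w, Finset.mem_filter.mpr ⟨Finset.mem_univ _, hw⟩, he⟩
      refine ⟨fun v => if v = a then i else c v, ?_⟩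
      intro v hv w hw hvw
      by_cases h1 : v = a <;> by_cases h2 : w = a
      · subst h1; subst h2; exact absurd hvw (H.loopless.irrefl _)
      · subst h1
        simp only [if_true, h2, if_false]
        exact (hi' w hvw).symm
      · subst h2
        simp only [if_true, h1, if_false]
        exact hi' v hvw.symm
      · simp only [h1, h2, if_false]
        exact hc v (Finset.mem_of_mem_insert_of_ne hv h1) w
          (Finset.mem_of_mem_insert_of_ne hw h2) hvw
  obtain ⟨c, hc⟩ := key univ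
  exact ⟨c, fun v w => hc v (Finset.mem_univ _) w (Finset.mem_univ _)⟩

/-- a graph with few colours has a good edge colouring -/
lemma product (G : SimpleGraph V) (m : ℕ) (c : V → Fin m × Fin m)
    (hc : ∀ v w, G.Adj v w → c v ≠ c w) :
    ∃ R ≤ G, R.CliqueFree (m + 1) ∧ (G \ R).CliqueFree (m + 1) := by
  have pig : ∀ (X : Finset V) (f : V → Fin m), X.card = m + 1 →
      (∀ x ∈ X, ∀ y ∈ X, x ≠ y → f x ≠ f y) → False := by
    intro X f hX hf
    have h1 : (X.image f).card = X.card :=
      Finset.card_image_of_injOn (fun x hx y hy he => by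
        by_contra hne
        exact hf x hx y hy hne he)
    have h2 : (X.image f).card ≤ m := by
      have := Finset.card_le_univ (X.image f)
      rwa [Fintype.card_fin] at this
    omega
  refine ⟨{ Adj := fun x y => G.Adj x y ∧ (c x).1 ≠ (c y).1
            symm := ⟨fun x y h => ⟨h.1.symm, h.2.symm⟩⟩
            loopless := ⟨fun x h => h.1.ne rfl⟩ }, fun x y h => h.1, ?_, ?_⟩
  · intro X hX
    refine pig X (fun x => (c x).1) hX.2 ?_
    intro x hx y hy hxy
    exact (hX.1 (Finset.mem_coe.mpr hx) (Finset.mem_coe.mpr hy) hxy).2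
  · intro X hX
    refine pig X (fun x => (c x).2) hX.2 ?_
    intro x hx y hy hxy he
    have h1 := hX.1 (Finset.mem_coe.mpr hx) (Finset.mem_coe.mpr hy) hxy
    rw [SimpleGraph.sdiff_adj] at h1
    have h2 : (c x).1 = (c y).1 := by
      by_contra hne
      exact h1.2 ⟨h1.1, hne⟩
    exact hc x y h1.1 (Prod.ext h2 he)

/-- the edges of `G` outside `W` -/
def outG (G : SimpleGraph V) (W : Finset V) : SimpleGraph V where
  Adj x y := G.Adj x y ∧ x ∉ W ∧ y ∉ W
  symm := ⟨fun x y h => ⟨h.1.symm, h.2.2, h.2.1⟩⟩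
  loopless := ⟨fun x h => h.1.ne rfl⟩

lemma outG_adj {G : SimpleGraph V} {W : Finset V} {x y : V} :
    (outG G W).Adj x y ↔ G.Adj x y ∧ x ∉ W ∧ y ∉ W := Iff.rfl

/-- both colours contain `K_k` -/
lemma caseA {G R : SimpleGraph V} {k g : ℕ} (hk : 1 ≤ k)
    (hcol : 2 * k + 2 * g + 1 ≤ (k - 1) * (k - 1))
    (hR : R ≤ G) (h1 : ¬ HasCS R k g) (h2 : ¬ HasCS (G \ R) k g) {s t : Finset V}
    (hs : R.IsNClique k s) (ht : (G \ R).IsNClique k t) :
    ∃ R' ≤ G, R'.CliqueFree k ∧ (G \ R').CliqueFree k := by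
  set W := s ∪ t with hW
  have hWc : W.card ≤ 2 * k := by
    have := Finset.card_union_le s t
    rw [hs.2, ht.2] at this
    rw [hW]
    omega
  obtain ⟨H, hH⟩ : ∃ H : SimpleGraph V, H = outG G W := ⟨_, rfl⟩
  obtain ⟨c, hc⟩ := greedy H (2 * g + 1) (by
    intro v
    by_cases hv : v ∈ W
    · have : univ.filter (fun w => H.Adj v w) = ∅ := by
        rw [Finset.eq_empty_iff_forall_notMem]
        intro w hw
        have h3 := (Finset.mem_filter.mp hw).2
        rw [hH] at h3
        exact h3.2.1 hv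
      rw [this, Finset.card_empty]
      omega
    · have hvs : v ∉ s := fun h => hv (Finset.mem_union_left _ h)
      have hvt : v ∉ t := fun h => hv (Finset.mem_union_right _ h)
      have h3 := deg_lt h1 hs hvs
      have h4 : (univ.filter (fun w => w ∉ t ∧ (G \ R).Adj v w)).card < g := by
        convert deg_lt h2 ht hvt
      have h5 : univ.filter (fun w => H.Adj v w) ⊆
          univ.filter (fun w => w ∉ s ∧ R.Adj v w)
          ∪ univ.filter (fun w => w ∉ t ∧ (G \ R).Adj v w) := by
        intro w hw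
        have h6 := (Finset.mem_filter.mp hw).2
        rw [hH] at h6
        obtain ⟨hadj, _, hwW⟩ := h6
        rw [Finset.mem_union, Finset.mem_filter, Finset.mem_filter]
        by_cases hr : R.Adj v w
        · exact Or.inl ⟨Finset.mem_univ _, fun h => hwW (Finset.mem_union_left _ h), hr⟩
        · refine Or.inr ⟨Finset.mem_univ _, fun h => hwW (Finset.mem_union_right _ h), ?_⟩
          rw [SimpleGraph.sdiff_adj]
          exact ⟨hadj, hr⟩
      have h6 := (Finset.card_le_card h5).trans (Finset.card_union_le _ _)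
      omega)
  -- total colouring
  have hm : ∃ c' : V → Fin ((k - 1) * (k - 1)), ∀ v w, G.Adj v w → c' v ≠ c' w := by
    refine ⟨fun v => if h : v ∈ W then ⟨(W.equivFin ⟨v, h⟩ : ℕ), ?_⟩
      else ⟨2 * k + (c v : ℕ), ?_⟩, ?_⟩
    · have := (W.equivFin ⟨v, h⟩).2
      omega
    · have := (c v).2
      omega
    · intro v w hvw
      by_cases hv : v ∈ W <;> by_cases hw : w ∈ W
      · simp only [hv, hw, dif_pos]
        intro he
        have h3 : (W.equivFin ⟨v, hv⟩ : ℕ) = (W.equivFin ⟨w, hw⟩ : ℕ) := by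
          simpa using congrArg Fin.val he
        have h4 := W.equivFin.injective (Fin.ext h3)
        exact hvw.ne (Subtype.mk.inj h4)
      · simp only [hv, hw, dif_pos, dif_neg, not_false_eq_true]
        intro he
        have h3 : (W.equivFin ⟨v, hv⟩ : ℕ) = 2 * k + (c w : ℕ) := by
          simpa using congrArg Fin.val he
        have := (W.equivFin ⟨v, hv⟩).2
        omega
      · simp only [hv, hw, dif_pos, dif_neg, not_false_eq_true]
        intro he
        have h3 : 2 * k + (c v : ℕ) = (W.equivFin ⟨w, hw⟩ : ℕ) := by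
          simpa using congrArg Fin.val he
        have := (W.equivFin ⟨w, hw⟩).2
        omega
      · simp only [hv, hw, dif_neg, not_false_eq_true]
        intro he
        have h3 : 2 * k + (c v : ℕ) = 2 * k + (c w : ℕ) := by
          simpa using congrArg Fin.val he
        refine hc v w ?_ (Fin.ext (by omega))
        rw [hH]
        exact ⟨hvw, hv, hw⟩
  obtain ⟨c', hc'⟩ := hm
  have := product G (k - 1) (fun v => finProdFinEquiv.symm (c' v)) (fun v w hvw he =>
    hc' v w hvw (finProdFinEquiv.symm.injective he))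
  have e : k - 1 + 1 = k := by omega
  rw [e] at this
  exact this

/-- only one colour contains `K_k` -/
lemma caseB {G R : SimpleGraph V} {k g : ℕ} (hk : 3 ≤ k) (hR : R ≤ G)
    (hcore : ∀ D B : SimpleGraph V, (∀ v, (univ.filter (fun w => w = v ∨ D.Adj v w)).card ≤ g + 1) →
      B.CliqueFree k → ∃ R₀ : SimpleGraph V, R₀ ≤ D ⊔ B ∧ R₀.CliqueFree k ∧
        ((D ⊔ B) \ R₀).CliqueFree (k - 2))
    (h1 : ¬ HasCS R k g) {s : Finset V}
    (hs : R.IsNClique k s) (hB : (G \ R).CliqueFree k) :
    ∃ R' ≤ G, R'.CliqueFree k ∧ (G \ R').CliqueFree k := by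
  obtain ⟨D, hD⟩ : ∃ D : SimpleGraph V, D = outG R s := ⟨_, rfl⟩
  obtain ⟨B, hBdef⟩ : ∃ B : SimpleGraph V, B = outG (G \ R) s := ⟨_, rfl⟩
  have hDadj : ∀ x y, D.Adj x y ↔ R.Adj x y ∧ x ∉ s ∧ y ∉ s := by
    intro x y; rw [hD]; exact Iff.rfl
  have hBadj : ∀ x y, B.Adj x y ↔ (G \ R).Adj x y ∧ x ∉ s ∧ y ∉ s := by
    intro x y; rw [hBdef]; exact Iff.rfl
  obtain ⟨R₀, hR₀, hR₀1, hR₀2⟩ := hcore D B (by
    intro v
    by_cases hv : v ∈ s
    · have : univ.filter (fun w => w = v ∨ D.Adj v w) ⊆ {v} := by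
        intro w hw
        rcases (Finset.mem_filter.mp hw).2 with h | h
        · exact Finset.mem_singleton.mpr h
        · exact absurd hv ((hDadj _ _).mp h).2.1
      have := Finset.card_le_card this
      rw [Finset.card_singleton] at this
      omega
    · have h3 := deg_lt h1 hs hv
      have : univ.filter (fun w => w = v ∨ D.Adj v w) ⊆
          insert v (univ.filter (fun w => w ∉ s ∧ R.Adj v w)) := by
        intro w hw
        rw [Finset.mem_insert, Finset.mem_filter]
        rcases (Finset.mem_filter.mp hw).2 with h | h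
        · exact Or.inl h
        · exact Or.inr ⟨Finset.mem_univ _, ((hDadj _ _).mp h).2.2, ((hDadj _ _).mp h).1⟩
      have := (Finset.card_le_card this).trans (Finset.card_insert_le _ _)
      omega) (by
    intro X hX
    refine hB X ⟨?_, hX.2⟩
    intro x hx y hy hxy
    exact ((hBadj _ _).mp (hX.1 hx hy hxy)).1)
  obtain ⟨a, ha, b, hb, hab⟩ := Finset.one_lt_card.mp (show 1 < s.card by rw [hs.2]; omega)
  have hR₀out : ∀ x y, R₀.Adj x y → x ∉ s ∧ y ∉ s := by
    intro x y h
    rcases hR₀ h with h | h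
    · exact ((hDadj _ _).mp h).2
    · exact ((hBadj _ _).mp h).2
  set R' : SimpleGraph V :=
    { Adj := fun x y => R₀.Adj x y ∨
        (x ∈ s ∧ y ∈ s ∧ x ≠ y ∧ ¬ (x = a ∧ y = b) ∧ ¬ (x = b ∧ y = a))
      symm := ⟨by
        rintro x y (h | ⟨h1, h2, h3, h4, h5⟩)
        · exact Or.inl h.symm
        · exact Or.inr ⟨h2, h1, h3.symm, fun h => h5 ⟨h.2, h.1⟩, fun h => h4 ⟨h.2, h.1⟩⟩⟩
      loopless := ⟨by
        rintro x (h | h)
        · exact h.ne rfl
        · exact h.2.2.1 rfl⟩ } with hR'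
  refine ⟨R', ?_, ?_, ?_⟩
  · intro x y h
    rcases h with h | h
    · rcases hR₀ h with h | h
      · exact hR ((hDadj _ _).mp h).1
      · have h3 := ((hBadj _ _).mp h).1
        rw [SimpleGraph.sdiff_adj] at h3
        exact h3.1
    · exact hR (hs.1 (Finset.mem_coe.mpr h.1) (Finset.mem_coe.mpr h.2.1) h.2.2.1)
  · intro X hX
    by_cases hXs : ∃ x ∈ X, x ∈ s
    · obtain ⟨x, hxX, hxs⟩ := hXs
      have hsub : X ⊆ s := by
        intro y hy
        by_cases hxy : x = y
        · rw [← hxy]; exact hxs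
        · rcases hX.1 (Finset.mem_coe.mpr hxX) (Finset.mem_coe.mpr hy) hxy with h | h
          · exact absurd hxs (hR₀out x y h).1
          · exact h.2.1
      have hXs : X = s := Finset.eq_of_subset_of_card_le hsub (by rw [hX.2, hs.2])
      subst hXs
      rcases hX.1 (Finset.mem_coe.mpr ha) (Finset.mem_coe.mpr hb) hab with h | h
      · exact (hR₀out a b h).1 ha
      · exact h.2.2.2.1 ⟨rfl, rfl⟩
    · push Not at hXs
      refine hR₀1 X ⟨?_, hX.2⟩
      intro x hx y hy hxy
      rcases hX.1 hx hy hxy with h | h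
      · exact h
      · exact absurd h.1 (hXs x (Finset.mem_coe.mp hx))
  · intro X hX
    have hin : (X.filter (fun x => x ∈ s)).card ≤ 2 := by
      have hsub : X.filter (fun x => x ∈ s) ⊆ {a, b} ∨ (X.filter (fun x => x ∈ s)).card ≤ 1 := by
        by_contra hcon
        push Not at hcon
        obtain ⟨hns, hc⟩ := hcon
        obtain ⟨x, hx, hxn⟩ := Finset.not_subset.mp hns
        rw [Finset.mem_insert, Finset.mem_singleton, not_or] at hxn
        obtain ⟨y, hy, hyx⟩ := Finset.exists_mem_ne hc x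
        rw [Finset.mem_filter] at hx hy
        have h3 := hX.1 (Finset.mem_coe.mpr hx.1) (Finset.mem_coe.mpr hy.1) hyx.symm
        rw [SimpleGraph.sdiff_adj] at h3
        exact h3.2 (Or.inr ⟨hx.2, hy.2, hyx.symm, fun h => hxn.1 h.1, fun h => hxn.2 h.1⟩)
      rcases hsub with h | h
      · exact (Finset.card_le_card h).trans Finset.card_le_two
      · omega
    have hout : k - 2 ≤ (X.filter (fun x => x ∉ s)).card := by
      have h3 := Finset.card_filter_add_card_filter_not (s := X) (fun x => x ∈ s)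
      rw [hX.2] at h3
      omega
    obtain ⟨Y, hY, hYc⟩ := Finset.exists_subset_card_eq hout
    refine hR₀2 Y ⟨?_, hYc⟩
    intro x hx y hy hxy
    have hx' := Finset.mem_filter.mp (hY (Finset.mem_coe.mp hx))
    have hy' := Finset.mem_filter.mp (hY (Finset.mem_coe.mp hy))
    have h3 := hX.1 (Finset.mem_coe.mpr hx'.1) (Finset.mem_coe.mpr hy'.1) hxy
    rw [SimpleGraph.sdiff_adj] at h3 ⊢
    refine ⟨?_, fun h => h3.2 (Or.inl h)⟩
    rw [SimpleGraph.sup_adj]
    by_cases hr : R.Adj x y
    · exact Or.inl ((hDadj _ _).mpr ⟨hr, hx'.2, hy'.2⟩)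
    · refine Or.inr ((hBadj _ _).mpr ⟨?_, hx'.2, hy'.2⟩)
      rw [SimpleGraph.sdiff_adj]
      exact ⟨h3.1, hr⟩

/-- the reduction -/
theorem reduce (G : SimpleGraph V) {k g : ℕ} (hk : 3 ≤ k)
    (hcol : 2 * k + 2 * g + 1 ≤ (k - 1) * (k - 1))
    (hcore : ∀ D B : SimpleGraph V, (∀ v, (univ.filter (fun w => w = v ∨ D.Adj v w)).card ≤ g + 1) →
      B.CliqueFree k → ∃ R₀ : SimpleGraph V, R₀ ≤ D ⊔ B ∧ R₀.CliqueFree k ∧
        ((D ⊔ B) \ R₀).CliqueFree (k - 2))
    (hG : ∀ R ≤ G, ¬ (R.CliqueFree k ∧ (G \ R).CliqueFree k)) (R : SimpleGraph V) (hR : R ≤ G) :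
    HasCS R k g ∨ HasCS (G \ R) k g := by
  by_contra hcon
  rw [not_or] at hcon
  obtain ⟨h1, h2⟩ := hcon
  have hex : ∃ R' ≤ G, R'.CliqueFree k ∧ (G \ R').CliqueFree k := by
    by_cases hA : R.CliqueFree k
    · have hB : ¬ (G \ R).CliqueFree k := fun h => hG R hR ⟨hA, h⟩
      rw [SimpleGraph.CliqueFree] at hB
      push Not at hB
      obtain ⟨t, ht⟩ := hB
      refine caseB hk (sdiff_le : G \ R ≤ G) hcore h2 ht ?_
      have e : G \ (G \ R) = R := by
        rw [sdiff_sdiff_right_self]
        exact inf_eq_right.mpr hR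
      rw [e]
      exact hA
    · rw [SimpleGraph.CliqueFree] at hA
      push Not at hA
      obtain ⟨s, hs⟩ := hA
      by_cases hB : (G \ R).CliqueFree k
      · exact caseB hk hR hcore h1 hs hB
      · rw [SimpleGraph.CliqueFree] at hB
        push Not at hB
        obtain ⟨t, ht⟩ := hB
        exact caseA (by omega) hcol hR h1 h2 hs ht
  obtain ⟨R', hR', h3⟩ := hex
  exact hG R' hR' h3

end Red

end Pool.Agent.TH474.RS
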