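import Pool.Agent.TH474.RS.Core
import Pool.Agent.TH474.RS.Reduce

set_option autoImplicit false
set_option linter.all false

/-!
Choice of the parameters.
-/

namespace Pool.Agent.TH474.RS

open Finset Classical

namespace Par

lemma v0_le (b : ℕ) (hb : 7 ≤ b) : (b + 1) * ((2 * b - 1) * (b + 1) + 2) ≤ 3 * b ^ 3 := by
  obtain ⟨c, rfl⟩ := Nat.exists_eq_add_of_le hb
  have h : 2 * (7 + c) - 1 = 13 + 2 * c := by omega
  rw [h]
  nlinarith [Nat.zero_le (c ^ 3), Nat.zero_le (c ^ 2), Nat.zero_le c]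

lemma v0_ge (b : ℕ) (hb : 7 ≤ b) : 1 ≤ (b + 1) * ((2 * b - 1) * (b + 1) + 2) :=
  Nat.mul_pos (by omega) (by omega)

lemma two_le_exp (m : ℕ) : (2 : ℝ) ^ m ≤ Real.exp m := by
  have h4 : Real.exp (m : ℝ) = Real.exp 1 ^ m := by rw [← Real.exp_nat_mul]; ring_nf
  rw [h4]
  exact pow_le_pow_left₀ (by norm_num) (by have := Real.exp_one_gt_d9; linarith) m

lemma hyp3 (n M b : ℕ) (hb : 7 ≤ b) (hM : 1 ≤ M) (hn : 1 ≤ n) (hnb : n ≤ 4 ^ b)
    (hj : b ≤ n / (8 * M)) :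
    (n : ℝ) * (2 ^ (n / (8 * M) + 1) * Real.exp (-(((n - 1 : ℕ) : ℝ) / (2 * M)))) ≤ 1 / 4 := by
  set j := n / (8 * M) with hjdef
  have hM0 : (1 : ℝ) ≤ M := by exact_mod_cast hM
  have h1 : 8 * M * j ≤ n := Nat.mul_div_le n (8 * M)
  have h2 : (4 * j : ℝ) - 1 ≤ ((n - 1 : ℕ) : ℝ) / (2 * M) := by
    rw [le_div_iff₀ (by positivity), Nat.cast_sub hn]
    have h3 : (8 : ℝ) * M * j ≤ n := by exact_mod_cast h1
    push_cast
    nlinarith
  have h3 : Real.exp (-(((n - 1 : ℕ) : ℝ) / (2 * M))) ≤ 3 * (1 / 32) ^ j := by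
    calc Real.exp (-(((n - 1 : ℕ) : ℝ) / (2 * M))) ≤ Real.exp (1 - 4 * j) :=
          Real.exp_le_exp.mpr (by linarith)
      _ = Real.exp 1 * (Real.exp (-4)) ^ j := by
          rw [← Real.exp_nat_mul, ← Real.exp_add]; congr 1; ring
      _ ≤ 3 * (1 / 32) ^ j := by
          have h4 : Real.exp 1 ≤ 3 := by have := Real.exp_one_lt_d9; linarith
          have h5 : Real.exp (-4) ≤ 1 / 32 := by
            rw [Real.exp_neg, inv_eq_one_div]
            apply one_div_le_one_div_of_le (by norm_num)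
            have h6 : Real.exp 4 = Real.exp 1 ^ 4 := by
              rw [← Real.exp_nat_mul]; norm_num
            rw [h6]
            have h7 : (2.7 : ℝ) ≤ Real.exp 1 := by have := Real.exp_one_gt_d9; linarith
            calc (32 : ℝ) ≤ 2.7 ^ 4 := by norm_num
              _ ≤ _ := pow_le_pow_left₀ (by norm_num) h7 4
          exact mul_le_mul h4 (pow_le_pow_left₀ (Real.exp_pos _).le h5 j)
            (by positivity) (by norm_num)
  have hn4 : (n : ℝ) ≤ 4 ^ b := by exact_mod_cast hnb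
  calc (n : ℝ) * (2 ^ (j + 1) * Real.exp (-(((n - 1 : ℕ) : ℝ) / (2 * M))))
      ≤ 4 ^ b * (2 ^ (j + 1) * (3 * (1 / 32) ^ j)) := by gcongr
    _ = 6 * 4 ^ b * ((2 : ℝ) * (1 / 32)) ^ j := by rw [mul_pow, pow_succ]; ring
    _ ≤ 6 * 4 ^ b * ((2 : ℝ) * (1 / 32)) ^ b := by
        refine mul_le_mul_of_nonneg_left ?_ (by positivity)
        exact pow_le_pow_of_le_one (by norm_num) (by norm_num) hj
    _ = 6 * (1 / 4 : ℝ) ^ b := by
        rw [mul_assoc, ← mul_pow]; norm_num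
    _ ≤ 6 * (1 / 4 : ℝ) ^ 7 := by
        refine mul_le_mul_of_nonneg_left ?_ (by norm_num)
        exact pow_le_pow_of_le_one (by norm_num) (by norm_num) hb
    _ ≤ 1 / 4 := by norm_num

lemma hyp4 (n M b K δ : ℕ) (hM : 1 ≤ M) (hK : 1 ≤ K) (hnb : n ≤ 4 ^ b)
    (hKM : 4 * M * (δ + 2 * b + 2) ≤ K - 1) :
    (n : ℝ) ^ K * (2 ^ (δ * K) * Real.exp (-(((K * K - K : ℕ) : ℝ) / (4 * M)))) ≤ 1 / 4 := by
  have hM0 : (1 : ℝ) ≤ M := by exact_mod_cast hM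
  have e1 : K * K - K = K * (K - 1) := by rw [Nat.mul_sub, mul_one]
  have h1 : (K : ℝ) * (δ + 2 * b + 2) ≤ ((K * K - K : ℕ) : ℝ) / (4 * M) := by
    rw [le_div_iff₀ (by positivity), e1]
    have h2 : (K : ℝ) * (4 * M * (δ + 2 * b + 2)) ≤ K * ((K - 1 : ℕ) : ℝ) := by
      refine mul_le_mul_of_nonneg_left ?_ (Nat.cast_nonneg _)
      exact_mod_cast hKM
    push_cast
    linarith
  have hn4 : (n : ℝ) ≤ 4 ^ b := by exact_mod_cast hnb
  have h3 : (n : ℝ) ^ K ≤ Real.exp ((2 * b * K : ℕ) : ℝ) := by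
    calc (n : ℝ) ^ K ≤ ((4 : ℝ) ^ b) ^ K := pow_le_pow_left₀ (Nat.cast_nonneg _) hn4 K
      _ = (2 : ℝ) ^ (2 * b * K) := by
          rw [show (4 : ℝ) = 2 ^ 2 by norm_num, ← pow_mul, ← pow_mul, ← mul_assoc]
      _ ≤ _ := two_le_exp _
  calc (n : ℝ) ^ K * (2 ^ (δ * K) * Real.exp (-(((K * K - K : ℕ) : ℝ) / (4 * M))))
      ≤ Real.exp ((2 * b * K : ℕ) : ℝ) * (Real.exp ((δ * K : ℕ) : ℝ) *
        Real.exp (-((K : ℝ) * (δ + 2 * b + 2)))) := by
        refine mul_le_mul h3 ?_ (by positivity) (by positivity)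
        refine mul_le_mul (two_le_exp _) ?_ (by positivity) (by positivity)
        exact Real.exp_le_exp.mpr (by linarith)
    _ = Real.exp (-(2 * K)) := by
        rw [← Real.exp_add, ← Real.exp_add]
        congr 1
        push_cast
        ring
    _ ≤ Real.exp (-2) := by
        apply Real.exp_le_exp.mpr
        have : (1 : ℝ) ≤ K := by exact_mod_cast hK
        linarith
    _ ≤ 1 / 4 := by
        rw [Real.exp_neg, inv_eq_one_div]
        apply one_div_le_one_div_of_le (by norm_num)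
        have h6 : Real.exp 2 = Real.exp 1 ^ 2 := by
          rw [← Real.exp_nat_mul]; norm_num
        rw [h6]
        have h7 : (2.7 : ℝ) ≤ Real.exp 1 := by have := Real.exp_one_gt_d9; linarith
        calc (4 : ℝ) ≤ 2.7 ^ 2 := by norm_num
          _ ≤ _ := pow_le_pow_left₀ (by norm_num) h7 2

lemma hyp1 (N b : ℕ) (hb : 1 ≤ b) (h : 8 * N ≤ 4 ^ b) :
    (16 * N ^ 2) ^ b ≤ (8 * N) ^ (2 * b - 1) := by
  rcases Nat.eq_zero_or_pos N with rfl | hN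
  · have : 16 * 0 ^ 2 = 0 := by norm_num
    rw [this, zero_pow (by omega)]
    exact Nat.zero_le _
  have h1 : (8 * N) * (16 * N ^ 2) ^ b ≤ (8 * N) * (8 * N) ^ (2 * b - 1) := by
    have e1 : (8 * N) * (8 * N) ^ (2 * b - 1) = (8 * N) ^ (2 * b) := by
      rw [← pow_succ']
      congr 1
      omega
    rw [e1]
    calc (8 * N) * (16 * N ^ 2) ^ b ≤ 4 ^ b * (16 * N ^ 2) ^ b := Nat.mul_le_mul_right _ h
      _ = ((8 * N) ^ 2) ^ b := by
          rw [← mul_pow]; congr 1; ring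
      _ = (8 * N) ^ (2 * b) := by rw [← pow_mul]
  exact Nat.le_of_mul_le_mul_left h1 (by omega)

theorem coreK (k b N g : ℕ) (hb : 7 ≤ b) (hN : 576 * b ^ 7 ≤ N) (hk : 100000 * (N * b ^ 10) ≤ k)
    (hkb : k ≤ 2 ^ b) (hg : 64 * (g + 1) ≤ N ^ 2) {V : Type} [Fintype V] (D B : SimpleGraph V)
    (hD : ∀ v, (Enc.cn D v).card ≤ g + 1) (hB : B.CliqueFree k) :
    ∃ R : SimpleGraph V, R ≤ D ⊔ B ∧ R.CliqueFree k ∧ ((D ⊔ B) \ R).CliqueFree (k - 2) := by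
  obtain ⟨v0, hv0⟩ : ∃ v0, v0 = (b + 1) * ((2 * b - 1) * (b + 1) + 2) := ⟨_, rfl⟩
  have hv1 : v0 ≤ 3 * b ^ 3 := by rw [hv0]; exact v0_le b hb
  have hv2 : 1 ≤ v0 := by rw [hv0]; exact v0_ge b hb
  obtain ⟨M, hM⟩ : ∃ M, M = 8 * N * v0 ^ 2 := ⟨_, rfl⟩
  obtain ⟨q, hq⟩ : ∃ q, q = 9 * b := ⟨_, rfl⟩
  obtain ⟨h, hh⟩ : ∃ h, h = v0 + 1 := ⟨_, rfl⟩
  obtain ⟨δ, hδ⟩ : ∃ δ, δ = 2 * (3 * q) * (h + 3 * q) := ⟨_, rfl⟩
  have hb7 : 1 ≤ b ^ 7 := Nat.pos_of_ne_zero (by positivity)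
  have hN1 : 1 ≤ N := by omega
  have hM1 : 1 ≤ M := by
    rw [hM]
    exact Nat.mul_pos (by omega) (Nat.pow_pos hv2)
  haveI : NeZero M := ⟨by omega⟩
  have hv3 : v0 ^ 2 ≤ 9 * b ^ 6 := by
    calc v0 ^ 2 ≤ (3 * b ^ 3) ^ 2 := Nat.pow_le_pow_left hv1 2
      _ = _ := by ring
  have hM2 : M ≤ 72 * (N * b ^ 6) := by
    rw [hM]
    calc 8 * N * v0 ^ 2 ≤ 8 * N * (9 * b ^ 6) := Nat.mul_le_mul_left _ hv3
      _ = _ := by ring
  have hb3 : 27 * b + 1 ≤ b ^ 3 := by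
    have : b * (7 * 7) ≤ b * (b * b) := Nat.mul_le_mul_left b (Nat.mul_le_mul hb hb)
    calc 27 * b + 1 ≤ b * (7 * 7) := by omega
      _ ≤ b * (b * b) := this
      _ = b ^ 3 := by ring
  have hδ1 : δ ≤ 216 * b ^ 4 := by
    rw [hδ, hq, hh]
    calc 2 * (3 * (9 * b)) * (v0 + 1 + 3 * (9 * b)) ≤ 2 * (3 * (9 * b)) * (4 * b ^ 3) :=
          Nat.mul_le_mul_left _ (by omega)
      _ = _ := by ring
  have hb4 : 2 * b + 2 ≤ 4 * b ^ 4 := by
    have h1 : b ^ 3 ≤ b ^ 4 := Nat.pow_le_pow_right (by omega) (by norm_num)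
    omega
  have hX : 1 ≤ N * b ^ 10 := Nat.mul_pos hN1 (by positivity)
  have hbig : 4 * M * (δ + 2 * b + 2) ≤ 63360 * (N * b ^ 10) := by
    calc 4 * M * (δ + 2 * b + 2) ≤ 4 * (72 * (N * b ^ 6)) * (220 * b ^ 4) :=
          Nat.mul_le_mul (Nat.mul_le_mul_left 4 hM2) (by omega)
      _ = _ := by ring
  have h6le : N * b ^ 6 ≤ N * b ^ 10 :=
    Nat.mul_le_mul_left N (Nat.pow_le_pow_right (by omega) (by norm_num))
  have hbM : b * M ≤ 72 * (N * b ^ 10) := by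
    calc b * M ≤ b * (72 * (N * b ^ 6)) := Nat.mul_le_mul_left b hM2
      _ = 72 * (N * b ^ 7) := by ring
      _ ≤ 72 * (N * b ^ 10) := by
        exact Nat.mul_le_mul_left _
          (Nat.mul_le_mul_left N (Nat.pow_le_pow_right (by omega) (by norm_num)))
  have hble : b ≤ N * b ^ 10 := by
    calc b = 1 * b ^ 1 := by ring
      _ ≤ N * b ^ 10 := Nat.mul_le_mul hN1 (Nat.pow_le_pow_right (by omega) (by norm_num))
  have hNle : N ≤ N * b ^ 10 := Nat.le_mul_of_pos_right N (by positivity)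
  have h24 : (2 : ℕ) ^ b ≤ 4 ^ b := Nat.pow_le_pow_left (by norm_num) b
  have hn4 : N ^ 2 ≤ 4 ^ b := by
    calc N ^ 2 ≤ (2 ^ b) ^ 2 := Nat.pow_le_pow_left (by omega) 2
      _ = 4 ^ b := by rw [← pow_mul, mul_comm, pow_mul]; norm_num
  obtain ⟨P, hP1, hP2, hP3⟩ := Rand.exists_graph (n := N ^ 2) (M := M) b v0 (8 * N) (k - 2) δ
    (by omega) (Nat.pow_pos hN1) (by omega) (hyp1 N b (by omega) (by omega))
    (le_of_eq hM.symm)
    (hyp3 (N ^ 2) M b hb hM1 (Nat.pow_pos hN1) hn4 (by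
      rw [Nat.le_div_iff_mul_le (by omega)]
      calc b * (8 * M) = N * (64 * (b * v0 ^ 2)) := by rw [hM]; ring
        _ ≤ N * (64 * (b * (9 * b ^ 6))) :=
            Nat.mul_le_mul_left _ (Nat.mul_le_mul_left _ (Nat.mul_le_mul_left _ hv3))
        _ = N * (576 * b ^ 7) := by ring
        _ ≤ N * N := Nat.mul_le_mul_left _ hN
        _ = N ^ 2 := by ring))
    (hyp4 (N ^ 2) M b (k - 2) δ hM1 (by omega) hn4 (by omega))
  refine Core.core P D B (q := q) (h := h) (b := b) (v0 := v0) (M := M) (K := k - 2) (γ := g + 1)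
    (by omega) (by omega) (le_of_eq hv0.symm) hP1 hD (by omega) hh hg hn4 (by omega) (by omega)
    (by omega) (by omega) ?_ hP2 ?_ hB
  · have e1 : b * (32 * M + 2) + 3 = 32 * (b * M) + 2 * b + 3 := by ring
    rw [e1]
    omega
  · intro T hT
    rw [← hδ]
    exact hP3 T hT

end Par

end Pool.Agent.TH474.RS
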