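import Pool.Agent.TH474.RS.Rand

set_option autoImplicit false
set_option linter.all false

/-!
Consequences of local sparsity of the graph `P` of types.
-/

namespace Pool.Agent.TH474.RS

open Finset Classical

/-- `t ≠ u` are at distance one or two -/
def near {n : ℕ} (P : SimpleGraph (Fin n)) (t u : Fin n) : Prop :=
  t ≠ u ∧ (P.Adj t u ∨ ∃ w, P.Adj t w ∧ P.Adj w u)

lemma near_symm {n : ℕ} {P : SimpleGraph (Fin n)} {t u : Fin n} (h : near P t u) :
    near P u t := by
  refine ⟨h.1.symm, ?_⟩
  rcases h.2 with h | ⟨w, h1, h2⟩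
  · exact Or.inl h.symm
  · exact Or.inr ⟨w, h2.symm, h1.symm⟩

namespace Props

variable {n : ℕ} (P : SimpleGraph (Fin n))

/-- number of adjacent pairs between `X` and `U` -/
noncomputable def cr (X U : Finset (Fin n)) : ℕ := ((X ×ˢ U).filter (fun p => P.Adj p.1 p.2)).card

lemma e2_eq (U : Finset (Fin n)) : e2 P U = cr P U U := rfl

lemma cr_swap (X U : Finset (Fin n)) : cr P X U = cr P U X := by
  unfold cr
  refine Finset.card_bij (fun p _ => (p.2, p.1)) ?_ ?_ ?_
  · rintro ⟨i, j⟩ h
    simp only [Finset.mem_filter, Finset.mem_product] at h ⊢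
    exact ⟨⟨h.1.2, h.1.1⟩, h.2.symm⟩
  · rintro ⟨i, j⟩ _ ⟨i', j'⟩ _ h
    simp only [Prod.mk.injEq] at h ⊢
    exact ⟨h.2, h.1⟩
  · rintro ⟨i, j⟩ h
    simp only [Finset.mem_filter, Finset.mem_product] at h
    refine ⟨(j, i), ?_, rfl⟩
    simp only [Finset.mem_filter, Finset.mem_product]
    exact ⟨⟨h.1.2, h.1.1⟩, h.2.symm⟩

lemma cr_eq_sum (X U : Finset (Fin n)) :
    cr P X U = ∑ x ∈ X, (U.filter (fun u => P.Adj x u)).card := by
  unfold cr
  rw [Finset.card_filter, Finset.sum_product]
  refine Finset.sum_congr rfl (fun x _ => ?_)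
  rw [Finset.card_filter]

lemma cr_union_left {X Y : Finset (Fin n)} (U : Finset (Fin n)) (h : Disjoint X Y) :
    cr P (X ∪ Y) U = cr P X U + cr P Y U := by
  rw [cr_eq_sum, cr_eq_sum, cr_eq_sum, Finset.sum_union h]

lemma e2_union {U X : Finset (Fin n)} (h : Disjoint U X) :
    e2 P (U ∪ X) = e2 P U + 2 * cr P X U + e2 P X := by
  rw [e2_eq, e2_eq, e2_eq, cr_union_left P _ h, cr_swap P U, cr_swap P X, cr_union_left P _ h,
    cr_union_left P _ h, cr_swap P U X]
  ring

lemma cr_ge_of_inj {X U : Finset (Fin n)} {β : Type} (A : Finset β) (f : β → Fin n × Fin n)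
    (hf : Set.InjOn f A) (h : ∀ a ∈ A, (f a).1 ∈ X ∧ (f a).2 ∈ U ∧ P.Adj (f a).1 (f a).2) :
    A.card ≤ cr P X U := by
  unfold cr
  refine Finset.card_le_card_of_injOn f ?_ hf
  intro a ha
  have := h a ha
  simp only [Finset.coe_filter, Finset.mem_product, Set.mem_setOf_eq]
  exact ⟨⟨this.1, this.2.1⟩, this.2.2⟩

/-- local sparsity -/
def Sparse (b v0 : ℕ) : Prop :=
  ∀ U : Finset (Fin n), U.card ≤ v0 → b * e2 P U ≤ 2 * (2 * b - 1) * U.card

/-- cliques have at most four elements -/
lemma clique_le {b v0 : ℕ} (hb : 1 ≤ b) (hv : 5 ≤ v0) (hP : Sparse P b v0) (U : Finset (Fin n))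
    (hU : ∀ t ∈ U, ∀ u ∈ U, t ≠ u → P.Adj t u) : U.card ≤ 4 := by
  by_contra hcon
  push Not at hcon
  obtain ⟨W, hWU, hW⟩ := Finset.exists_subset_card_eq (show 5 ≤ U.card by omega)
  have h1 := hP W (by omega)
  have h2 : W.offDiag.card ≤ e2 P W := by
    unfold e2
    apply Finset.card_le_card
    intro p hp
    rw [Finset.mem_offDiag] at hp
    rw [Finset.mem_filter, Finset.mem_product]
    exact ⟨⟨hp.1, hp.2.1⟩, hU _ (hWU hp.1) _ (hWU hp.2.1) hp.2.2⟩
  rw [Finset.offDiag_card, hW] at h2
  rw [hW] at h1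
  have h3 : b * 20 ≤ b * e2 P W := Nat.mul_le_mul_left b h2
  omega

/-- a set of types any two of which are adjacent or not near is small -/
lemma spread_le {b v0 M : ℕ} (hb : 1 ≤ b) (hn : 1 ≤ n) (hv : 5 ≤ v0) (hP : Sparse P b v0)
    (hd : ∀ t, n ≤ 8 * M * dg P t) (U : Finset (Fin n))
    (hU : ∀ t ∈ U, ∀ u ∈ U, near P t u → P.Adj t u) : U.card ≤ 32 * M := by
  have h1 : ∑ t ∈ U, dg P t ≤ 4 * n := by
    have e1 : ∑ t ∈ U, dg P t = cr P U univ := by
      rw [cr_eq_sum]; rfl
    rw [e1, cr_swap, cr_eq_sum]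
    calc ∑ z ∈ (univ : Finset (Fin n)), (U.filter (fun t => P.Adj z t)).card
        ≤ ∑ z ∈ (univ : Finset (Fin n)), 4 := by
          refine Finset.sum_le_sum (fun z _ => ?_)
          apply clique_le P hb hv hP
          intro t ht u hu htu
          rw [Finset.mem_filter] at ht hu
          exact hU t ht.1 u hu.1 ⟨htu, Or.inr ⟨z, ht.2.symm, hu.2⟩⟩
      _ = 4 * n := by
          rw [Finset.sum_const, Finset.card_univ, Fintype.card_fin, smul_eq_mul, mul_comm]
  have h2 : U.card * n ≤ 8 * M * ∑ t ∈ U, dg P t := by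
    rw [Finset.mul_sum, ← smul_eq_mul, ← Finset.sum_const]
    exact Finset.sum_le_sum (fun t _ => hd t)
  have h3 : U.card * n ≤ 32 * M * n := by
    calc U.card * n ≤ 8 * M * ∑ t ∈ U, dg P t := h2
      _ ≤ 8 * M * (4 * n) := Nat.mul_le_mul_left _ h1
      _ = _ := by ring
  exact Nat.le_of_mul_le_mul_right h3 hn

lemma arith_one (b r cr e U i E : ℕ) (hb : 1 ≤ b) (hcr : 2 ≤ cr)
    (h : 2 * (2 * b - 1) * U + 2 * i ≤ b * E + 2 * (2 * b - 1) * r) :
    2 * (2 * b - 1) * (U + 1) + 2 * (i + 1) ≤ b * (E + 2 * cr + e) + 2 * (2 * b - 1) * r := by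
  obtain ⟨c, rfl⟩ : ∃ c, b = c + 1 := ⟨b - 1, by omega⟩
  have hc2 : 2 * (c + 1) - 1 = 2 * c + 1 := by omega
  rw [hc2] at h ⊢
  have h1 : (c + 1) * 2 ≤ (c + 1) * cr := Nat.mul_le_mul_left _ hcr
  have h2 : (c + 1) * (E + 2 * cr + e) = (c + 1) * E + 2 * ((c + 1) * cr) + (c + 1) * e := by ring
  have h3 : 2 * (2 * c + 1) * (U + 1) = 2 * (2 * c + 1) * U + (4 * c + 2) := by ring
  rw [h2, h3]
  omega

lemma arith_two (b r W cr e U i E : ℕ) (hb : 1 ≤ b) (hr : r = b + 1) (hW : W ≤ b)
    (hcr : r ≤ cr) (he : 2 * W ≤ e)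
    (h : 2 * (2 * b - 1) * U + 2 * i ≤ b * E + 2 * (2 * b - 1) * r) :
    2 * (2 * b - 1) * (U + (W + 1)) + 2 * (i + 1)
      ≤ b * (E + 2 * cr + e) + 2 * (2 * b - 1) * r := by
  obtain ⟨d, rfl⟩ : ∃ d, b = W + d := ⟨b - W, by omega⟩
  obtain ⟨c, hc⟩ : ∃ c, W + d = c + 1 := ⟨W + d - 1, by omega⟩
  have hc2 : 2 * (W + d) - 1 = 2 * c + 1 := by omega
  rw [hc2] at h ⊢
  have h1 : (W + d) * r ≤ (W + d) * cr := Nat.mul_le_mul_left _ hcr
  have h1' : (W + d) * (2 * W) ≤ (W + d) * e := Nat.mul_le_mul_left _ he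
  have h2 : (W + d) * (E + 2 * cr + e) = (W + d) * E + 2 * ((W + d) * cr) + (W + d) * e := by
    ring
  have h3 : 2 * (2 * c + 1) * (U + (W + 1)) = 2 * (2 * c + 1) * U + 2 * (2 * c + 1) * (W + 1) := by
    ring
  rw [h2, h3]
  have h4 : 2 * (2 * c + 1) * (W + 1) + 2 ≤ 2 * ((W + d) * r) + (W + d) * (2 * W) := by
    subst hr
    have hcz : (c : ℤ) = W + d - 1 := by
      have : ((W + d : ℕ) : ℤ) = ((c + 1 : ℕ) : ℤ) := by exact_mod_cast hc
      push_cast at this
      linarith
    zify
    rw [hcz]
    have hx : (0 : ℤ) ≤ W := by positivity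
    have hy : (0 : ℤ) ≤ d := by positivity
    have hz : (1 : ℤ) ≤ (W : ℤ) + d := by exact_mod_cast hb
    nlinarith [mul_nonneg hx hy]
  omega

/-- few types are near to all the elements of a set `Y` and adjacent to many of them -/
lemma few_types {b v0 : ℕ} (hb : 1 ≤ b) (hv : (b + 1) * ((2 * b - 1) * (b + 1) + 2) ≤ v0)
    (hP : Sparse P b v0) (Y Θ : Finset (Fin n))
    (hΘ : ∀ t ∈ Θ, v0 + 1 ≤ (Y.filter (fun u => P.Adj t u)).card ∧ ∀ u ∈ Y, near P t u) :
    Θ.card ≤ b + 3 := by
  by_contra hcon
  push Not at hcon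
  set r := b + 1 with hr
  set N := (2 * b - 1) * r + 1 with hN
  have hv' : r * (N + 1) ≤ v0 := by
    rw [hN]; exact hv
  have hr2 : 2 ≤ r := by omega
  obtain ⟨Θ', hΘ'sub, hΘ'card⟩ := Finset.exists_subset_card_eq (show r + 3 ≤ Θ.card by omega)
  -- a type with few neighbours in Θ'
  have hrv : r + 3 ≤ v0 := by
    have h3 : 3 ≤ r * N := by
      have : 2 ≤ N := by
        have : 1 * 1 ≤ (2 * b - 1) * r := Nat.mul_le_mul (by omega) (by omega)
        omega
      calc 3 ≤ 2 * 2 := by norm_num
        _ ≤ r * N := Nat.mul_le_mul hr2 this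
    nlinarith
  have hex : ∃ t1 ∈ Θ', (Θ'.filter (fun u => P.Adj t1 u)).card ≤ 3 := by
    by_contra hno
    push Not at hno
    have h1 := hP Θ' (by omega)
    have h2 : Θ'.card * 4 ≤ e2 P Θ' := by
      rw [e2_eq, cr_eq_sum, ← smul_eq_mul, ← Finset.sum_const]
      exact Finset.sum_le_sum (fun t ht => hno t ht)
    rw [hΘ'card] at h1 h2
    have h3 : b * ((r + 3) * 4) ≤ b * e2 P Θ' := Nat.mul_le_mul_left b h2
    have h4 : b * ((r + 3) * 4) ≤ 2 * (2 * b - 1) * (r + 3) := h3.trans h1
    obtain ⟨c, hc⟩ : ∃ c, b = c + 1 := ⟨b - 1, by omega⟩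
    rw [hc] at h4
    have h5 : 2 * (c + 1) - 1 = 2 * c + 1 := by omega
    rw [h5] at h4
    nlinarith
  obtain ⟨t1, ht1, ht1d⟩ := hex
  set A := (Θ'.erase t1).filter (fun u => ¬ P.Adj t1 u) with hA
  have hAcard : r - 1 ≤ A.card := by
    have h1 := Finset.card_filter_add_card_filter_not (s := Θ'.erase t1) (fun u => P.Adj t1 u)
    have h2 : ((Θ'.erase t1).filter (fun u => P.Adj t1 u)).card ≤ 3 :=
      (Finset.card_le_card (Finset.filter_subset_filter _ (Finset.erase_subset _ _))).trans ht1d
    rw [Finset.card_erase_of_mem ht1, hΘ'card] at h1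
    have h3 : ((Θ'.erase t1).filter (fun u => ¬ P.Adj t1 u)).card = A.card := rfl
    omega
  obtain ⟨A', hA'sub, hA'card⟩ := Finset.exists_subset_card_eq hAcard
  have hA'1 : ∀ t ∈ A', t ≠ t1 ∧ ¬ P.Adj t1 t ∧ t ∈ Θ := by
    intro t ht
    have := hA'sub ht
    rw [hA, Finset.mem_filter, Finset.mem_erase] at this
    exact ⟨this.1.1, this.2, hΘ'sub this.1.2⟩
  have ht1A' : t1 ∉ A' := fun h => (hA'1 t1 h).1 rfl
  have hgrow : ∀ i : ℕ, i ≤ N → ∃ U : Finset (Fin n), insert t1 A' ⊆ U ∧ U.card ≤ r + i * r ∧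
      2 * (2 * b - 1) * U.card + 2 * i ≤ b * e2 P U + 2 * (2 * b - 1) * r := by
    intro i
    induction i with
    | zero =>
      intro _
      refine ⟨insert t1 A', Finset.Subset.refl _, ?_, ?_⟩
      · rw [Finset.card_insert_of_notMem ht1A', hA'card]; omega
      · rw [Finset.card_insert_of_notMem ht1A', hA'card]
        have : r - 1 + 1 = r := by omega
        rw [this]
        omega
    | succ i ih =>
      intro hi
      obtain ⟨U, hU1, hU2, hU3⟩ := ih (by omega)
      have hUv : U.card ≤ v0 := by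
        have : r + i * r ≤ r * (N + 1) := by nlinarith
        omega
      obtain ⟨a, ha, haU⟩ : ∃ a ∈ Y.filter (fun u => P.Adj t1 u), a ∉ U := by
        by_contra hno
        push Not at hno
        have h1 := Finset.card_le_card (show Y.filter (fun u => P.Adj t1 u) ⊆ U from hno)
        have h2 := (hΘ t1 (hΘ'sub ht1)).1
        omega
      rw [Finset.mem_filter] at ha
      have ht1U : t1 ∈ U := hU1 (Finset.mem_insert_self _ _)
      by_cases hcase : ∃ u ∈ U, u ≠ t1 ∧ P.Adj a u
      · obtain ⟨u, hu, hut, hau⟩ := hcase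
        refine ⟨U ∪ {a}, hU1.trans Finset.subset_union_left, ?_, ?_⟩
        · have := Finset.card_union_le U {a}
          rw [Finset.card_singleton] at this
          nlinarith
        · have hdis : Disjoint U {a} := Finset.disjoint_singleton_right.mpr haU
          rw [e2_union P hdis, Finset.card_union_of_disjoint hdis, Finset.card_singleton]
          have hcr : 2 ≤ cr P {a} U := by
            have := cr_ge_of_inj P (X := {a}) (U := U) ({t1, u} : Finset (Fin n))
              (fun x => (a, x)) (by intro x _ y _ h; simpa using h) (by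
                intro x hx
                rw [Finset.mem_insert, Finset.mem_singleton] at hx
                rcases hx with rfl | rfl
                · exact ⟨Finset.mem_singleton_self _, ht1U, ha.2.symm⟩
                · exact ⟨Finset.mem_singleton_self _, hu, hau⟩)
            rwa [Finset.card_pair hut.symm] at this
          exact arith_one b r _ _ _ _ _ hb hcr hU3
      · push Not at hcase
        -- the middle vertices
        have hmid : ∀ t ∈ A', ∃ w, P.Adj t w ∧ P.Adj w a ∧ w ∉ U := by
          intro t ht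
          have h1 := hA'1 t ht
          have htU : t ∈ U := hU1 (Finset.mem_insert_of_mem ht)
          have h2 := (hΘ t h1.2.2).2 a ha.1
          rcases h2.2 with h3 | ⟨w, h3, h4⟩
          · exact absurd h3.symm (hcase t htU h1.1)
          · refine ⟨w, h3, h4, fun hwU => ?_⟩
            by_cases hw : w = t1
            · subst hw
              exact h1.2.1 h3.symm
            · exact hcase w hwU hw h4.symm
        choose! w hw1 hw2 hw3 using hmid
        set W := A'.image w with hW
        have haW : a ∉ W := by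
          rw [hW, Finset.mem_image]
          rintro ⟨t, ht, rfl⟩
          exact (hw2 t ht).ne rfl
        have hWU : Disjoint U W := by
          rw [Finset.disjoint_left]
          intro x hx hxW
          rw [hW, Finset.mem_image] at hxW
          obtain ⟨t, ht, rfl⟩ := hxW
          exact hw3 t ht hx
        have hdis : Disjoint U (insert a W) := by
          rw [Finset.disjoint_insert_right]
          exact ⟨haU, hWU⟩
        have hWc : W.card ≤ r - 1 := by
          rw [hW, ← hA'card]; exact Finset.card_image_le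
        refine ⟨U ∪ insert a W, hU1.trans Finset.subset_union_left, ?_, ?_⟩
        · rw [Finset.card_union_of_disjoint hdis, Finset.card_insert_of_notMem haW]
          have : (i + 1) * r = i * r + r := by ring
          omega
        · rw [e2_union P hdis, Finset.card_union_of_disjoint hdis,
            Finset.card_insert_of_notMem haW]
          have hcr : r ≤ cr P (insert a W) U := by
            have h1 := cr_ge_of_inj P (X := insert a W) (U := U) (insert t1 A')
              (fun x => (if x = t1 then a else w x, x))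
              (by intro x _ y _ h; simp only [Prod.mk.injEq] at h; exact h.2) (by
                intro x hx
                have hxU := hU1 hx
                rw [Finset.mem_insert] at hx
                rcases hx with rfl | hx
                · simp only [if_true]
                  exact ⟨Finset.mem_insert_self _ _, hxU, ha.2.symm⟩
                · have hne := (hA'1 x hx).1
                  simp only [hne, if_false]
                  exact ⟨Finset.mem_insert_of_mem (Finset.mem_image_of_mem w hx), hxU,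
                    (hw1 x hx).symm⟩)
            rw [Finset.card_insert_of_notMem ht1A', hA'card] at h1
            omega
          have he : 2 * W.card ≤ e2 P (insert a W) := by
            have h2 : insert a W = W ∪ {a} := by
              rw [Finset.union_comm, Finset.insert_eq]
            have hd2 : Disjoint W {a} := Finset.disjoint_singleton_right.mpr haW
            rw [h2, e2_union P hd2]
            have h3 : W.card ≤ cr P {a} W :=
              cr_ge_of_inj P (X := {a}) (U := W) W (fun x => (a, x))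
                (by intro x _ y _ h; simpa using h) (by
                  intro x hx
                  refine ⟨Finset.mem_singleton_self _, hx, ?_⟩
                  rw [hW, Finset.mem_image] at hx
                  obtain ⟨t, ht, rfl⟩ := hx
                  exact (hw2 t ht).symm)
            omega
          exact arith_two b r _ _ _ _ _ _ hb hr (by omega) hcr he hU3
  obtain ⟨U, -, hU2, hU3⟩ := hgrow N le_rfl
  have hUv : U.card ≤ v0 := by
    have : r + N * r = r * (N + 1) := by ring
    omega
  have h1 := hP U hUv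
  have h2 : 2 * N ≤ 2 * (2 * b - 1) * r := by omega
  have h3 : 2 * (2 * b - 1) * r = 2 * ((2 * b - 1) * r) := by ring
  omega

end Props

end Pool.Agent.TH474.RS
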