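import Pool.Agent.TH474.RS.Moment

set_option autoImplicit false
set_option linter.all false

/-!
A sparse random graph `P` on `n` types: small sets span few edges, sets of size `K` span many,
all degrees are large.
-/

namespace Pool.Agent.TH474.RS

open Finset

/-- number of ordered adjacent pairs in `U` (twice the number of edges) -/
noncomputable def e2 {n : ℕ} (P : SimpleGraph (Fin n)) (U : Finset (Fin n)) : ℕ := by
  classical exact ((U ×ˢ U).filter (fun p => P.Adj p.1 p.2)).card

/-- the degree of `t` -/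
noncomputable def dg {n : ℕ} (P : SimpleGraph (Fin n)) (t : Fin n) : ℕ := by
  classical exact (univ.filter (fun u => P.Adj t u)).card

namespace Rand

variable {n M : ℕ} [NeZero M]

/-- the graph of `ω` -/
def gr (ω : Fin n × Fin n → Fin M) : SimpleGraph (Fin n) where
  Adj i j := i ≠ j ∧ ω (min i j, max i j) = 0
  symm := ⟨fun i j h => by
    refine ⟨h.1.symm, ?_⟩
    rw [min_comm, max_comm]
    exact h.2⟩
  loopless := ⟨fun i h => h.1 rfl⟩

lemma half (U : Finset (Fin n)) (R : Fin n → Fin n → Prop) [DecidableRel R]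
    (hs : ∀ i j, R i j → R j i) (hi : ∀ i, ¬ R i i) :
    ((U ×ˢ U).filter (fun p => R p.1 p.2)).card
      = 2 * ((U ×ˢ U).filter (fun p => p.1 < p.2 ∧ R p.1 p.2)).card := by
  have h1 : (U ×ˢ U).filter (fun p => R p.1 p.2)
      = (U ×ˢ U).filter (fun p => p.1 < p.2 ∧ R p.1 p.2) ∪
        (U ×ˢ U).filter (fun p => p.2 < p.1 ∧ R p.1 p.2) := by
    ext ⟨i, j⟩
    simp only [Finset.mem_filter, Finset.mem_union, Finset.mem_product]
    constructor
    · rintro ⟨h, hr⟩
      rcases lt_trichotomy i j with hij | hij | hij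
      · exact Or.inl ⟨h, hij, hr⟩
      · subst hij; exact absurd hr (hi i)
      · exact Or.inr ⟨h, hij, hr⟩
    · rintro (h | h)
      · exact ⟨h.1, h.2.2⟩
      · exact ⟨h.1, h.2.2⟩
  have h2 : Disjoint ((U ×ˢ U).filter (fun p => p.1 < p.2 ∧ R p.1 p.2))
      ((U ×ˢ U).filter (fun p => p.2 < p.1 ∧ R p.1 p.2)) := by
    rw [Finset.disjoint_left]
    intro p h3 h4
    exact absurd (Finset.mem_filter.mp h3).2.1 (not_lt.mpr (Finset.mem_filter.mp h4).2.1.le)
  have h3 : ((U ×ˢ U).filter (fun p => p.2 < p.1 ∧ R p.1 p.2)).card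
      = ((U ×ˢ U).filter (fun p => p.1 < p.2 ∧ R p.1 p.2)).card := by
    refine Finset.card_bij (fun p _ => (p.2, p.1)) ?_ ?_ ?_
    · rintro ⟨i, j⟩ h
      simp only [Finset.mem_filter, Finset.mem_product] at h ⊢
      exact ⟨⟨h.1.2, h.1.1⟩, h.2.1, hs _ _ h.2.2⟩
    · rintro ⟨i, j⟩ _ ⟨i', j'⟩ _ h
      simp only [Prod.mk.injEq] at h ⊢
      exact ⟨h.2, h.1⟩
    · rintro ⟨i, j⟩ h
      simp only [Finset.mem_filter, Finset.mem_product] at h
      refine ⟨(j, i), ?_, rfl⟩
      simp only [Finset.mem_filter, Finset.mem_product]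
      exact ⟨⟨h.1.2, h.1.1⟩, h.2.1, hs _ _ h.2.2⟩
  rw [h1, Finset.card_union_of_disjoint h2, h3]
  ring

/-- the pairs in `U` -/
def prs (U : Finset (Fin n)) : Finset (Fin n × Fin n) := (U ×ˢ U).filter (fun p => p.1 < p.2)

lemma prs_card (U : Finset (Fin n)) : 2 * (prs U).card = U.card * U.card - U.card := by
  have h1 := half U (fun i j => i ≠ j) (fun i j h => h.symm) (fun i h => h rfl)
  have h2 : (U ×ˢ U).filter (fun p => p.1 < p.2 ∧ p.1 ≠ p.2) = prs U := by
    apply Finset.filter_congr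
    intro p _
    constructor
    · exact fun h => h.1
    · exact fun h => ⟨h, h.ne⟩
  rw [h2] at h1
  rw [← h1]
  have h3 := Finset.offDiag_card (s := U)
  rw [← h3]
  congr 1
  ext p
  simp only [Finset.mem_filter, Finset.mem_product, Finset.mem_offDiag]
  tauto

lemma e2_gr (ω : Fin n × Fin n → Fin M) (U : Finset (Fin n)) :
    e2 (gr ω) U = 2 * Mom.Nz (prs U) ω := by
  classical
  unfold e2
  have h1 := half U (fun i j => (gr ω).Adj i j) (fun i j h => h.symm) (fun i h => (gr ω).loopless.irrefl i h)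
  rw [show ((U ×ˢ U).filter (fun p => (gr ω).Adj p.1 p.2)).card
    = 2 * ((U ×ˢ U).filter (fun p => p.1 < p.2 ∧ (gr ω).Adj p.1 p.2)).card from h1]
  congr 1
  unfold Mom.Nz prs
  rw [Finset.filter_filter]
  congr 1
  apply Finset.filter_congr
  rintro ⟨i, j⟩ _
  constructor
  · rintro ⟨h, h2, h3⟩
    refine ⟨h, ?_⟩
    simp only at h h3 ⊢
    rwa [min_eq_left h.le, max_eq_right h.le] at h3
  · rintro ⟨h, h3⟩
    refine ⟨h, h.ne, ?_⟩
    simp only at h h3 ⊢
    rwa [min_eq_left h.le, max_eq_right h.le]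

/-- the pairs containing `t` -/
def star (t : Fin n) : Finset (Fin n × Fin n) :=
  (univ.erase t).image (fun u => (min t u, max t u))

lemma star_inj (t : Fin n) : Set.InjOn (fun u : Fin n => (min t u, max t u)) ↑(univ.erase t) := by
  intro u hu v hv h
  simp only [Prod.mk.injEq] at h
  rcases le_total t u with h1 | h1 <;> rcases le_total t v with h2 | h2
  · rw [max_eq_right h1, max_eq_right h2] at h; exact h.2
  · rw [max_eq_right h1, max_eq_left h2, min_eq_left h1, min_eq_right h2] at h
    exact h.2.trans h.1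
  · rw [max_eq_left h1, max_eq_right h2, min_eq_right h1, min_eq_left h2] at h
    exact h.1.trans h.2
  · rw [min_eq_right h1, min_eq_right h2] at h; exact h.1

lemma star_card (t : Fin n) : (star t).card = n - 1 := by
  unfold star
  rw [Finset.card_image_of_injOn (star_inj t), Finset.card_erase_of_mem (Finset.mem_univ t),
    Finset.card_univ, Fintype.card_fin]

lemma dg_gr (ω : Fin n × Fin n → Fin M) (t : Fin n) : dg (gr ω) t = Mom.Nz (star t) ω := by
  classical
  unfold dg Mom.Nz star
  rw [Finset.filter_image, Finset.card_image_of_injOn]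
  · congr 1
    ext u
    simp only [Finset.mem_filter, Finset.mem_univ, true_and, Finset.mem_erase, and_true]
    constructor
    · rintro ⟨h1, h2⟩
      exact ⟨h1.symm, h2⟩
    · rintro ⟨h1, h2⟩
      exact ⟨h1.symm, h2⟩
  · refine (star_inj t).mono ?_
    intro u hu
    have := (Finset.mem_filter.mp (Finset.mem_coe.mp hu)).1
    exact this

/-- existence of the graph of types -/
theorem exists_graph (b v0 lam K δ : ℕ) (hb : 1 ≤ b) (hn : 1 ≤ n) (hlam : 1 ≤ lam)
    (h1 : (16 * n) ^ b ≤ lam ^ (2 * b - 1)) (h2 : lam * v0 ^ 2 ≤ M)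
    (h3 : (n : ℝ) * (2 ^ (n / (8 * M) + 1) * Real.exp (-(((n - 1 : ℕ) : ℝ) / (2 * M)))) ≤ 1 / 4)
    (h4 : (n : ℝ) ^ K * (2 ^ (δ * K) * Real.exp (-(((K * K - K : ℕ) : ℝ) / (4 * M)))) ≤ 1 / 4) :
    ∃ P : SimpleGraph (Fin n),
      (∀ U : Finset (Fin n), U.card ≤ v0 → b * e2 P U ≤ 2 * (2 * b - 1) * U.card) ∧
      (∀ t, n ≤ 8 * M * dg P t) ∧
      (∀ T : Finset (Fin n), T.card = K → 2 * δ * K ≤ e2 P T) := by
  classical
  by_contra hcon
  push Not at hcon
  set Ω := Fin n × Fin n → Fin M with hΩ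
  have hM0 : (0 : ℝ) < M := by exact_mod_cast Nat.pos_of_ne_zero (NeZero.ne M)
  have hc0 : (0 : ℝ) < (Fintype.card Ω : ℝ) := by
    exact_mod_cast Fintype.card_pos
  -- bad events
  set e0 : ℕ → ℕ := fun v => (2 * b - 1) * v / b + 1 with he0
  set A1 : Finset Ω := (univ.filter (fun U : Finset (Fin n) => U.Nonempty ∧ U.card ≤ v0)).biUnion
    (fun U => univ.filter (fun ω : Ω => e0 U.card ≤ Mom.Nz (prs U) ω)) with hA1
  set A2 : Finset Ω := (univ : Finset (Fin n)).biUnion
    (fun t => univ.filter (fun ω : Ω => Mom.Nz (star t) ω < n / (8 * M) + 1)) with hA2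
  set A3 : Finset Ω := (powersetCard K (univ : Finset (Fin n))).biUnion
    (fun T => univ.filter (fun ω : Ω => Mom.Nz (prs T) ω < δ * K)) with hA3
  have hcover : (univ : Finset Ω) ⊆ A1 ∪ A2 ∪ A3 := by
    intro ω _
    by_contra hω
    simp only [Finset.mem_union, not_or] at hω
    obtain ⟨⟨g1, g2⟩, g3⟩ := hω
    have q1 : ∀ U : Finset (Fin n), U.card ≤ v0 → b * e2 (gr ω) U ≤ 2 * (2 * b - 1) * U.card := by
      intro U hU
      rcases U.eq_empty_or_nonempty with hUe | hUn
      · subst hUe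
        simp [e2]
      · have : ¬ e0 U.card ≤ Mom.Nz (prs U) ω := by
          intro h
          apply g1
          rw [hA1, Finset.mem_biUnion]
          exact ⟨U, Finset.mem_filter.mpr ⟨Finset.mem_univ _, hUn, hU⟩,
            Finset.mem_filter.mpr ⟨Finset.mem_univ _, h⟩⟩
        rw [e2_gr]
        simp only [he0] at this
        have h5 : Mom.Nz (prs U) ω ≤ (2 * b - 1) * U.card / b := by omega
        have h6 := (Nat.le_div_iff_mul_le (by omega : 0 < b)).mp h5
        nlinarith
    have q2 : ∀ t, n ≤ 8 * M * dg (gr ω) t := by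
      intro t
      have : ¬ Mom.Nz (star t) ω < n / (8 * M) + 1 := by
        intro h
        apply g2
        rw [hA2, Finset.mem_biUnion]
        exact ⟨t, Finset.mem_univ _, Finset.mem_filter.mpr ⟨Finset.mem_univ _, h⟩⟩
      rw [dg_gr]
      have h5 : n / (8 * M) < Mom.Nz (star t) ω := by omega
      have hM' : 0 < 8 * M := by
        have := Nat.pos_of_ne_zero (NeZero.ne M); omega
      have h6 := (Nat.div_lt_iff_lt_mul hM').mp h5
      nlinarith
    obtain ⟨T, hT, hT2⟩ := hcon (gr ω) q1 q2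
    apply g3
    rw [hA3, Finset.mem_biUnion]
    refine ⟨T, Finset.mem_powersetCard.mpr ⟨Finset.subset_univ _, hT⟩,
      Finset.mem_filter.mpr ⟨Finset.mem_univ _, ?_⟩⟩
    rw [e2_gr] at hT2
    nlinarith
  -- probabilities
  have p2 : (A2.card : ℝ) ≤ (Fintype.card Ω : ℝ) * (1 / 4) := by
    have : A2.card ≤ ∑ t : Fin n, (univ.filter
        (fun ω : Ω => Mom.Nz (star t) ω < n / (8 * M) + 1)).card := Finset.card_biUnion_le
    have h5 : (A2.card : ℝ) ≤ ∑ t : Fin n, ((univ.filter
        (fun ω : Ω => Mom.Nz (star t) ω < n / (8 * M) + 1)).card : ℝ) := by exact_mod_cast this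
    refine h5.trans ?_
    have h6 : ∀ t : Fin n, ((univ.filter
        (fun ω : Ω => Mom.Nz (star t) ω < n / (8 * M) + 1)).card : ℝ)
        ≤ (Fintype.card Ω : ℝ) * (2 ^ (n / (8 * M) + 1) *
          Real.exp (-(((n - 1 : ℕ) : ℝ) / (2 * M)))) := by
      intro t
      have := Mom.lower (M := M) (star t) (n / (8 * M) + 1)
      rw [star_card] at this
      exact this
    refine (Finset.sum_le_sum (fun t _ => h6 t)).trans ?_
    rw [Finset.sum_const, Finset.card_univ, Fintype.card_fin, nsmul_eq_mul]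
    calc (n : ℝ) * ((Fintype.card Ω : ℝ) * (2 ^ (n / (8 * M) + 1) *
          Real.exp (-(((n - 1 : ℕ) : ℝ) / (2 * M)))))
        = (Fintype.card Ω : ℝ) * ((n : ℝ) * (2 ^ (n / (8 * M) + 1) *
          Real.exp (-(((n - 1 : ℕ) : ℝ) / (2 * M))))) := by ring
      _ ≤ _ := mul_le_mul_of_nonneg_left h3 hc0.le
  have p3 : (A3.card : ℝ) ≤ (Fintype.card Ω : ℝ) * (1 / 4) := by
    have : A3.card ≤ ∑ T ∈ powersetCard K (univ : Finset (Fin n)), (univ.filter
        (fun ω : Ω => Mom.Nz (prs T) ω < δ * K)).card := Finset.card_biUnion_le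
    have h5 : (A3.card : ℝ) ≤ ∑ T ∈ powersetCard K (univ : Finset (Fin n)), ((univ.filter
        (fun ω : Ω => Mom.Nz (prs T) ω < δ * K)).card : ℝ) := by exact_mod_cast this
    refine h5.trans ?_
    have h6 : ∀ T ∈ powersetCard K (univ : Finset (Fin n)), ((univ.filter
        (fun ω : Ω => Mom.Nz (prs T) ω < δ * K)).card : ℝ)
        ≤ (Fintype.card Ω : ℝ) * (2 ^ (δ * K) *
          Real.exp (-(((K * K - K : ℕ) : ℝ) / (4 * M)))) := by
      intro T hT
      have := Mom.lower (M := M) (prs T) (δ * K)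
      have h7 := prs_card T
      rw [(Finset.mem_powersetCard.mp hT).2] at h7
      have h8 : (((prs T).card : ℝ) / (2 * M)) = (((K * K - K : ℕ) : ℝ) / (4 * M)) := by
        rw [← h7]; push_cast; field_simp; ring
      rw [h8] at this
      exact this
    refine (Finset.sum_le_sum h6).trans ?_
    rw [Finset.sum_const, Finset.card_powersetCard, Finset.card_univ, Fintype.card_fin,
      nsmul_eq_mul]
    have h9 : ((n.choose K : ℕ) : ℝ) ≤ (n : ℝ) ^ K := by
      exact_mod_cast Nat.choose_le_pow n K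
    calc ((n.choose K : ℕ) : ℝ) * ((Fintype.card Ω : ℝ) * (2 ^ (δ * K) *
          Real.exp (-(((K * K - K : ℕ) : ℝ) / (4 * M)))))
        ≤ (n : ℝ) ^ K * ((Fintype.card Ω : ℝ) * (2 ^ (δ * K) *
          Real.exp (-(((K * K - K : ℕ) : ℝ) / (4 * M))))) :=
          mul_le_mul_of_nonneg_right h9 (by positivity)
      _ = (Fintype.card Ω : ℝ) * ((n : ℝ) ^ K * (2 ^ (δ * K) *
          Real.exp (-(((K * K - K : ℕ) : ℝ) / (4 * M))))) := by ring
      _ ≤ _ := mul_le_mul_of_nonneg_left h4 hc0.le
  have p1 : (A1.card : ℝ) ≤ (Fintype.card Ω : ℝ) * (1 / 4) := by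
    set z : ℝ := 1 / (16 * n) with hz
    have hn0 : (0 : ℝ) < n := by exact_mod_cast hn
    have hz0 : 0 < z := by positivity
    have : A1.card ≤ ∑ U ∈ univ.filter (fun U : Finset (Fin n) => U.Nonempty ∧ U.card ≤ v0),
        (univ.filter (fun ω : Ω => e0 U.card ≤ Mom.Nz (prs U) ω)).card := Finset.card_biUnion_le
    have h5 : (A1.card : ℝ) ≤ ∑ U ∈ univ.filter
        (fun U : Finset (Fin n) => U.Nonempty ∧ U.card ≤ v0),
        ((univ.filter (fun ω : Ω => e0 U.card ≤ Mom.Nz (prs U) ω)).card : ℝ) := by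
      exact_mod_cast this
    refine h5.trans ?_
    have h6 : ∀ U ∈ univ.filter (fun U : Finset (Fin n) => U.Nonempty ∧ U.card ≤ v0),
        ((univ.filter (fun ω : Ω => e0 U.card ≤ Mom.Nz (prs U) ω)).card : ℝ)
        ≤ (Fintype.card Ω : ℝ) * (2 * z ^ U.card) := by
      intro U hU
      have hUn := (Finset.mem_filter.mp hU).2.1
      have hUv := (Finset.mem_filter.mp hU).2.2
      have hlamR : (1 : ℝ) ≤ lam := by exact_mod_cast hlam
      have h7 := Mom.upper (M := M) (prs U) (e0 U.card) lam hlamR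
      -- exp bound
      have h8 : Real.exp ((lam : ℝ) * (prs U).card / M) ≤ 2 := by
        have h9 : (lam : ℝ) * (prs U).card / M ≤ 1 / 2 := by
          rw [div_le_iff₀ hM0]
          have h10 : 2 * (prs U).card ≤ v0 ^ 2 := by
            rw [prs_card U, sq]
            exact (Nat.sub_le _ _).trans (Nat.mul_le_mul hUv hUv)
          have h11 : (2 : ℝ) * (prs U).card ≤ (v0 : ℝ) ^ 2 := by exact_mod_cast h10
          have h12 : (lam : ℝ) * (v0 : ℝ) ^ 2 ≤ M := by exact_mod_cast h2
          nlinarith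
        calc Real.exp ((lam : ℝ) * (prs U).card / M) ≤ Real.exp (1 / 2) := Real.exp_le_exp.mpr h9
          _ ≤ 2 := by
              have h13 := Real.exp_one_lt_d9
              have h14 : Real.exp (1 / 2) * Real.exp (1 / 2) = Real.exp 1 := by
                rw [← Real.exp_add]; norm_num
              nlinarith [Real.exp_pos (1 / 2 : ℝ)]
      -- lam power
      have h15 : (16 * (n : ℝ)) ^ U.card ≤ (lam : ℝ) ^ (e0 U.card) := by
        have h16 : ((16 * n) ^ U.card) ^ b ≤ (lam ^ (e0 U.card)) ^ b := by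
          rw [← pow_mul, ← pow_mul]
          have h17 : (2 * b - 1) * U.card ≤ e0 U.card * b := by
            simp only [he0]
            have := Nat.lt_div_mul_add (a := (2 * b - 1) * U.card) (by omega : 0 < b)
            nlinarith
          calc (16 * n) ^ (U.card * b) = ((16 * n) ^ b) ^ U.card := pow_mul' _ _ _
            _ ≤ (lam ^ (2 * b - 1)) ^ U.card := Nat.pow_le_pow_left h1 _
            _ = lam ^ ((2 * b - 1) * U.card) := by rw [← pow_mul]
            _ ≤ lam ^ (e0 U.card * b) := Nat.pow_le_pow_right (by omega) h17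
        have h18 := (Nat.pow_le_pow_iff_left (by omega : b ≠ 0)).mp h16
        exact_mod_cast h18
      have h19 : (0 : ℝ) < (16 * (n : ℝ)) ^ U.card := by positivity
      have h20 : ((univ.filter (fun ω : Ω => e0 U.card ≤ Mom.Nz (prs U) ω)).card : ℝ)
          * (16 * (n : ℝ)) ^ U.card ≤ (Fintype.card Ω : ℝ) * 2 := by
        calc _ ≤ ((univ.filter (fun ω : Ω => e0 U.card ≤ Mom.Nz (prs U) ω)).card : ℝ)
              * (lam : ℝ) ^ (e0 U.card) :=
              mul_le_mul_of_nonneg_left h15 (Nat.cast_nonneg _)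
          _ ≤ (Fintype.card Ω : ℝ) * Real.exp ((lam : ℝ) * (prs U).card / M) := h7
          _ ≤ _ := mul_le_mul_of_nonneg_left h8 hc0.le
      rw [← le_div_iff₀ h19] at h20
      refine h20.trans (le_of_eq ?_)
      rw [hz, div_pow, one_pow]
      ring
    refine (Finset.sum_le_sum h6).trans ?_
    rw [← Finset.mul_sum]
    refine mul_le_mul_of_nonneg_left ?_ hc0.le
    rw [← Finset.mul_sum]
    have h21 : ∑ U ∈ univ.filter (fun U : Finset (Fin n) => U.Nonempty ∧ U.card ≤ v0), z ^ U.card
        ≤ (1 + z) ^ n - 1 := by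
      have h22 : ∑ U ∈ (univ : Finset (Finset (Fin n))), z ^ U.card = (1 + z) ^ n := by
        have h23 := Finset.sum_pow_mul_eq_add_pow z (1 : ℝ) (univ : Finset (Fin n))
        simp only [one_pow, mul_one, Finset.card_univ, Fintype.card_fin] at h23
        rw [← Finset.powerset_univ, h23, add_comm]
      have h24 : ∑ U ∈ univ.filter (fun U : Finset (Fin n) => U.Nonempty ∧ U.card ≤ v0),
          z ^ U.card ≤ ∑ U ∈ (univ : Finset (Finset (Fin n))).erase ∅, z ^ U.card := by
        refine Finset.sum_le_sum_of_subset_of_nonneg ?_ (fun _ _ _ => by positivity)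
        intro U hU
        rw [Finset.mem_erase]
        exact ⟨(Finset.mem_filter.mp hU).2.1.ne_empty, Finset.mem_univ _⟩
      refine h24.trans ?_
      have h25 := Finset.sum_erase_add (univ : Finset (Finset (Fin n)))
        (fun U : Finset (Fin n) => z ^ U.card) (Finset.mem_univ ∅)
      rw [h22] at h25
      simp only [Finset.card_empty, pow_zero] at h25
      linarith
    have h26 : (1 + z) ^ n ≤ 9 / 8 := by
      have h27 : (1 + z) ≤ Real.exp z := by linarith [Real.add_one_le_exp z]
      calc (1 + z) ^ n ≤ (Real.exp z) ^ n := pow_le_pow_left₀ (by positivity) h27 _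
        _ = Real.exp (n * z) := by rw [← Real.exp_nat_mul]
        _ = Real.exp (1 / 16) := by
            congr 1
            rw [hz]; field_simp
        _ ≤ 9 / 8 := by
            have h28 := Real.exp_bound_div_one_sub_of_interval (x := 1 / 16) (by norm_num)
              (by norm_num)
            refine h28.trans ?_
            norm_num
    linarith
  have hfin : (Fintype.card Ω : ℝ) ≤ (Fintype.card Ω : ℝ) * (3 / 4) := by
    have h5 := Finset.card_le_card hcover
    rw [Finset.card_univ] at h5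
    have h6 := h5.trans ((Finset.card_union_le _ _).trans
      (Nat.add_le_add_right (Finset.card_union_le _ _) _))
    have h7 : (Fintype.card Ω : ℝ) ≤ (A1.card : ℝ) + A2.card + A3.card := by exact_mod_cast h6
    linarith
  linarith

end Rand

end Pool.Agent.TH474.RS
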