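import Pool.Agent.TH474.RS.Events

set_option autoImplicit false
set_option linter.all false

/-!
A small dominating subset of a relation with large minimum degree.
-/

namespace Pool.Agent.TH474.RS

open Finset Classical

namespace Sel

lemma card_zero {α : Type} [Fintype α] (q : ℕ) [NeZero q] (p : α) :
    ((univ.filter (fun ω : α → Fin q => ω p = 0)).card : ℝ) * q
      ≤ (Fintype.card (α → Fin q) : ℝ) := by
  have h1 := Cnt.card_restrict ({p} : Finset α) (fun _ => ({0} : Finset (Fin q))) 1 (by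
    intro v _; simp)
  rw [Finset.card_singleton, one_pow, one_mul, pow_one] at h1
  have h2 : (univ.filter (fun ω : α → Fin q => ω p = 0)).card
      ≤ LLL.cnt (fun τ : α → Fin q => ∀ v ∈ ({p} : Finset α), τ v ∈ ({0} : Finset (Fin q))) := by
    refine Finset.card_le_card ?_
    intro ω hω
    rw [Finset.mem_filter] at hω
    rw [LLL.mem_ev]
    intro v hv
    rw [Finset.mem_singleton] at hv
    subst hv
    rw [Finset.mem_singleton]
    exact hω.2
  have h3 := (Nat.mul_le_mul_right q h2).trans h1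
  rw [Fintype.card_fun, Fintype.card_fin]
  exact_mod_cast h3

lemma num_exp (q h : ℕ) (hq : 1 ≤ q) :
    (q : ℝ) * (2 ^ h * Real.exp (-(((2 * q * (h + q) : ℕ) : ℝ) / (2 * q)))) ≤ 1 := by
  have hq0 : (0 : ℝ) < q := by exact_mod_cast hq
  have e1 : ((2 * q * (h + q) : ℕ) : ℝ) / (2 * q) = h + q := by
    push_cast
    field_simp
  rw [e1, neg_add, Real.exp_add]
  have h1 : (2 : ℝ) ^ h * Real.exp (-(h : ℝ)) ≤ 1 := by
    have h2 : (2 : ℝ) ^ h ≤ Real.exp h := by
      have h4 : Real.exp (h : ℝ) = Real.exp 1 ^ h := by rw [← Real.exp_nat_mul]; ring_nf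
      rw [h4]
      exact pow_le_pow_left₀ (by norm_num) (by have := Real.exp_one_gt_d9; linarith) h
    rw [Real.exp_neg, ← div_eq_mul_inv, div_le_one (Real.exp_pos _)]
    exact h2
  have h3 : (q : ℝ) * Real.exp (-(q : ℝ)) ≤ 1 := by
    rw [Real.exp_neg, ← div_eq_mul_inv, div_le_one (Real.exp_pos _)]
    linarith [Real.add_one_le_exp (q : ℝ)]
  calc (q : ℝ) * (2 ^ h * (Real.exp (-(h : ℝ)) * Real.exp (-(q : ℝ))))
      = (2 ^ h * Real.exp (-(h : ℝ))) * (q * Real.exp (-(q : ℝ))) := by ring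
    _ ≤ 1 * 1 := mul_le_mul h1 h3 (by positivity) (by norm_num)
    _ = 1 := by norm_num

lemma select {α : Type} [Fintype α] (Z : Finset α) (r : α → α → Prop) (q h : ℕ) (hq : 1 ≤ q)
    (hdeg : ∀ p ∈ Z, 2 * q * (h + q) ≤ (Z.filter (fun p' => r p p')).card) :
    ∃ S ⊆ Z, q * S.card ≤ 2 * Z.card ∧
      ∀ p ∈ Z, p ∉ S → h ≤ (S.filter (fun p' => r p p')).card := by
  haveI : NeZero q := ⟨by omega⟩
  set Nb : α → Finset α := fun p => Z.filter (fun p' => r p p') with hNb
  set S : (α → Fin q) → Finset α := fun ω =>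
    Z.filter (fun p => ω p = 0) ∪ Z.filter (fun p => Mom.Nz (Nb p) ω < h) with hS
  have hq0 : (0 : ℝ) < q := by exact_mod_cast hq
  have hΩ : (0 : ℝ) < (Fintype.card (α → Fin q) : ℝ) := by exact_mod_cast Fintype.card_pos
  have key : ∃ ω, q * (S ω).card ≤ 2 * Z.card := by
    by_contra hcon
    push Not at hcon
    have h1 : ∑ ω : α → Fin q, ((S ω).card : ℝ)
        ≤ ∑ p ∈ Z, (((univ.filter (fun ω : α → Fin q => ω p = 0)).card : ℝ)
          + ((univ.filter (fun ω : α → Fin q => Mom.Nz (Nb p) ω < h)).card : ℝ)) := by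
      have h2 : ∀ ω : α → Fin q, ((S ω).card : ℝ)
          ≤ ∑ p ∈ Z, ((if ω p = 0 then (1 : ℝ) else 0)
            + (if Mom.Nz (Nb p) ω < h then (1 : ℝ) else 0)) := by
        intro ω
        rw [Finset.sum_add_distrib]
        have h3 : ((S ω).card : ℝ) ≤ ((Z.filter (fun p => ω p = 0)).card : ℝ)
            + ((Z.filter (fun p => Mom.Nz (Nb p) ω < h)).card : ℝ) := by
          exact_mod_cast Finset.card_union_le _ _
        refine h3.trans (le_of_eq ?_)
        congr 1
        · rw [Finset.card_filter]; push_cast; rfl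
        · rw [Finset.card_filter]; push_cast; rfl
      refine (Finset.sum_le_sum (fun ω _ => h2 ω)).trans (le_of_eq ?_)
      rw [Finset.sum_comm]
      refine Finset.sum_congr rfl (fun p _ => ?_)
      rw [Finset.sum_add_distrib]
      congr 1
      · rw [Finset.card_filter]; push_cast; rfl
      · rw [Finset.card_filter]; push_cast; rfl
    have h4 : ∀ p ∈ Z, q * (((univ.filter (fun ω : α → Fin q => ω p = 0)).card : ℝ)
          + ((univ.filter (fun ω : α → Fin q => Mom.Nz (Nb p) ω < h)).card : ℝ))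
          ≤ 2 * (Fintype.card (α → Fin q) : ℝ) := by
      intro p hp
      have h5 := card_zero q p
      have h6 := Mom.lower (M := q) (Nb p) h
      have h7 : Real.exp (-(((Nb p).card : ℝ) / (2 * q)))
          ≤ Real.exp (-(((2 * q * (h + q) : ℕ) : ℝ) / (2 * q))) := by
        apply Real.exp_le_exp.mpr
        apply neg_le_neg
        apply div_le_div_of_nonneg_right _ (by positivity)
        exact_mod_cast hdeg p hp
      have h8 := num_exp q h hq
      have h9 : (q : ℝ) * ((univ.filter (fun ω : α → Fin q => Mom.Nz (Nb p) ω < h)).card : ℝ)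
          ≤ (Fintype.card (α → Fin q) : ℝ) := by
        calc _ ≤ (q : ℝ) * ((Fintype.card (α → Fin q) : ℝ) *
              (2 ^ h * Real.exp (-(((Nb p).card : ℝ) / (2 * q))))) :=
              mul_le_mul_of_nonneg_left h6 hq0.le
          _ ≤ (q : ℝ) * ((Fintype.card (α → Fin q) : ℝ) *
              (2 ^ h * Real.exp (-(((2 * q * (h + q) : ℕ) : ℝ) / (2 * q))))) := by
              refine mul_le_mul_of_nonneg_left ?_ hq0.le
              refine mul_le_mul_of_nonneg_left ?_ hΩ.le
              exact mul_le_mul_of_nonneg_left h7 (by positivity)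
          _ = (Fintype.card (α → Fin q) : ℝ) *
              ((q : ℝ) * (2 ^ h * Real.exp (-(((2 * q * (h + q) : ℕ) : ℝ) / (2 * q))))) := by
              ring
          _ ≤ (Fintype.card (α → Fin q) : ℝ) * 1 := mul_le_mul_of_nonneg_left h8 hΩ.le
          _ = _ := mul_one _
      nlinarith
    have h10 : (q : ℝ) * ∑ ω : α → Fin q, ((S ω).card : ℝ)
        ≤ 2 * Z.card * (Fintype.card (α → Fin q) : ℝ) := by
      calc _ ≤ (q : ℝ) * ∑ p ∈ Z, (((univ.filter (fun ω : α → Fin q => ω p = 0)).card : ℝ)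
          + ((univ.filter (fun ω : α → Fin q => Mom.Nz (Nb p) ω < h)).card : ℝ)) :=
            mul_le_mul_of_nonneg_left h1 hq0.le
        _ = ∑ p ∈ Z, (q : ℝ) * (((univ.filter (fun ω : α → Fin q => ω p = 0)).card : ℝ)
          + ((univ.filter (fun ω : α → Fin q => Mom.Nz (Nb p) ω < h)).card : ℝ)) :=
            Finset.mul_sum _ _ _
        _ ≤ ∑ p ∈ Z, 2 * (Fintype.card (α → Fin q) : ℝ) := Finset.sum_le_sum h4
        _ = _ := by rw [Finset.sum_const, nsmul_eq_mul]; ring
    have h11 : 2 * Z.card * (Fintype.card (α → Fin q) : ℝ)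
        < (q : ℝ) * ∑ ω : α → Fin q, ((S ω).card : ℝ) := by
      rw [Finset.mul_sum]
      calc 2 * Z.card * (Fintype.card (α → Fin q) : ℝ)
          = ∑ ω : α → Fin q, (2 * (Z.card : ℝ)) := by
            rw [Finset.sum_const, nsmul_eq_mul, Finset.card_univ]; ring
        _ < ∑ ω : α → Fin q, (q : ℝ) * ((S ω).card : ℝ) := by
            refine Finset.sum_lt_sum_of_nonempty Finset.univ_nonempty (fun ω _ => ?_)
            exact_mod_cast hcon ω
    linarith
  obtain ⟨ω, hω⟩ := key
  refine ⟨S ω, ?_, hω, ?_⟩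
  · exact Finset.union_subset (Finset.filter_subset _ _) (Finset.filter_subset _ _)
  · intro p hp hpS
    have h1 : ¬ Mom.Nz (Nb p) ω < h := by
      intro hlt
      exact hpS (Finset.mem_union_right _ (Finset.mem_filter.mpr ⟨hp, hlt⟩))
    rw [not_lt] at h1
    refine h1.trans (Finset.card_le_card ?_)
    intro x hx
    rw [Finset.mem_filter] at hx
    rw [hNb] at hx
    simp only [Finset.mem_filter] at hx
    rw [Finset.mem_filter]
    exact ⟨Finset.mem_union_left _ (Finset.mem_filter.mpr ⟨hx.1.1, hx.2⟩), hx.1.2⟩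

/-- version with a prescribed element -/
lemma select' {α : Type} [Fintype α] (Z : Finset α) (r : α → α → Prop) (q h : ℕ) (hq : 1 ≤ q)
    (hdeg : ∀ p ∈ Z, 2 * (3 * q) * (h + 3 * q) ≤ (Z.filter (fun p' => r p p')).card)
    (p₀ : α) (hp₀ : p₀ ∈ Z) :
    ∃ S ⊆ Z, p₀ ∈ S ∧ q * S.card ≤ Z.card ∧
      ∀ p ∈ Z, p ∉ S → h ≤ (S.filter (fun p' => r p p')).card := by
  obtain ⟨S, hS, hc, hd⟩ := select Z r (3 * q) h (by omega) hdeg
  refine ⟨insert p₀ S, ?_, Finset.mem_insert_self _ _, ?_, ?_⟩
  · exact Finset.insert_subset hp₀ hS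
  · have h1 := Finset.card_insert_le p₀ S
    have h2 := hdeg p₀ hp₀
    have h3 : (Z.filter (fun p' => r p₀ p')).card ≤ Z.card :=
      Finset.card_le_card (Finset.filter_subset _ _)
    have h4 : 3 * q ≤ 2 * (3 * q) * (h + 3 * q) := by nlinarith
    have h5 : q * (insert p₀ S).card ≤ q * (S.card + 1) := Nat.mul_le_mul_left q h1
    have h6 : 3 * (q * S.card) ≤ 2 * Z.card := by rw [← mul_assoc]; exact hc
    have h7 : q * (S.card + 1) = q * S.card + q := by ring
    omega
  · intro p hp hpS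
    rw [Finset.mem_insert, not_or] at hpS
    refine (hd p hp hpS.2).trans (Finset.card_le_card ?_)
    exact Finset.filter_subset_filter _ (Finset.subset_insert _ _)

end Sel

end Pool.Agent.TH474.RS
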