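import Pool.Agent.TH474.RS.Encode

set_option autoImplicit false
set_option linter.all false

/-!
The local lemma gives a good assignment of types.
-/

namespace Pool.Agent.TH474.RS

open Finset Classical

namespace Tau

variable {V : Type} [Fintype V] {n : ℕ} (D : SimpleGraph V) (P : SimpleGraph (Fin n))

noncomputable def gph (τ : V → Fin n) (X : Finset V) : Finset (V × Fin n) :=
  X.image (fun v => (v, τ v))

lemma gph_fst (τ : V → Fin n) (X : Finset V) : (gph τ X).image Prod.fst = X := by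
  rw [gph, Finset.image_image]
  have : (Prod.fst ∘ fun v => (v, τ v)) = (id : V → V) := rfl
  rw [this, Finset.image_id]

lemma gph_card (τ : V → Fin n) (X : Finset V) : (gph τ X).card = X.card := by
  rw [gph]
  exact Finset.card_image_of_injective _ (fun a b h => (Prod.mk.inj h).1)

lemma mem_gph {τ : V → Fin n} {X : Finset V} {p : V × Fin n} :
    p ∈ gph τ X ↔ p.1 ∈ X ∧ τ p.1 = p.2 := by
  rw [gph, Finset.mem_image]
  constructor
  · rintro ⟨v, hv, rfl⟩
    exact ⟨hv, rfl⟩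
  · rintro ⟨h1, h2⟩
    exact ⟨p.1, h1, by rw [h2]⟩

/-- the vertex set `X` is covered by the neighbourhoods of two adjacent vertices -/
def Cov (X : Finset V) : Prop := ∃ v w, D.Adj v w ∧ ∀ x ∈ X, D.Adj v x ∨ D.Adj w x

/-- the bad event at `X` -/
def Bad (k s δ K : ℕ) (X : Finset V) (τ : V → Fin n) : Prop :=
  (X.card = 2 ∧ ∃ a ∈ X, ∃ b ∈ X, D.Adj a b ∧ τ a = τ b) ∨
  ((X.card = k ∧ Cov D X) ∧ (X.image τ).card ≤ s) ∨
  Enc.Good D P δ K (gph τ X)

lemma depends (k s δ K : ℕ) (X : Finset V) : LLL.DependsOn (Bad D P k s δ K X) X := by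
  intro ω ω' h
  have e1 : X.image ω = X.image ω' := by
    ext t
    rw [Finset.mem_image, Finset.mem_image]
    constructor
    · rintro ⟨v, hv, rfl⟩; exact ⟨v, hv, (h v hv).symm⟩
    · rintro ⟨v, hv, rfl⟩; exact ⟨v, hv, h v hv⟩
  have e2 : gph ω X = gph ω' X := by
    ext p
    rw [mem_gph, mem_gph]
    constructor
    · rintro ⟨h1, h2⟩; exact ⟨h1, by rw [← h p.1 h1]; exact h2⟩
    · rintro ⟨h1, h2⟩; exact ⟨h1, by rw [h p.1 h1]; exact h2⟩
  rintro (⟨h1, a, ha, b, hb, h2, h3⟩ | h1 | h1)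
  · exact Or.inl ⟨h1, a, ha, b, hb, h2, by rw [← h a ha, ← h b hb]; exact h3⟩
  · exact Or.inr (Or.inl (by rw [← e1]; exact h1))
  · exact Or.inr (Or.inr (by rw [← e2]; exact h1))

/-- first kind -/
lemma bound1 (hn : 1 ≤ n) (X : Finset V) :
    (2 : ℝ) ^ X.card * (LLL.cnt (fun τ : V → Fin n =>
        X.card = 2 ∧ ∃ a ∈ X, ∃ b ∈ X, D.Adj a b ∧ τ a = τ b) : ℝ) / (n : ℝ) ^ Fintype.card V
      ≤ if (X.card = 2 ∧ ∃ a ∈ X, ∃ b ∈ X, D.Adj a b) then (4 / (n : ℝ)) else 0 := by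
  have hn0 : (0 : ℝ) < n := by exact_mod_cast hn
  split_ifs with hc
  · obtain ⟨h2, a, ha, b, hb, hab⟩ := hc
    have hX : X = {a, b} := by
      symm
      apply Finset.eq_of_subset_of_card_le
      · intro x hx
        rw [Finset.mem_insert, Finset.mem_singleton] at hx
        rcases hx with rfl | rfl
        · exact ha
        · exact hb
      · rw [h2, Finset.card_pair hab.ne]
    have h3 : LLL.cnt (fun τ : V → Fin n =>
        X.card = 2 ∧ ∃ a ∈ X, ∃ b ∈ X, D.Adj a b ∧ τ a = τ b)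
        ≤ LLL.cnt (fun τ : V → Fin n => τ a = τ b) := by
      refine LLL.cnt_mono ?_
      rintro τ ⟨_, c, hc, d, hd, hcd, he⟩
      rw [hX, Finset.mem_insert, Finset.mem_singleton] at hc hd
      rcases hc with rfl | rfl <;> rcases hd with rfl | rfl
      · exact absurd hcd (D.loopless.irrefl _)
      · exact he
      · exact he.symm
      · exact absurd hcd (D.loopless.irrefl _)
    have h4 := (Nat.mul_le_mul_right n h3).trans (Cnt.cnt_eq a b hab.ne hn)
    have h5 : (LLL.cnt (fun τ : V → Fin n =>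
        X.card = 2 ∧ ∃ a ∈ X, ∃ b ∈ X, D.Adj a b ∧ τ a = τ b) : ℝ) * n
        ≤ (n : ℝ) ^ Fintype.card V := by exact_mod_cast h4
    rw [div_le_div_iff₀ (by positivity) hn0]
    rw [h2] at h5 ⊢
    nlinarith
  · have h1 : LLL.cnt (fun τ : V → Fin n =>
        X.card = 2 ∧ ∃ a ∈ X, ∃ b ∈ X, D.Adj a b ∧ τ a = τ b) = 0 := by
      rw [LLL.cnt, Finset.card_eq_zero, Finset.eq_empty_iff_forall_notMem]
      intro τ hτ
      rw [LLL.mem_ev] at hτ
      obtain ⟨h1, a, ha, b, hb, h2, _⟩ := hτ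
      exact hc ⟨h1, a, ha, b, hb, h2⟩
    rw [h1]
    simp

lemma sum1 {γ : ℕ} (hγ : ∀ v, (Enc.cn D v).card ≤ γ) (hn : 64 * γ ≤ n) (hn1 : 1 ≤ n) (t : V) :
    ∑ X ∈ univ.filter (fun X : Finset V => t ∈ X),
      (if (X.card = 2 ∧ ∃ a ∈ X, ∃ b ∈ X, D.Adj a b) then (4 / (n : ℝ)) else 0) ≤ 1 / 16 := by
  have hn0 : (0 : ℝ) < n := by exact_mod_cast hn1
  rw [← Finset.sum_filter, Finset.sum_const, nsmul_eq_mul]
  have h1 : (univ.filter (fun X : Finset V => t ∈ X)).filter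
      (fun X => X.card = 2 ∧ ∃ a ∈ X, ∃ b ∈ X, D.Adj a b)
      ⊆ (Enc.cn D t).image (fun b => ({t, b} : Finset V)) := by
    intro X hX
    rw [Finset.mem_filter, Finset.mem_filter] at hX
    obtain ⟨⟨_, htX⟩, h2, a, ha, b, hb, hab⟩ := hX
    have hX : X = {a, b} := by
      symm
      apply Finset.eq_of_subset_of_card_le
      · intro x hx
        rw [Finset.mem_insert, Finset.mem_singleton] at hx
        rcases hx with rfl | rfl
        · exact ha
        · exact hb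
      · rw [h2, Finset.card_pair hab.ne]
    rw [hX, Finset.mem_insert, Finset.mem_singleton] at htX
    rw [Finset.mem_image]
    rcases htX with rfl | rfl
    · exact ⟨b, (Enc.mem_cn D).mpr (Or.inr hab), hX.symm⟩
    · exact ⟨a, (Enc.mem_cn D).mpr (Or.inr hab.symm), by rw [hX, Finset.pair_comm]⟩
  have h2 := (Finset.card_le_card h1).trans (Finset.card_image_le.trans (hγ t))
  have h3 : (((univ.filter (fun X : Finset V => t ∈ X)).filter
      (fun X => X.card = 2 ∧ ∃ a ∈ X, ∃ b ∈ X, D.Adj a b)).card : ℝ) ≤ γ := by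
    exact_mod_cast h2
  have h4 : (64 : ℝ) * γ ≤ n := by exact_mod_cast hn
  rw [mul_div_assoc', div_le_iff₀ hn0]
  linarith

/-- second kind -/
lemma bound2 (hn : 1 ≤ n) (k s : ℕ) (X : Finset V) :
    (2 : ℝ) ^ X.card * (LLL.cnt (fun τ : V → Fin n =>
        (X.card = k ∧ Cov D X) ∧ (X.image τ).card ≤ s) : ℝ) / (n : ℝ) ^ Fintype.card V
      ≤ if (X.card = k ∧ Cov D X) then
        (2 ^ k * ((n : ℝ) ^ s * (s : ℝ) ^ k / (n : ℝ) ^ k)) else 0 := by
  have hn0 : (0 : ℝ) < n := by exact_mod_cast hn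
  split_ifs with hc
  · have h1 : LLL.cnt (fun τ : V → Fin n => (X.card = k ∧ Cov D X) ∧ (X.image τ).card ≤ s)
        ≤ LLL.cnt (fun τ : V → Fin n => (X.image τ).card ≤ s) :=
      LLL.cnt_mono (fun τ h => h.2)
    have h2 := (Nat.mul_le_mul_right (n ^ X.card) h1).trans (Cnt.cnt_image X s hn)
    rw [hc.1] at h2
    rw [hc.1]
    have h3 : (LLL.cnt (fun τ : V → Fin n =>
        (X.card = k ∧ Cov D X) ∧ (X.image τ).card ≤ s) : ℝ) * (n : ℝ) ^ k
        ≤ (n : ℝ) ^ s * ((s : ℝ) ^ k * (n : ℝ) ^ Fintype.card V) := by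
      rw [hc.1]
      exact_mod_cast h2
    rw [hc.1] at h3
    rw [div_le_iff₀ (by positivity)]
    have h4 : (2 : ℝ) ^ k * ((n : ℝ) ^ s * (s : ℝ) ^ k / (n : ℝ) ^ k) * (n : ℝ) ^ Fintype.card V
        = 2 ^ k * (((n : ℝ) ^ s * ((s : ℝ) ^ k * (n : ℝ) ^ Fintype.card V)) / (n : ℝ) ^ k) := by
      ring
    rw [h4]
    refine mul_le_mul_of_nonneg_left ?_ (by positivity)
    rw [le_div_iff₀ (by positivity)]
    exact h3
  · have h1 : LLL.cnt (fun τ : V → Fin n =>
        (X.card = k ∧ Cov D X) ∧ (X.image τ).card ≤ s) = 0 := by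
      rw [LLL.cnt, Finset.card_eq_zero, Finset.eq_empty_iff_forall_notMem]
      intro τ hτ
      rw [LLL.mem_ev] at hτ
      exact hc hτ.1
    rw [h1]
    simp

lemma count2 {γ k : ℕ} (hγ : ∀ v, (Enc.cn D v).card ≤ γ) (t : V) :
    ((univ.filter (fun X : Finset V => t ∈ X)).filter
      (fun X => X.card = k ∧ Cov D X)).card ≤ γ ^ 2 * (2 * γ).choose k := by
  have h1 : (univ.filter (fun X : Finset V => t ∈ X)).filter (fun X => X.card = k ∧ Cov D X)
      ⊆ (Enc.cn D t).biUnion (fun v => (Enc.cn D v).biUnion (fun w =>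
        powersetCard k (Enc.cn D v ∪ Enc.cn D w))) := by
    intro X hX
    rw [Finset.mem_filter, Finset.mem_filter] at hX
    obtain ⟨⟨_, htX⟩, h2, v, w, hvw, hcov⟩ := hX
    rw [Finset.mem_biUnion]
    rcases hcov t htX with hvt | hwt
    · refine ⟨v, (Enc.mem_cn D).mpr (Or.inr hvt.symm), ?_⟩
      rw [Finset.mem_biUnion]
      refine ⟨w, (Enc.mem_cn D).mpr (Or.inr hvw), ?_⟩
      rw [Finset.mem_powersetCard]
      refine ⟨?_, h2⟩
      intro x hx
      rw [Finset.mem_union, Enc.mem_cn, Enc.mem_cn]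
      rcases hcov x hx with h | h
      · exact Or.inl (Or.inr h)
      · exact Or.inr (Or.inr h)
    · refine ⟨w, (Enc.mem_cn D).mpr (Or.inr hwt.symm), ?_⟩
      rw [Finset.mem_biUnion]
      refine ⟨v, (Enc.mem_cn D).mpr (Or.inr hvw.symm), ?_⟩
      rw [Finset.mem_powersetCard]
      refine ⟨?_, h2⟩
      intro x hx
      rw [Finset.mem_union, Enc.mem_cn, Enc.mem_cn]
      rcases hcov x hx with h | h
      · exact Or.inr (Or.inr h)
      · exact Or.inl (Or.inr h)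
  refine (Finset.card_le_card h1).trans ?_
  have h2 : ∀ v : V, ((Enc.cn D v).biUnion (fun w =>
        powersetCard k (Enc.cn D v ∪ Enc.cn D w))).card ≤ γ * (2 * γ).choose k := by
    intro v
    refine (Finset.card_biUnion_le_card_mul _ _ ((2 * γ).choose k) (fun w _ => ?_)).trans
      (Nat.mul_le_mul_right _ (hγ v))
    rw [Finset.card_powersetCard]
    apply Nat.choose_le_choose
    have := Finset.card_union_le (Enc.cn D v) (Enc.cn D w)
    have h3 := hγ v
    have h4 := hγ w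
    omega
  calc _ ≤ (Enc.cn D t).card * (γ * (2 * γ).choose k) :=
        Finset.card_biUnion_le_card_mul _ _ _ (fun v _ => h2 v)
    _ ≤ γ * (γ * (2 * γ).choose k) := Nat.mul_le_mul_right _ (hγ t)
    _ = _ := by ring

lemma sum2 {γ k s b : ℕ} (hγ : ∀ v, (Enc.cn D v).card ≤ γ) (hn : 64 * γ ≤ n) (hn1 : 1 ≤ n)
    (hnb : n ≤ 4 ^ b) (hk : 1 ≤ k) (hsk : 4 * s ≤ 5 * k) (hbk : b * (s + 2) + 3 ≤ k) (t : V) :
    ∑ X ∈ univ.filter (fun X : Finset V => t ∈ X),
      (if (X.card = k ∧ Cov D X) then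
        (2 ^ k * ((n : ℝ) ^ s * (s : ℝ) ^ k / (n : ℝ) ^ k)) else 0) ≤ 1 / 64 := by
  have hn0 : (0 : ℝ) < n := by exact_mod_cast hn1
  rw [← Finset.sum_filter, Finset.sum_const, nsmul_eq_mul]
  have h1 : (((univ.filter (fun X : Finset V => t ∈ X)).filter
      (fun X => X.card = k ∧ Cov D X)).card : ℝ) ≤ (γ : ℝ) ^ 2 * ((2 * γ).choose k : ℕ) := by
    exact_mod_cast count2 D hγ t
  refine (mul_le_mul_of_nonneg_right h1 (by positivity)).trans ?_
  exact Cnt.e2_num γ k s n b hn hn1 hnb hk hsk hbk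

/-- third kind -/
lemma bound3 (hn : 1 ≤ n) (δ K : ℕ) (X : Finset V) :
    (2 : ℝ) ^ X.card * (LLL.cnt (fun τ : V → Fin n =>
        Enc.Good D P δ K (gph τ X)) : ℝ) / (n : ℝ) ^ Fintype.card V
      ≤ ∑ Z ∈ univ.filter (fun Z : Finset (V × Fin n) =>
        Enc.Good D P δ K Z ∧ Z.image Prod.fst = X), (2 / (n : ℝ)) ^ Z.card := by
  have hn0 : (0 : ℝ) < n := by exact_mod_cast hn
  have h1 := Cnt.cnt_le_sum (P := fun τ : V → Fin n => Enc.Good D P δ K (gph τ X))
    (univ.filter (fun Z : Finset (V × Fin n) => Enc.Good D P δ K Z ∧ Z.image Prod.fst = X))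
    (fun Z τ => ∀ p ∈ Z, τ p.1 = p.2) (by
      intro τ hτ
      refine ⟨gph τ X, ?_, ?_⟩
      · rw [Finset.mem_filter]
        exact ⟨Finset.mem_univ _, hτ, gph_fst τ X⟩
      · intro p hp
        exact (mem_gph.mp hp).2)
  have h2 : (LLL.cnt (fun τ : V → Fin n => Enc.Good D P δ K (gph τ X)) : ℝ)
      ≤ ∑ Z ∈ univ.filter (fun Z : Finset (V × Fin n) =>
        Enc.Good D P δ K Z ∧ Z.image Prod.fst = X),
        (LLL.cnt (fun τ : V → Fin n => ∀ p ∈ Z, τ p.1 = p.2) : ℝ) := by exact_mod_cast h1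
  rw [div_le_iff₀ (by positivity), Finset.sum_mul]
  calc (2 : ℝ) ^ X.card * (LLL.cnt (fun τ : V → Fin n => Enc.Good D P δ K (gph τ X)) : ℝ)
      ≤ (2 : ℝ) ^ X.card * ∑ Z ∈ univ.filter (fun Z : Finset (V × Fin n) =>
        Enc.Good D P δ K Z ∧ Z.image Prod.fst = X),
        (LLL.cnt (fun τ : V → Fin n => ∀ p ∈ Z, τ p.1 = p.2) : ℝ) :=
        mul_le_mul_of_nonneg_left h2 (by positivity)
    _ = ∑ Z ∈ univ.filter (fun Z : Finset (V × Fin n) =>
        Enc.Good D P δ K Z ∧ Z.image Prod.fst = X), (2 : ℝ) ^ X.card *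
        (LLL.cnt (fun τ : V → Fin n => ∀ p ∈ Z, τ p.1 = p.2) : ℝ) := Finset.mul_sum _ _ _
    _ ≤ _ := by
        refine Finset.sum_le_sum (fun Z hZ => ?_)
        rw [Finset.mem_filter] at hZ
        have h3 : Z.card = X.card := by
          rw [← hZ.2.2]
          exact (Finset.card_image_of_injOn
            (fun p hp p' hp' h => hZ.2.1.fn p hp p' hp' h)).symm
        have h4 := Cnt.cnt_agree Z hZ.2.1.fn
        have h5 : (LLL.cnt (fun τ : V → Fin n => ∀ p ∈ Z, τ p.1 = p.2) : ℝ) * (n : ℝ) ^ Z.card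
            ≤ (n : ℝ) ^ Fintype.card V := by exact_mod_cast h4
        rw [← h3, div_pow]
        have h6 : (LLL.cnt (fun τ : V → Fin n => ∀ p ∈ Z, τ p.1 = p.2) : ℝ)
            ≤ (n : ℝ) ^ Fintype.card V / (n : ℝ) ^ Z.card := by
          rw [le_div_iff₀ (by positivity)]
          exact h5
        calc (2 : ℝ) ^ Z.card * (LLL.cnt (fun τ : V → Fin n => ∀ p ∈ Z, τ p.1 = p.2) : ℝ)
            ≤ (2 : ℝ) ^ Z.card * ((n : ℝ) ^ Fintype.card V / (n : ℝ) ^ Z.card) :=
              mul_le_mul_of_nonneg_left h6 (by positivity)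
          _ = _ := by ring

lemma sum3 (δ K : ℕ) (t : V) :
    ∑ X ∈ univ.filter (fun X : Finset V => t ∈ X),
      ∑ Z ∈ univ.filter (fun Z : Finset (V × Fin n) =>
        Enc.Good D P δ K Z ∧ Z.image Prod.fst = X), (2 / (n : ℝ)) ^ Z.card
    ≤ ∑ Z ∈ univ.filter (fun Z : Finset (V × Fin n) =>
        Enc.Good D P δ K Z ∧ t ∈ Z.image Prod.fst), (2 / (n : ℝ)) ^ Z.card := by
  have h1 := Finset.sum_fiberwise_of_maps_to
    (s := univ.filter (fun Z : Finset (V × Fin n) =>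
        Enc.Good D P δ K Z ∧ t ∈ Z.image Prod.fst))
    (t := univ.filter (fun X : Finset V => t ∈ X))
    (g := fun Z => Z.image Prod.fst) (by
      intro Z hZ
      rw [Finset.mem_filter] at hZ ⊢
      exact ⟨Finset.mem_univ _, hZ.2.2⟩) (fun Z => (2 / (n : ℝ)) ^ Z.card)
  rw [← h1]
  refine Finset.sum_le_sum (fun X hX => ?_)
  refine Finset.sum_le_sum_of_subset_of_nonneg ?_ (fun Z _ _ => by positivity)
  intro Z hZ
  rw [Finset.mem_filter] at hZ hX
  rw [Finset.mem_filter, Finset.mem_filter]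
  exact ⟨⟨Finset.mem_univ _, hZ.2.1, by rw [hZ.2.2]; exact hX.2⟩, hZ.2.2⟩

/-- existence of a good assignment of types -/
theorem exists_tau {q h K b γ v0 k s : ℕ} (hq : 8 * b + 7 ≤ q) (hb : 1 ≤ b)
    (hv : (b + 1) * ((2 * b - 1) * (b + 1) + 2) ≤ v0) (hP : Props.Sparse P b v0)
    (hγ : ∀ v, (Enc.cn D v).card ≤ γ) (hγ1 : 1 ≤ γ) (hh : h = v0 + 1)
    (hn : 64 * γ ≤ n) (hnb : n ≤ 4 ^ b) (hK : K ≤ 2 ^ b)
    (hk : 1 ≤ k) (hsk : 4 * s ≤ 5 * k) (hbk : b * (s + 2) + 3 ≤ k) :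
    ∃ τ : V → Fin n, (∀ a c, D.Adj a c → τ a ≠ τ c) ∧
      (∀ X : Finset V, X.card = k → Cov D X → s < (X.image τ).card) ∧
      (∀ X : Finset V, X.Nonempty → ¬ Enc.Good D P (2 * (3 * q) * (h + 3 * q)) K (gph τ X)) := by
  have hn1 : 1 ≤ n := by omega
  have hn0 : (0 : ℝ) < n := by exact_mod_cast hn1
  set δ := 2 * (3 * q) * (h + 3 * q) with hδ
  have hcard : (Fintype.card (V → Fin n) : ℝ) = (n : ℝ) ^ Fintype.card V := by
    rw [Fintype.card_fun, Fintype.card_fin]; push_cast; rfl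
  have hpow : (0 : ℝ) < (n : ℝ) ^ Fintype.card V := by positivity
  set x : Finset V → ℝ := fun X =>
    (2 : ℝ) ^ X.card * (LLL.cnt (Bad D P k s δ K X) : ℝ) / (n : ℝ) ^ Fintype.card V with hx
  have hx0 : ∀ X, 0 ≤ x X := fun X => by
    rw [hx]; positivity
  have hle : ∀ X, x X ≤ (if (X.card = 2 ∧ ∃ a ∈ X, ∃ b ∈ X, D.Adj a b) then (4 / (n : ℝ)) else 0)
      + (if (X.card = k ∧ Cov D X) then
        (2 ^ k * ((n : ℝ) ^ s * (s : ℝ) ^ k / (n : ℝ) ^ k)) else 0)
      + ∑ Z ∈ univ.filter (fun Z : Finset (V × Fin n) =>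
        Enc.Good D P δ K Z ∧ Z.image Prod.fst = X), (2 / (n : ℝ)) ^ Z.card := by
    intro X
    have h1 := bound1 (n := n) D hn1 X
    have h2 := bound2 (n := n) D hn1 k s X
    have h3 := bound3 D P hn1 δ K X
    have h4 : LLL.cnt (Bad D P k s δ K X) ≤
        LLL.cnt (fun τ : V → Fin n => X.card = 2 ∧ ∃ a ∈ X, ∃ b ∈ X, D.Adj a b ∧ τ a = τ b)
        + LLL.cnt (fun τ : V → Fin n => (X.card = k ∧ Cov D X) ∧ (X.image τ).card ≤ s)
        + LLL.cnt (fun τ : V → Fin n => Enc.Good D P δ K (gph τ X)) := by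
      refine le_trans (Finset.card_le_card (t :=
        (LLL.ev (fun τ : V → Fin n => X.card = 2 ∧ ∃ a ∈ X, ∃ b ∈ X, D.Adj a b ∧ τ a = τ b)
        ∪ LLL.ev (fun τ : V → Fin n => (X.card = k ∧ Cov D X) ∧ (X.image τ).card ≤ s))
        ∪ LLL.ev (fun τ : V → Fin n => Enc.Good D P δ K (gph τ X))) ?_) ?_
      · intro τ hτ
        rw [LLL.mem_ev] at hτ
        rw [Finset.mem_union, Finset.mem_union, LLL.mem_ev, LLL.mem_ev, LLL.mem_ev]
        rcases hτ with h | h | h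
        · exact Or.inl (Or.inl h)
        · exact Or.inl (Or.inr h)
        · exact Or.inr h
      · exact (Finset.card_union_le _ _).trans
          (Nat.add_le_add_right (Finset.card_union_le _ _) _)
    have h5 : (LLL.cnt (Bad D P k s δ K X) : ℝ) ≤
        (LLL.cnt (fun τ : V → Fin n =>
          X.card = 2 ∧ ∃ a ∈ X, ∃ b ∈ X, D.Adj a b ∧ τ a = τ b) : ℝ)
        + (LLL.cnt (fun τ : V → Fin n => (X.card = k ∧ Cov D X) ∧ (X.image τ).card ≤ s) : ℝ)
        + (LLL.cnt (fun τ : V → Fin n => Enc.Good D P δ K (gph τ X)) : ℝ) := by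
      exact_mod_cast h4
    have h6 : x X ≤ (2 : ℝ) ^ X.card * ((LLL.cnt (fun τ : V → Fin n =>
          X.card = 2 ∧ ∃ a ∈ X, ∃ b ∈ X, D.Adj a b ∧ τ a = τ b) : ℝ)
        + (LLL.cnt (fun τ : V → Fin n => (X.card = k ∧ Cov D X) ∧ (X.image τ).card ≤ s) : ℝ)
        + (LLL.cnt (fun τ : V → Fin n => Enc.Good D P δ K (gph τ X)) : ℝ))
        / (n : ℝ) ^ Fintype.card V := by
      rw [hx]
      apply div_le_div_of_nonneg_right _ hpow.le
      exact mul_le_mul_of_nonneg_left h5 (by positivity)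
    refine h6.trans ?_
    rw [mul_add, mul_add, add_div, add_div]
    exact add_le_add (add_le_add h1 h2) h3
  have hsum : ∀ t : V, ∑ X ∈ univ.filter (fun X : Finset V => t ∈ X), x X ≤ 1 / 2 := by
    intro t
    have h1 := sum1 (n := n) D hγ hn hn1 t
    have h2 := sum2 (n := n) D hγ hn hn1 hnb hk hsk hbk t
    have h3 := (sum3 D P δ K t).trans
      (Enc.weight (P := P) D hq hb hv hP hγ hγ1 hh hn hnb hK t)
    calc _ ≤ ∑ X ∈ univ.filter (fun X : Finset V => t ∈ X), _ :=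
          Finset.sum_le_sum (fun X _ => hle X)
      _ ≤ 1 / 16 + 1 / 64 + 1 / 31 := by
          rw [Finset.sum_add_distrib, Finset.sum_add_distrib]
          exact add_le_add (add_le_add h1 h2) h3
      _ ≤ 1 / 2 := by norm_num
  obtain ⟨τ, hτ⟩ := LLL.lll (univ.filter (fun X : Finset V => X.Nonempty))
    (Bad D P k s δ K) (fun X => X) (fun X _ => depends D P k s δ K X) x (fun X _ => hx0 X)
    (by
      intro X hX
      obtain ⟨t, ht⟩ := (Finset.mem_filter.mp hX).2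
      refine le_trans ?_ (hsum t)
      exact Finset.single_le_sum (f := x) (fun Y _ => hx0 Y)
        (Finset.mem_filter.mpr ⟨Finset.mem_univ _, ht⟩))
    (by
      intro X _
      rw [hcard, hx]
      show _ ≤ (2 : ℝ) ^ X.card * (LLL.cnt (Bad D P k s δ K X) : ℝ)
        / (n : ℝ) ^ Fintype.card V * _
      rw [div_mul_cancel₀ _ hpow.ne', mul_comm])
    (by
      intro t
      refine le_trans ?_ (hsum t)
      refine Finset.sum_le_sum_of_subset_of_nonneg ?_ (fun X _ _ => hx0 X)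
      intro X hX
      rw [Finset.mem_filter] at hX ⊢
      exact ⟨Finset.mem_univ _, hX.2⟩)
    (by
      rw [Fintype.card_fun, Fintype.card_fin]
      positivity)
  have hτ' : ∀ X : Finset V, X.Nonempty → ¬ Bad D P k s δ K X τ := fun X hX =>
    hτ X (Finset.mem_filter.mpr ⟨Finset.mem_univ _, hX⟩)
  refine ⟨τ, ?_, ?_, ?_⟩
  · intro a c hac heq
    refine hτ' {a, c} ⟨a, Finset.mem_insert_self _ _⟩ (Or.inl ⟨Finset.card_pair hac.ne, a,
      Finset.mem_insert_self _ _, c, Finset.mem_insert_of_mem (Finset.mem_singleton_self _),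
      hac, heq⟩)
  · intro X hX hcov
    by_contra hcon
    rw [not_lt] at hcon
    exact hτ' X (Finset.card_pos.mp (by omega)) (Or.inr (Or.inl ⟨⟨hX, hcov⟩, hcon⟩))
  · intro X hX hgood
    exact hτ' X hX (Or.inr (Or.inr hgood))

end Tau

end Pool.Agent.TH474.RS
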